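import Pool.Agent.Lib.H88S.Defs

/-!
# H88S: entrywise inner product (small shared lemmas)
-/

open Finset

namespace Pool.Agent.H88S

open Pool.Agent.H69Hopf

variable {N : ℕ}

/-- Entrywise inner product. -/
def ip (A B : Mat N) : ℝ := ∑ i, ∑ j, A i j * B i j

theorem ip_comm (A B : Mat N) : ip A B = ip B A := by
  unfold ip
  simp_rw [mul_comm]

theorem ip_add (A B C : Mat N) : ip A (B + C) = ip A B + ip A C := by
  unfold ip
  simp only [Matrix.add_apply, mul_add, sum_add_distrib]

theorem ip_smul (s : ℝ) (A B : Mat N) : ip A (s • B) = s * ip A B := by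
  unfold ip
  simp only [Matrix.smul_apply, smul_eq_mul, mul_sum]
  refine sum_congr rfl fun i _ => sum_congr rfl fun j _ => by ring

theorem ip_one (A : Mat N) : ip A 1 = A.trace := by
  unfold ip Matrix.trace
  refine sum_congr rfl fun i _ => ?_
  simp [Matrix.one_apply]

theorem ip_vecMulVec (A : Mat N) (x y : Fin N → ℝ) : ip A (Matrix.vecMulVec x y) = bilin A x y := by
  unfold ip bilin
  refine sum_congr rfl fun i _ => sum_congr rfl fun j _ => ?_
  rw [Matrix.vecMulVec_apply]
  ring

theorem act_add_left (R : Arr N) (A B C : Mat N) : act R (A + B) C = act R A C + act R B C := by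
  unfold act
  simp only [Matrix.add_apply, mul_add, add_mul, sum_add_distrib]

theorem act_add_right (R : Arr N) (A B C : Mat N) : act R A (B + C) = act R A B + act R A C := by
  unfold act
  simp only [Matrix.add_apply, mul_add, sum_add_distrib]

theorem act_smul_left (R : Arr N) (s : ℝ) (A B : Mat N) : act R (s • A) B = s * act R A B := by
  unfold act
  simp only [Matrix.smul_apply, smul_eq_mul, mul_sum]
  refine sum_congr rfl fun i _ => sum_congr rfl fun j _ => sum_congr rfl fun k _ =>
    sum_congr rfl fun l _ => by ring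

theorem act_smul_right (R : Arr N) (s : ℝ) (A B : Mat N) : act R A (s • B) = s * act R A B := by
  unfold act
  simp only [Matrix.smul_apply, smul_eq_mul, mul_sum]
  refine sum_congr rfl fun i _ => sum_congr rfl fun j _ => sum_congr rfl fun k _ =>
    sum_congr rfl fun l _ => by ring

theorem act_comm {R : Arr N} (h : ∀ i j k l, R i j k l = R j i l k) (A B : Mat N) :
    act R A B = act R B A := by
  unfold act
  rw [sum_comm]
  refine sum_congr rfl fun j _ => sum_congr rfl fun i _ => ?_
  rw [sum_comm]
  refine sum_congr rfl fun l _ => sum_congr rfl fun k _ => ?_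
  rw [h i j k l]
  ring

theorem act_vecMulVec_self {R : Arr N} (h : ∀ i j k l, R i j k l = - R i j l k) (x : Fin N → ℝ) :
    act R (Matrix.vecMulVec x x) (Matrix.vecMulVec x x) = 0 := by
  unfold act
  have h2 : ∀ i j, ∑ k, ∑ l, R i j k l * Matrix.vecMulVec x x i k * Matrix.vecMulVec x x j l =
      - ∑ k, ∑ l, R i j k l * Matrix.vecMulVec x x i k * Matrix.vecMulVec x x j l := by
    intro i j
    conv_lhs => rw [sum_comm]
    rw [← sum_neg_distrib]
    refine sum_congr rfl fun l _ => ?_
    rw [← sum_neg_distrib]
    refine sum_congr rfl fun k _ => ?_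
    rw [h i j k l]
    simp only [Matrix.vecMulVec_apply]
    ring
  refine sum_eq_zero fun i _ => sum_eq_zero fun j _ => ?_
  have := h2 i j
  linarith

end Pool.Agent.H88S
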