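import Pool.Agent.Lib.H88S.Ident
import Pool.Agent.Lib.H88S.Ip

/-!
# H88S chunk DECOMP: decomposition of a form of Lorentz type

`Q : Arr N` with `Q i j k l = - Q i j l k`, `Q i j k l = Q j i l k` (hence also antisymmetric in
`i, j`).  `q(Y, Z) = act Q Y Z = ∑ Q i j k l Y i k Z j l` is a symmetric bilinear form with
`q(ξξ, ξξ) = 0` for the rank one matrices `ξξ = vecMulVec ξ ξ`.  Assume `κ = q(1, 1) > 0` and
`κ q(Y, Y) ≤ q(1, Y)²` for symmetric `Y` (Lorentz signature at most).

## `exists_decomp`

`r(Y, Z) = q(1, Y) q(1, Z) / κ - q(Y, Z)` is a positive semidefinite form on the symmetric matrices.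
Extend to all matrices by symmetrisation: `r̃(Y, Z) = r(sym Y, sym Z)`; its Gram matrix on the
`N²` elementary matrices is positive semidefinite, hence `= Cᵀ C`
(`Matrix.posSemidef_iff_eq_conjTranspose_mul_self` or the square root). `B_k i j = C k (i, j)`; the
entry is symmetric in `i, j` because `r̃(E_ij - E_ji, E_ij - E_ji) = 0` gives
`∑_k (C k (i,j) - C k (j,i))² = 0`.  `S i j = q(1, sym E_ij) / √κ`.
(`Fin p` with `p = N * N` or any finite index set re-indexed by `Fintype.equivFin`.)
-/

open Finset
open scoped MatrixOrder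

namespace Pool.Agent.H88S

open Pool.Agent.H69Hopf

variable {N : ℕ}

theorem decomp_act_zero_right (Q : Arr N) (A : Mat N) : act Q A 0 = 0 := by
  unfold act
  simp

theorem decomp_act_zero_left (Q : Arr N) (A : Mat N) : act Q 0 A = 0 := by
  unfold act
  simp

theorem decomp_act_sum_right {ι : Type*} (Q : Arr N) (A : Mat N) (s : Finset ι) (x : ι → ℝ)
    (f : ι → Mat N) : act Q A (∑ i ∈ s, x i • f i) = ∑ i ∈ s, x i * act Q A (f i) := by
  classical
  induction s using Finset.induction_on with
  | empty => simp [decomp_act_zero_right]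
  | insert a s ha ih => rw [sum_insert ha, sum_insert ha, act_add_right, act_smul_right, ih]

theorem decomp_act_sum_left {ι : Type*} (Q : Arr N) (A : Mat N) (s : Finset ι) (x : ι → ℝ)
    (f : ι → Mat N) : act Q (∑ i ∈ s, x i • f i) A = ∑ i ∈ s, x i * act Q (f i) A := by
  classical
  induction s using Finset.induction_on with
  | empty => simp [decomp_act_zero_left]
  | insert a s ha ih => rw [sum_insert ha, sum_insert ha, act_add_left, act_smul_left, ih]

theorem decomp_expand (Y : Mat N) (hY : Y.IsSymm) :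
    ∑ p : Fin N × Fin N, Y p.1 p.2 • identE p.1 p.2 = Y := by
  ext a b
  rw [Fintype.sum_prod_type, Matrix.sum_apply]
  simp only [Matrix.sum_apply, Matrix.smul_apply, identE, Matrix.add_apply, smul_eq_mul,
    Matrix.single_apply]
  have hab : Y b a = Y a b := hY.apply a b
  have e1 : ∀ i j : Fin N, Y i j * (1 / 2 * ((if i = a ∧ j = b then (1 : ℝ) else 0) +
      if j = a ∧ i = b then (1 : ℝ) else 0)) =
      (if i = a then (if j = b then 1 / 2 * Y i j else 0) else 0) +
      (if i = b then (if j = a then 1 / 2 * Y i j else 0) else 0) := by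
    intro i j
    rw [ite_and, ite_and]
    split_ifs <;> ring
  simp only [e1, sum_add_distrib]
  simp only [Finset.sum_ite_irrel, Finset.sum_const_zero, Finset.sum_ite_eq', Finset.mem_univ,
    if_true]
  rw [hab]
  ring

theorem decomp_symm_sum (x : Fin N × Fin N → ℝ) :
    (∑ p : Fin N × Fin N, x p • identE p.1 p.2).IsSymm := by
  unfold Matrix.IsSymm
  rw [Matrix.transpose_sum]
  refine sum_congr rfl fun p _ => ?_
  rw [Matrix.transpose_smul]
  congr 1
  exact identE_symm p.1 p.2

theorem exists_decomp {Q : Arr N} (hQ2 : ∀ i j k l, Q i j k l = Q j i l k)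
    (hκ : 0 < act Q 1 1)
    (hL : ∀ Y : Mat N, Y.IsSymm → act Q 1 1 * act Q Y Y ≤ act Q 1 Y ^ 2) :
    ∃ (p : ℕ) (S : Mat N) (B : Fin p → Mat N), S.IsSymm ∧ (∀ k, (B k).IsSymm) ∧
      (∀ Y : Mat N, Y.IsSymm → ip S Y = act Q 1 Y / √(act Q 1 1)) ∧
      ∀ Y Z : Mat N, Y.IsSymm → Z.IsSymm →
        act Q Y Z = ip S Y * ip S Z - ∑ k, ip (B k) Y * ip (B k) Z := by
  set κ := act Q 1 1 with hκdef
  have hsq : 0 < √κ := Real.sqrt_pos.mpr hκ
  have hsq2 : √κ * √κ = κ := Real.mul_self_sqrt hκ.le
  have hEsymm : ∀ i j : Fin N, (identE i j : Mat N) = identE j i := by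
    intro i j
    unfold identE
    rw [add_comm]
  -- the Gram matrix
  set r : Mat N → Mat N → ℝ := fun Y Z => act Q 1 Y * act Q 1 Z / κ - act Q Y Z with hr
  set G : Matrix (Fin N × Fin N) (Fin N × Fin N) ℝ :=
    Matrix.of fun p q => r (identE p.1 p.2) (identE q.1 q.2) with hG
  have hGsymm : G.IsHermitian := by
    ext p q
    rw [Matrix.conjTranspose_apply, star_trivial]
    simp only [hG, Matrix.of_apply, hr]
    rw [act_comm hQ2 (identE q.1 q.2) (identE p.1 p.2)]
    ring
  have hquad : ∀ x y : Fin N × Fin N → ℝ, ∑ p, ∑ q, x p * G p q * y q =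
      r (∑ p, x p • identE p.1 p.2) (∑ q, y q • identE q.1 q.2) := by
    intro x y
    simp only [hr, hG, Matrix.of_apply]
    rw [decomp_act_sum_right, decomp_act_sum_right, decomp_act_sum_left, sum_mul_sum, sum_div,
      ← sum_sub_distrib]
    refine sum_congr rfl fun p _ => ?_
    rw [decomp_act_sum_right, mul_sum, sum_div, ← sum_sub_distrib]
    refine sum_congr rfl fun q _ => ?_
    ring
  have hpsd : G.PosSemidef := by
    refine Matrix.PosSemidef.of_dotProduct_mulVec_nonneg hGsymm ?_
    intro x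
    have h1 : star x ⬝ᵥ G.mulVec x = ∑ p, ∑ q, x p * G p q * x q := by
      unfold dotProduct Matrix.mulVec dotProduct
      refine sum_congr rfl fun p _ => ?_
      rw [Pi.star_apply, star_trivial, mul_sum]
      exact sum_congr rfl fun q _ => by ring
    rw [h1, hquad]
    have h2 := hL _ (decomp_symm_sum x)
    simp only [hr]
    rw [sub_nonneg, le_div_iff₀ hκ]
    nlinarith
  obtain ⟨C, hC⟩ := CStarAlgebra.nonneg_iff_eq_star_mul_self.mp hpsd.nonneg
  rw [Matrix.star_eq_conjTranspose] at hC
  have hGC : ∀ p q, G p q = ∑ k, C k p * C k q := by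
    intro p q
    rw [hC, Matrix.mul_apply]
    refine sum_congr rfl fun k _ => ?_
    rw [Matrix.conjTranspose_apply, star_trivial]
  have hCsymm : ∀ k i j, C k (i, j) = C k (j, i) := by
    intro k i j
    have h1 : ∑ k, (C k (i, j) - C k (j, i)) ^ 2 = 0 := by
      have h2 : ∑ k, (C k (i, j) - C k (j, i)) ^ 2 =
          G (i, j) (i, j) - G (i, j) (j, i) - G (j, i) (i, j) + G (j, i) (j, i) := by
        rw [hGC, hGC, hGC, hGC, ← sum_sub_distrib, ← sum_sub_distrib, ← sum_add_distrib]
        exact sum_congr rfl fun k _ => by ring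
      rw [h2]
      simp only [hG, Matrix.of_apply]
      rw [hEsymm j i]
      ring
    have h3 := (sum_eq_zero_iff_of_nonneg (fun k _ => sq_nonneg _)).mp h1 k (mem_univ k)
    have h4 := pow_eq_zero_iff (two_ne_zero) |>.mp h3
    linarith
  set e := Fintype.equivFin (Fin N × Fin N) with he
  refine ⟨Fintype.card (Fin N × Fin N), Matrix.of fun i j => act Q 1 (identE i j) / √κ,
    fun m => Matrix.of fun i j => C (e.symm m) (i, j), ?_, ?_, ?_, ?_⟩
  · ext i j
    rw [Matrix.transpose_apply, Matrix.of_apply, Matrix.of_apply, hEsymm i j]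
  · intro m
    ext i j
    exact hCsymm (e.symm m) j i
  · intro Y hY
    have h1 : ip (Matrix.of fun i j => act Q 1 (identE i j) / √κ) Y =
        (∑ p : Fin N × Fin N, Y p.1 p.2 * act Q 1 (identE p.1 p.2)) / √κ := by
      unfold ip
      rw [Fintype.sum_prod_type, sum_div]
      refine sum_congr rfl fun i _ => ?_
      rw [sum_div]
      refine sum_congr rfl fun j _ => ?_
      rw [Matrix.of_apply]
      ring
    rw [h1, ← decomp_act_sum_right, decomp_expand Y hY]
  · intro Y Z hY hZ
    have hS : ∀ Y : Mat N, Y.IsSymm →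
        ip (Matrix.of fun i j => act Q 1 (identE i j) / √κ) Y = act Q 1 Y / √κ := by
      intro Y hY
      have h1 : ip (Matrix.of fun i j => act Q 1 (identE i j) / √κ) Y =
          (∑ p : Fin N × Fin N, Y p.1 p.2 * act Q 1 (identE p.1 p.2)) / √κ := by
        unfold ip
        rw [Fintype.sum_prod_type, sum_div]
        refine sum_congr rfl fun i _ => ?_
        rw [sum_div]
        refine sum_congr rfl fun j _ => ?_
        rw [Matrix.of_apply]
        ring
      rw [h1, ← decomp_act_sum_right, decomp_expand Y hY]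
    have hB : ∀ (k : Fin N × Fin N) (Y : Mat N),
        ip (Matrix.of fun i j => C k (i, j)) Y = ∑ p : Fin N × Fin N, C k p * Y p.1 p.2 := by
      intro k Y
      unfold ip
      rw [Fintype.sum_prod_type]
      rfl
    rw [hS Y hY, hS Z hZ, Equiv.sum_comp e.symm (fun k : Fin N × Fin N =>
      ip (Matrix.of fun i j => C k (i, j)) Y * ip (Matrix.of fun i j => C k (i, j)) Z)]
    have h2 : ∑ k : Fin N × Fin N, ip (Matrix.of fun i j => C k (i, j)) Y *
        ip (Matrix.of fun i j => C k (i, j)) Z = r Y Z := by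
      have h3 := hquad (fun p => Y p.1 p.2) (fun p => Z p.1 p.2)
      rw [decomp_expand Y hY, decomp_expand Z hZ] at h3
      rw [← h3]
      simp only [hB, hGC, sum_mul_sum]
      rw [sum_comm]
      refine sum_congr rfl fun p _ => ?_
      rw [sum_comm]
      refine sum_congr rfl fun q _ => ?_
      rw [mul_sum, sum_mul]
      exact sum_congr rfl fun k _ => by ring
    rw [h2]
    simp only [hr]
    have h4 : act Q 1 Y / √κ * (act Q 1 Z / √κ) = act Q 1 Y * act Q 1 Z / κ := by
      rw [div_mul_div_comm, hsq2]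
    rw [h4]
    ring

end Pool.Agent.H88S
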