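import Pool.Agent.Lib.H88S.Ip

/-!
# H88S chunk PSD: the time orientation

`Q : Arr N` with `Q i j k l = - Q i j l k`, `Q i j k l = Q j i l k` (hence also antisymmetric in
`i, j`).  `q(Y, Z) = act Q Y Z = ∑ Q i j k l Y i k Z j l` is a symmetric bilinear form with
`q(ξξ, ξξ) = 0` for the rank one matrices `ξξ = vecMulVec ξ ξ`.  Assume `κ = q(1, 1) > 0` and
`κ q(Y, Y) ≤ q(1, Y)²` for symmetric `Y` (Lorentz signature at most).

## `psd_of_lorentz`: `ρ(ξ) := q(1, ξξ) ≥ 0` for all `ξ`.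

(i) If `Y` is symmetric, `a = ξξ` and `ρ(ξ) = 0` then `q(a, Y) = 0` for all symmetric `Y`: for all
real `s`: `κ (2 s q(a, Y) + q(Y, Y)) = κ q(s a + Y, s a + Y) ≤ q(1, s a + Y)² = q(1, Y)²`.
(ii) If `ρ(ξ) ρ(η) ≠ 0`, `a = ξξ`, `b = ηη`, `λ = ρ(ξ)/ρ(η)`: `q(1, a - λ b) = 0`, so
`0 ≥ q(a - λ b, a - λ b) = -2 λ q(a, b)`.
(iii) `∑_i ρ(e_i) = κ > 0`, so some `ξ` has `ρ(ξ) > 0`.  Suppose some `η` has `ρ(η) < 0`.  Put
`a = ξξ`, `b = ηη`, `c = ξη + ηξ`.  `ρ(ξ + s η) = ρ(ξ) + s q(1, c) + s² ρ(η)` is a quadratic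
polynomial in `s` with positive value at `0` and negative leading coefficient, so it has roots
`s₁ < 0 < s₂`; `n_i = (ξ + s_i η)(ξ + s_i η) = a + s_i c + s_i² b` are radical by (i) (i.e.
`q(n_i, Y) = 0` for symmetric `Y`).  So `c ≡ - (s₁ + s₂) b` and `a ≡ s₁ s₂ b` modulo the radical.
Now let `θ` be arbitrary: if `ρ(θ) = 0`, `θθ` is radical by (i). If `ρ(θ) > 0` the same argument
with `(θ, η)` gives `θθ ≡ μ b`; if `ρ(θ) < 0` the argument with `(ξ, θ)` gives `a ≡ μ θθ`, `μ ≠ 0`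
(`μ = s₁ s₂`), so `θθ ≡ μ⁻¹ a ≡ μ' b`.  So `1 = ∑ e_i e_i ≡ μ b` for some `μ`, and
`κ = q(1, 1) = μ² q(b, b) = 0`, contradiction.
-/

open Finset

namespace Pool.Agent.H88S

open Pool.Agent.H69Hopf

variable {N : ℕ}

private theorem PSD_rad {Q : Arr N} (hQ1 : ∀ i j k l, Q i j k l = - Q i j l k)
    (hQ2 : ∀ i j k l, Q i j k l = Q j i l k)
    (hL : ∀ Y : Mat N, Y.IsSymm → act Q 1 1 * act Q Y Y ≤ act Q 1 Y ^ 2)
    (hκ : 0 < act Q 1 1) (x : Fin N → ℝ)
    (hx : act Q 1 (Matrix.vecMulVec x x) = 0) (Y : Mat N) (hY : Y.IsSymm) :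
    act Q (Matrix.vecMulVec x x) Y = 0 := by
  have hPs : (Matrix.vecMulVec x x).IsSymm := by
    ext i j
    simp [Matrix.transpose_apply, Matrix.vecMulVec_apply, mul_comm]
  have key : ∀ s : ℝ, act Q 1 1 * (2 * s * act Q (Matrix.vecMulVec x x) Y + act Q Y Y) ≤
      act Q 1 Y ^ 2 := by
    intro s
    have h := hL (s • Matrix.vecMulVec x x + Y) ((hPs.smul s).add hY)
    have e1 : act Q (s • Matrix.vecMulVec x x + Y) (s • Matrix.vecMulVec x x + Y) =
        2 * s * act Q (Matrix.vecMulVec x x) Y + act Q Y Y := by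
      rw [act_add_left, act_add_right, act_add_right, act_smul_left, act_smul_right, act_smul_left,
        act_smul_right, act_vecMulVec_self hQ1, act_comm hQ2 Y]
      ring
    have e2 : act Q 1 (s • Matrix.vecMulVec x x + Y) = act Q 1 Y := by
      rw [act_add_right, act_smul_right, hx]
      ring
    rwa [e1, e2] at h
  by_contra hne
  set t := act Q (Matrix.vecMulVec x x) Y with ht
  have h := key ((act Q 1 Y ^ 2 + 1 - act Q 1 1 * act Q Y Y) / (2 * act Q 1 1 * t))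
  have h2 : act Q 1 1 * (2 * ((act Q 1 Y ^ 2 + 1 - act Q 1 1 * act Q Y Y) /
      (2 * act Q 1 1 * t)) * t + act Q Y Y) = act Q 1 Y ^ 2 + 1 := by
    have := hκ.ne'
    field_simp
    ring
  rw [h2] at h
  linarith

private theorem PSD_pair {Q : Arr N} (hQ1 : ∀ i j k l, Q i j k l = - Q i j l k)
    (hQ2 : ∀ i j k l, Q i j k l = Q j i l k)
    (hL : ∀ Y : Mat N, Y.IsSymm → act Q 1 1 * act Q Y Y ≤ act Q 1 Y ^ 2)
    (hκ : 0 < act Q 1 1) (x y : Fin N → ℝ)
    (hx : 0 < act Q 1 (Matrix.vecMulVec x x)) (hy : act Q 1 (Matrix.vecMulVec y y) < 0) :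
    ∃ μ : ℝ, μ ≠ 0 ∧ ∀ Y : Mat N, Y.IsSymm →
      act Q (Matrix.vecMulVec x x) Y = μ * act Q (Matrix.vecMulVec y y) Y := by
  set A := act Q 1 (Matrix.vecMulVec x x) with hA
  set C := act Q 1 (Matrix.vecMulVec y y) with hC
  set c : Mat N := Matrix.vecMulVec x y + Matrix.vecMulVec y x with hc
  set B := act Q 1 c with hB
  have hexp : ∀ s : ℝ, Matrix.vecMulVec (x + s • y) (x + s • y) =
      Matrix.vecMulVec x x + (s • c + s ^ 2 • Matrix.vecMulVec y y) := by
    intro s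
    ext i j
    simp only [hc, Matrix.vecMulVec_apply, Matrix.add_apply, Matrix.smul_apply, Pi.add_apply,
      Pi.smul_apply, smul_eq_mul]
    ring
  have hD : 0 < B ^ 2 - 4 * A * C := by nlinarith [sq_nonneg B, mul_neg_of_pos_of_neg hx hy]
  set r := Real.sqrt (B ^ 2 - 4 * A * C) with hr
  have hr0 : 0 < r := Real.sqrt_pos.mpr hD
  have hr2 : r ^ 2 = B ^ 2 - 4 * A * C := Real.sq_sqrt hD.le
  have hroot : ∀ s : ℝ, A + s * B + s ^ 2 * C = 0 → ∀ Y : Mat N, Y.IsSymm →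
      act Q (Matrix.vecMulVec x x) Y + s * act Q c Y + s ^ 2 * act Q (Matrix.vecMulVec y y) Y
        = 0 := by
    intro s hs Y hY
    have h0 : act Q 1 (Matrix.vecMulVec (x + s • y) (x + s • y)) = 0 := by
      rw [hexp, act_add_right, act_add_right, act_smul_right, act_smul_right]
      linarith
    have h1 := PSD_rad hQ1 hQ2 hL hκ (x + s • y) h0 Y hY
    rw [hexp, act_add_left, act_add_left, act_smul_left, act_smul_left] at h1
    linarith
  have hC' : C ≠ 0 := hy.ne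
  refine ⟨A / C, div_ne_zero hx.ne' hC', ?_⟩
  intro Y hY
  have h1 := hroot ((-B + r) / (2 * C)) (by field_simp; nlinarith) Y hY
  have h2 := hroot ((-B - r) / (2 * C)) (by field_simp; nlinarith) Y hY
  set a := act Q (Matrix.vecMulVec x x) Y
  set d := act Q c Y
  set b := act Q (Matrix.vecMulVec y y) Y
  have h3 : ((-B + r) / (2 * C)) * ((-B - r) / (2 * C)) = A / C := by
    field_simp
    nlinarith
  have h4 : ((-B + r) / (2 * C)) - ((-B - r) / (2 * C)) ≠ 0 := by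
    have : ((-B + r) / (2 * C)) - ((-B - r) / (2 * C)) = r / C := by
      field_simp
      ring
    rw [this]
    exact div_ne_zero hr0.ne' hC'
  set s₁ := (-B + r) / (2 * C)
  set s₂ := (-B - r) / (2 * C)
  have h5 : (s₁ - s₂) * (a - s₁ * s₂ * b) = 0 := by
    linear_combination s₁ * h2 - s₂ * h1
  rcases mul_eq_zero.mp h5 with h6 | h6
  · exact absurd h6 h4
  · rw [← h3]
    linarith

theorem psd_of_lorentz {Q : Arr N} (hQ1 : ∀ i j k l, Q i j k l = - Q i j l k)
    (hQ2 : ∀ i j k l, Q i j k l = Q j i l k) (hκ : 0 < act Q 1 1)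
    (hL : ∀ Y : Mat N, Y.IsSymm → act Q 1 1 * act Q Y Y ≤ act Q 1 Y ^ 2) (x : Fin N → ℝ) :
    0 ≤ act Q 1 (Matrix.vecMulVec x x) := by
  classical
  by_contra hx
  push Not at hx
  -- the identity is a sum of squares
  have hone : (1 : Mat N) = ∑ i, Matrix.vecMulVec (Pi.single i 1 : Fin N → ℝ) (Pi.single i 1) := by
    ext a b
    rw [Matrix.sum_apply]
    simp only [Matrix.vecMulVec_apply, Matrix.one_apply, Pi.single_apply]
    rw [Finset.sum_eq_single a]
    · by_cases hab : a = b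
      · simp [hab]
      · simp [hab, Ne.symm hab]
    · intro i _ hi
      simp [Ne.symm hi]
    · simp
  have hsumL : ∀ (f : Fin N → Mat N) (Y : Mat N), act Q (∑ i, f i) Y = ∑ i, act Q (f i) Y := by
    intro f Y
    have : ∀ s : Finset (Fin N), act Q (∑ i ∈ s, f i) Y = ∑ i ∈ s, act Q (f i) Y := by
      intro s
      induction s using Finset.induction_on with
      | empty =>
        have := act_smul_left Q 0 (0 : Mat N) Y
        simpa using this
      | insert a s ha ih => rw [sum_insert ha, sum_insert ha, act_add_left, ih]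
    exact this univ
  -- a positive vector
  have hpos : ∃ i : Fin N, 0 < act Q 1 (Matrix.vecMulVec (Pi.single i 1 : Fin N → ℝ)
      (Pi.single i 1)) := by
    by_contra hcon
    push Not at hcon
    have h1 : act Q 1 1 = ∑ i, act Q (Matrix.vecMulVec (Pi.single i 1 : Fin N → ℝ)
        (Pi.single i 1)) 1 := by
      conv_lhs => rw [hone]
      rw [← hone]
      conv_lhs => rw [hone]
      rw [hsumL]
      rw [← hone]
    have h2 : act Q 1 1 ≤ 0 := by
      rw [h1]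
      refine Finset.sum_nonpos fun i _ => ?_
      rw [act_comm hQ2]
      exact hcon i
    linarith
  obtain ⟨i₀, hi₀⟩ := hpos
  -- every square is congruent to a multiple of `b`
  have hall : ∀ θ : Fin N → ℝ, ∃ μ : ℝ, ∀ Y : Mat N, Y.IsSymm →
      act Q (Matrix.vecMulVec θ θ) Y = μ * act Q (Matrix.vecMulVec x x) Y := by
    intro θ
    rcases lt_trichotomy (act Q 1 (Matrix.vecMulVec θ θ)) 0 with h | h | h
    · obtain ⟨μ, hμ, h1⟩ := PSD_pair hQ1 hQ2 hL hκ (Pi.single i₀ 1) θ hi₀ h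
      obtain ⟨ν, hν, h2⟩ := PSD_pair hQ1 hQ2 hL hκ (Pi.single i₀ 1) x hi₀ hx
      refine ⟨ν / μ, fun Y hY => ?_⟩
      have e1 := h1 Y hY
      have e2 := h2 Y hY
      rw [e2] at e1
      field_simp
      linarith
    · exact ⟨0, fun Y hY => by rw [PSD_rad hQ1 hQ2 hL hκ θ h Y hY, zero_mul]⟩
    · obtain ⟨μ, _, h1⟩ := PSD_pair hQ1 hQ2 hL hκ θ x h hx
      exact ⟨μ, h1⟩
  choose μ hμ using fun i : Fin N => hall (Pi.single i 1)
  have hcong : ∀ Y : Mat N, Y.IsSymm → act Q 1 Y = (∑ i, μ i) * act Q (Matrix.vecMulVec x x) Y := by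
    intro Y hY
    conv_lhs => rw [hone]
    rw [hsumL, sum_mul]
    exact sum_congr rfl fun i _ => hμ i Y hY
  have hPs : (Matrix.vecMulVec x x).IsSymm := by
    ext i j
    simp [Matrix.transpose_apply, Matrix.vecMulVec_apply, mul_comm]
  have h1 := hcong 1 Matrix.isSymm_one
  have h2 := hcong (Matrix.vecMulVec x x) hPs
  rw [act_vecMulVec_self hQ1, mul_zero] at h2
  rw [act_comm hQ2 (Matrix.vecMulVec x x) 1, h2, mul_zero] at h1
  linarith

end Pool.Agent.H88S
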