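import Pool.Agent.Lib.H88S.Kn
import Pool.Agent.Lib.H88S.Psd
import Pool.Agent.Lib.H88S.Decomp

/-!
# H88S chunk SECOND: nonpositive curvature operator of the second kind implies `SphereNonpos`

* `sphereNonpos_secondKind`.
  Assume first `c := act R 1 1 < 0`.  Apply `exists_decomp` and `psd_of_lorentz` to `Q = - R`
  (`Q i j k l = - R i j k l`).  The Lorentz condition is
  `c * act R Y Y ≤ (act R 1 Y) ^ 2`: put `Y' = Y - (act R 1 Y / c) • 1`, so `act R 1 Y' = 0`,
  and `Z = Y' - (trace Y' / N) • 1` is traceless, `0 ≤ act R Z Z = act R Y' Y' + (trace Y' / N)² c`,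
  so `act R Y' Y' ≥ 0`; and `act R Y' Y' = act R Y Y - (act R 1 Y)² / c`.
  This gives `L`, `D` with `act R Y Z = - ip L Y ip L Z + ∑_j ip (D j) Y ip (D j) Z`, `L` positive
  semidefinite (`ip L (vecMulVec x x) = bilin L x x`), and `∑_j bilin (D j) x x ^ 2 = bilin L x x ^ 2`
  because `act R (vecMulVec x x) (vecMulVec x x) = 0`.  Then `SphereNonpos R` is `pairing`.
  In general `act R 1 1 = ∑ R i j i j ≤ 0`, since `Y = E_ii - E_jj` is traceless with
  `act R Y Y = - 2 R i j i j`.  Apply the first case to `R - ε • kn 1`, `ε > 0`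
  (`act (kn 1) Y Y = (trace Y)² - ∑ Y i j ^ 2` for symmetric `Y`, `act (kn 1) 1 1 = N² - N`), `N ≥ 2`,
  and let `ε → 0` (`act` is linear in `R`).  For `N ≤ 1`, `R = 0` by skewness.
* `sphereNonpos_secondKind_h`: from the former applied to `R + h • kn 1`.
-/


open Finset Filter Topology

namespace Pool.Agent.H88S

open Pool.Agent.H69Hopf

variable {N : ℕ}

theorem SECOND_skew2 {R : Arr N} (hR : IsAlgCurv R) (i j k l : Fin N) :
    R i j k l = - R i j l k := by
  rw [hR.pair i j k l, hR.skew k l i j, hR.pair l k i j]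

theorem SECOND_flip {R : Arr N} (hR : IsAlgCurv R) (i j k l : Fin N) :
    R i j k l = R j i l k := by
  rw [SECOND_skew2 hR i j k l, hR.skew i j l k, neg_neg]

theorem SECOND_act_neg (R : Arr N) (A B : Mat N) : act (-R) A B = - act R A B := by
  have h := act_smul (-1) R A B
  rw [neg_one_smul, neg_one_mul] at h
  exact h

theorem SECOND_kn_algCurv : IsAlgCurv (kn (1 : Mat N)) := by
  refine ⟨?_, ?_, ?_⟩
  · intro i j k l
    unfold kn
    ring
  · intro i j k l
    unfold kn
    simp only [Matrix.one_apply, eq_comm]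
    ring
  · intro i j k l
    unfold kn
    simp only [Matrix.one_apply, eq_comm (a := k) (b := i), eq_comm (a := k) (b := j),
      eq_comm (a := j) (b := i)]
    ring

theorem SECOND_algCurv_add {R Q : Arr N} (hR : IsAlgCurv R) (hQ : IsAlgCurv Q) :
    IsAlgCurv (R + Q) := by
  refine ⟨?_, ?_, ?_⟩
  · intro i j k l
    show R i j k l + Q i j k l = -(R j i k l + Q j i k l)
    rw [hR.skew i j k l, hQ.skew i j k l]
    ring
  · intro i j k l
    show R i j k l + Q i j k l = R k l i j + Q k l i j
    rw [hR.pair i j k l, hQ.pair i j k l]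
  · intro i j k l
    show R i j k l + Q i j k l + (R j k i l + Q j k i l) + (R k i j l + Q k i j l) = 0
    have h1 := hR.bianchi i j k l
    have h2 := hQ.bianchi i j k l
    linarith

theorem SECOND_algCurv_smul {R : Arr N} (hR : IsAlgCurv R) (s : ℝ) : IsAlgCurv (s • R) := by
  refine ⟨?_, ?_, ?_⟩
  · intro i j k l
    show s * R i j k l = -(s * R j i k l)
    rw [hR.skew i j k l]
    ring
  · intro i j k l
    show s * R i j k l = s * R k l i j
    rw [hR.pair i j k l]
  · intro i j k l
    show s * R i j k l + s * R j k i l + s * R k i j l = 0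
    have h1 := hR.bianchi i j k l
    linear_combination s * h1

theorem SECOND_lorentz {R : Arr N} (hR : IsAlgCurv R)
    (h : ∀ Y : Mat N, Y.IsSymm → Y.trace = 0 → 0 ≤ act R Y Y) (hc : act R 1 1 < 0)
    (Y : Mat N) (hY : Y.IsSymm) : act R 1 1 * act R Y Y ≤ act R 1 Y ^ 2 := by
  have hN : (N : ℝ) ≠ 0 := by
    intro hN0
    have hN0' : N = 0 := by exact_mod_cast hN0
    subst hN0'
    unfold act at hc
    simp at hc
  have hcomm : ∀ A B : Mat N, act R A B = act R B A := act_comm (SECOND_flip hR)
  set c := act R 1 1 with hcdef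
  set b := act R 1 Y with hb
  set a := b / c with ha
  have hac : a * c = b := by
    rw [ha]
    exact div_mul_cancel₀ b hc.ne
  set τ := (Y.trace - a * N) / N with hτ
  -- `Z = Y - (a + τ) • 1`
  have hZ : 0 ≤ act R (Y + (-(a + τ)) • (1 : Mat N)) (Y + (-(a + τ)) • (1 : Mat N)) := by
    refine h _ ?_ ?_
    · exact hY.add (Matrix.isSymm_one.smul _)
    · rw [Matrix.trace_add, Matrix.trace_smul, Matrix.trace_one, Fintype.card_fin, smul_eq_mul, hτ]
      field_simp
      ring
  rw [act_add_left, act_add_right, act_add_right, act_smul_left, act_smul_right, act_smul_left,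
    act_smul_right, hcomm Y 1, ← hb, ← hcdef] at hZ
  -- `act Y Y ≥ 2 (a+τ) b - (a+τ)² c = a² c - τ² c`
  have h1 : a ^ 2 * c - τ ^ 2 * c ≤ act R Y Y := by
    rw [← hac] at hZ
    nlinarith [hZ]
  have h2 : a ^ 2 * c ≤ act R Y Y := by nlinarith [sq_nonneg τ]
  have h3 : c * act R Y Y ≤ c * (a ^ 2 * c) := mul_le_mul_of_nonpos_left h2 hc.le
  calc c * act R Y Y ≤ c * (a ^ 2 * c) := h3
    _ = b ^ 2 := by rw [← hac]; ring

theorem SECOND_neg {R : Arr N} (hR : IsAlgCurv R)
    (h : ∀ Y : Mat N, Y.IsSymm → Y.trace = 0 → 0 ≤ act R Y Y) (hc : act R 1 1 < 0) :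
    SphereNonpos R := by
  have hQ1 : ∀ i j k l, (-R) i j k l = - (-R) i j l k := by
    intro i j k l
    show - R i j k l = - - R i j l k
    rw [SECOND_skew2 hR i j k l]
  have hQ2 : ∀ i j k l, (-R) i j k l = (-R) j i l k := by
    intro i j k l
    show - R i j k l = - R j i l k
    rw [SECOND_flip hR i j k l]
  have hκ : 0 < act (-R) 1 1 := by
    rw [SECOND_act_neg]
    linarith
  have hL : ∀ Y : Mat N, Y.IsSymm → act (-R) 1 1 * act (-R) Y Y ≤ act (-R) 1 Y ^ 2 := by
    intro Y hY
    rw [SECOND_act_neg, SECOND_act_neg, SECOND_act_neg]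
    have := SECOND_lorentz hR h hc Y hY
    nlinarith [this]
  obtain ⟨q, L, D, hLs, hDs, hLip, hdec⟩ := exists_decomp hQ2 hκ hL
  have hvs : ∀ x : Fin N → ℝ, (Matrix.vecMulVec x x).IsSymm := by
    intro x
    ext i j
    simp only [Matrix.transpose_apply, Matrix.vecMulVec_apply]
    ring
  have hL0 : ∀ x, 0 ≤ bilin L x x := by
    intro x
    rw [← ip_vecMulVec, hLip _ (hvs x)]
    exact div_nonneg (psd_of_lorentz hQ1 hQ2 hκ hL x) (Real.sqrt_nonneg _)
  have hD : ∀ x : Fin N → ℝ, ∑ j, bilin (D j) x x ^ 2 ≤ bilin L x x ^ 2 := by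
    intro x
    have h1 := hdec _ _ (hvs x) (hvs x)
    rw [act_vecMulVec_self hQ1 x] at h1
    simp only [ip_vecMulVec] at h1
    have h2 : ∑ j, bilin (D j) x x ^ 2 = ∑ j, bilin (D j) x x * bilin (D j) x x :=
      sum_congr rfl fun j _ => by ring
    rw [h2]
    nlinarith [h1]
  intro p S B hSB
  obtain ⟨hS, hS0, hBs, hB⟩ := hSB
  have hact : ∀ Y : Mat N, Y.IsSymm → act R Y Y = ∑ j, ip (D j) Y ^ 2 - ip L Y ^ 2 := by
    intro Y hY
    have h1 := hdec Y Y hY hY
    rw [SECOND_act_neg] at h1
    have h2 : ∑ j, ip (D j) Y ^ 2 = ∑ j, ip (D j) Y * ip (D j) Y :=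
      sum_congr rfl fun j _ => by ring
    rw [h2]
    nlinarith [h1]
  have hpair := pairing hS hS0 hLs hL0 hBs hDs (fun x => (hB x).le) hD
  rw [hact S hS, sum_congr rfl fun k _ => hact (B k) (hBs k), sum_sub_distrib]
  have e1 : ∑ k, ip L (B k) ^ 2 = ∑ k, ip (B k) L ^ 2 :=
    sum_congr rfl fun k _ => by rw [ip_comm]
  have e2 : ip L S = ip S L := ip_comm _ _
  have e3 : ∑ k, ∑ j, ip (D j) (B k) ^ 2 = ∑ k, ∑ j, ip (B k) (D j) ^ 2 :=
    sum_congr rfl fun k _ => sum_congr rfl fun j _ => by rw [ip_comm]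
  rw [e1, e2, e3]
  linarith

theorem SECOND_act_diag (R : Arr N) (d : Fin N → ℝ) :
    act R (Matrix.diagonal d) (Matrix.diagonal d) = ∑ i, ∑ j, R i j i j * d i * d j := by
  unfold act
  refine sum_congr rfl fun i _ => sum_congr rfl fun j _ => ?_
  rw [sum_eq_single i, sum_eq_single j]
  · simp
  · intro l _ hl
    rw [Matrix.diagonal_apply_ne' _ hl]
    simp
  · simp
  · intro k _ hk
    refine sum_eq_zero fun l _ => ?_
    rw [Matrix.diagonal_apply_ne' _ hk]
    simp
  · simp

theorem SECOND_sec_nonpos {R : Arr N} (hR : IsAlgCurv R)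
    (h : ∀ Y : Mat N, Y.IsSymm → Y.trace = 0 → 0 ≤ act R Y Y) (i j : Fin N) :
    R i j i j ≤ 0 := by
  classical
  by_cases hij : i = j
  · subst hij
    have := hR.skew i i i i
    linarith
  · set d : Fin N → ℝ := Pi.single i 1 - Pi.single j 1 with hd
    have h0 := h (Matrix.diagonal d) (Matrix.isSymm_diagonal d) (by
      rw [Matrix.trace_diagonal, hd]
      simp [Finset.sum_sub_distrib])
    rw [SECOND_act_diag] at h0
    have hdi : d i = 1 := by
      rw [hd]
      simp [hij]
    have hdj : d j = -1 := by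
      rw [hd]
      simp [Ne.symm hij]
    have hdk : ∀ k, k ≠ i → k ≠ j → d k = 0 := by
      intro k hki hkj
      rw [hd]
      simp [hki, hkj]
    have hrow : ∀ a, ∑ b, R a b a b * d a * d b = R a i a i * d a - R a j a j * d a := by
      intro a
      have hsub : ∑ b, R a b a b * d a * d b = ∑ b ∈ ({i, j} : Finset (Fin N)), R a b a b * d a * d b := by
        symm
        refine sum_subset (subset_univ _) fun b _ hb => ?_
        have hb' : b ≠ i ∧ b ≠ j := by
          simpa [not_or] using hb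
        rw [hdk b hb'.1 hb'.2, mul_zero]
      rw [hsub, sum_pair hij, hdi, hdj]
      ring
    have htot : ∑ a, ∑ b, R a b a b * d a * d b = (R i i i i - R i j i j) - (R j i j i - R j j j j) := by
      simp_rw [hrow]
      have hsub : ∑ a, (R a i a i * d a - R a j a j * d a) =
          ∑ a ∈ ({i, j} : Finset (Fin N)), (R a i a i * d a - R a j a j * d a) := by
        symm
        refine sum_subset (subset_univ _) fun b _ hb => ?_
        have hb' : b ≠ i ∧ b ≠ j := by
          simpa [not_or] using hb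
        rw [hdk b hb'.1 hb'.2]
        ring
      rw [hsub, sum_pair hij, hdi, hdj]
      ring
    rw [htot] at h0
    have e1 : R i i i i = 0 := by
      have := hR.skew i i i i
      linarith
    have e2 : R j j j j = 0 := by
      have := hR.skew j j j j
      linarith
    have e3 : R j i j i = R i j i j := SECOND_flip hR j i j i
    rw [e1, e2, e3] at h0
    linarith

theorem sphereNonpos_secondKind {R : Arr N} (hR : IsAlgCurv R)
    (h : ∀ Y : Mat N, Y.IsSymm → Y.trace = 0 → 0 ≤ act R Y Y) : SphereNonpos R := by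
  rcases Nat.lt_or_ge N 2 with hN | hN
  · -- `R = 0`
    have hz : R = 0 := by
      funext i j k l
      have hij : i = j := by
        apply Fin.ext
        have := i.2
        have := j.2
        omega
      subst hij
      have h1 := hR.skew i i k l
      show R i i k l = 0
      linarith
    subst hz
    intro p S B _
    unfold act
    simp
  · have hone : act (kn (1 : Mat N)) 1 1 = (N : ℝ) ^ 2 - N := by
      rw [act_kn_one Matrix.isSymm_one, Matrix.trace_one, Fintype.card_fin]
      congr 1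
      have : ∀ i : Fin N, ∑ j, (1 : Mat N) i j ^ 2 = 1 := by
        intro i
        rw [sum_eq_single i]
        · simp
        · intro j _ hj
          rw [Matrix.one_apply_ne' hj]
          simp
        · simp
      rw [sum_congr rfl fun i _ => this i]
      simp
    have h11 : act R 1 1 ≤ 0 := by
      rw [← Matrix.diagonal_one, SECOND_act_diag]
      refine sum_nonpos fun i _ => sum_nonpos fun j _ => ?_
      simpa using SECOND_sec_nonpos hR h i j
    intro p S B hSB
    have hN' : (0 : ℝ) < (N : ℝ) ^ 2 - N := by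
      have : (2 : ℝ) ≤ N := by exact_mod_cast hN
      nlinarith
    have key : ∀ ε : ℝ, 0 < ε → act R S S - ε * act (kn (1 : Mat N)) S S ≤
        ∑ k, act R (B k) (B k) - ε * ∑ k, act (kn (1 : Mat N)) (B k) (B k) := by
      intro ε hε
      have hact : ∀ Y : Mat N, act (R + (-ε) • kn (1 : Mat N)) Y Y =
          act R Y Y - ε * act (kn (1 : Mat N)) Y Y := by
        intro Y
        rw [act_add, act_smul]
        ring
      have hcurv : IsAlgCurv (R + (-ε) • kn (1 : Mat N)) :=
        SECOND_algCurv_add hR (SECOND_algCurv_smul SECOND_kn_algCurv _)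
      have hs := SECOND_neg hcurv (by
        intro Y hY hY0
        rw [hact, act_kn_one hY, hY0]
        have h1 := h Y hY hY0
        have h2 : 0 ≤ ∑ i, ∑ j, Y i j ^ 2 :=
          sum_nonneg fun i _ => sum_nonneg fun j _ => sq_nonneg _
        nlinarith [mul_nonneg hε.le h2]) (by
        rw [hact, hone]
        nlinarith [mul_pos hε hN'])
      have h3 := hs p S B hSB
      simp only [hact] at h3
      rw [sum_sub_distrib, ← mul_sum] at h3
      exact h3
    -- let `ε → 0`
    have hl : Tendsto (fun ε : ℝ => act R S S - ε * act (kn (1 : Mat N)) S S) (𝓝[>] 0)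
        (𝓝 (act R S S - 0 * act (kn (1 : Mat N)) S S)) := by
      refine tendsto_nhdsWithin_of_tendsto_nhds ?_
      exact (Continuous.tendsto (by fun_prop) _)
    have hr : Tendsto (fun ε : ℝ => ∑ k, act R (B k) (B k) -
        ε * ∑ k, act (kn (1 : Mat N)) (B k) (B k)) (𝓝[>] 0)
        (𝓝 (∑ k, act R (B k) (B k) - 0 * ∑ k, act (kn (1 : Mat N)) (B k) (B k))) := by
      refine tendsto_nhdsWithin_of_tendsto_nhds ?_
      exact (Continuous.tendsto (by fun_prop) _)
    have hfin := le_of_tendsto_of_tendsto hl hr (by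
      filter_upwards [self_mem_nhdsWithin] with ε hε
      exact key ε hε)
    simpa using hfin

theorem sphereNonpos_secondKind_h {R : Arr N} (hR : IsAlgCurv R) (h : ℝ)
    (hY : ∀ Y : Mat N, Y.IsSymm → Y.trace = 0 → h * ∑ i, ∑ j, Y i j ^ 2 ≤ act R Y Y) :
    SphereNonpos (R + h • kn (1 : Mat N)) := by
  refine sphereNonpos_secondKind
    (SECOND_algCurv_add hR (SECOND_algCurv_smul SECOND_kn_algCurv h)) ?_
  intro Y hYs hY0
  rw [act_add, act_smul, act_kn_one hYs, hY0]
  have := hY Y hYs hY0
  linarith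

end Pool.Agent.H88S
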