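import Pool.Agent.Lib.H88S.Ops

/-!
# H88S chunk GB: the Gauss–Bonnet integrand as a derivative of the determinant

`ev0 ((dR R) ^ n detP) = gaussBonnet n R` for every array `R`.

Proof.  Expand the power of the sum: the left side is the sum over all `i, j, k, l : Fin n → Fin N`
(`N = 2 n`) of `∏ a, R (i a) (j a) (k a) (l a)` times
`ev0 ((∏ a, dd (i a) (k a) * dd (j a) (l a)) detP)`.
This last number is `0` if the `2 n` indices `i a`, `j a` are not distinct, and otherwise it is the
determinant of the matrix whose row `i a` is `e_{k a}` and whose row `j a` is `e_{l a}`, i.e.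
`sign σ * sign τ` if `σ = (i, j)` and `τ = (k, l)` are permutations
(`σ (fst a) = i a`, `σ (snd a) = j a`), and `0` if `τ` is not a permutation.
(See the files `Pool/Agent/Lib/H69/Hopf/Alt.lean`, `Rec.lean` for the bookkeeping
with `fst`, `snd`.)
Suggested organisation: first show by induction on `m` that
`((dR R) ^ m G) c = ∑` over `p : Fin m → Fin N × Fin N × Fin N × Fin N` ..., or rewrite
`(dR R) ^ n` with `Finset.sum_pow`-like lemmas in the commutative ring; or show more generally for a
list of arrays `∏ dR (R a)`.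
-/

open Finset Filter Topology Equiv

namespace Pool.Agent.H88S

open Pool.Agent.H69Hopf

variable {N : ℕ}

/-- Apply the partial derivatives `w 0`, `w 1`, ... in this order. -/
def gbApp : (m : ℕ) → (Fin m → Fin N × Fin N) → PP N → PP N
  | 0, _, G => G
  | m + 1, w, G => gbApp m (Fin.tail w) (dd (w 0).1 (w 0).2 G)

/-- The index reached from `c`. -/
def gbUpd : (m : ℕ) → (Fin m → Fin N × Fin N) → Idx N → Idx N
  | 0, _, c => c
  | m + 1, w, c => Function.update (gbUpd m (Fin.tail w) c) (w 0).1 (some (w 0).2)

/-- No row is met twice. -/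
def gbGood : (m : ℕ) → (Fin m → Fin N × Fin N) → Idx N → Prop
  | 0, _, _ => True
  | m + 1, w, c => gbGood m (Fin.tail w) c ∧ gbUpd m (Fin.tail w) c (w 0).1 = none

open Classical in
theorem gbApp_eq (m : ℕ) : ∀ (w : Fin m → Fin N × Fin N) (G : PP N) (c : Idx N),
    gbApp m w G c = if gbGood m w c then G (gbUpd m w c) else 0 := by
  induction m with
  | zero => intro w G c; simp [gbApp, gbGood, gbUpd]
  | succ m ih =>
    intro w G c
    rw [gbApp, ih, dd_apply]
    simp only [gbGood, gbUpd]
    by_cases h1 : gbGood m (Fin.tail w) c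
    · by_cases h2 : gbUpd m (Fin.tail w) c (w 0).1 = none
      · simp [h1, h2]
      · simp [h1, h2]
    · simp [h1]

theorem gbUpd_none (m : ℕ) : ∀ (w : Fin m → Fin N × Fin N) (i : Fin N),
    (∀ r, (w r).1 ≠ i) → gbUpd m w none0 i = none := by
  induction m with
  | zero => intro w i _; rfl
  | succ m ih =>
    intro w i h
    rw [gbUpd, Function.update_of_ne (h 0).symm]
    exact ih _ i fun r => h r.succ

theorem gbUpd_some (m : ℕ) : ∀ (w : Fin m → Fin N × Fin N),
    Function.Injective (fun r => (w r).1) → ∀ r, gbUpd m w none0 (w r).1 = some (w r).2 := by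
  induction m with
  | zero => intro w _ r; exact r.elim0
  | succ m ih =>
    intro w h r
    rw [gbUpd]
    refine Fin.cases ?_ (fun r => ?_) r
    · rw [Function.update_self]
    · have hne : (w r.succ).1 ≠ (w 0).1 := by
        intro h1
        exact Fin.succ_ne_zero r (h h1)
      rw [Function.update_of_ne hne]
      exact ih (Fin.tail w) (fun a b hab => Fin.succ_injective _ (h hab)) r

theorem gbGood_iff (m : ℕ) : ∀ (w : Fin m → Fin N × Fin N),
    gbGood m w none0 ↔ Function.Injective (fun r => (w r).1) := by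
  induction m with
  | zero =>
    intro w
    simp only [gbGood, true_iff]
    intro a
    exact a.elim0
  | succ m ih =>
    intro w
    rw [gbGood, ih]
    constructor
    · rintro ⟨h1, h2⟩ a b hab
      have key : ∀ r : Fin m, (w r.succ).1 ≠ (w 0).1 := by
        intro r hr
        have h3 := gbUpd_some m (Fin.tail w) h1 r
        change gbUpd m (Fin.tail w) none0 (w r.succ).1 = _ at h3
        rw [hr, h2] at h3
        cases h3
      revert hab
      refine Fin.cases ?_ (fun a => ?_) a <;> refine Fin.cases ?_ (fun b => ?_) b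
      · intro _; rfl
      · intro hab; exact absurd hab.symm (key b)
      · intro hab; exact absurd hab (key a)
      · intro hab
        exact congrArg Fin.succ (h1 hab)
    · intro h
      refine ⟨fun a b hab => Fin.succ_injective _ (h hab), ?_⟩
      refine gbUpd_none m _ _ fun r hr => ?_
      exact Fin.succ_ne_zero r (h hr)

open Classical in
theorem gb_ev0_app (w : Fin N → Fin N × Fin N) :
    ev0 (gbApp N w detP) = ∑ σ : Perm (Fin N), ∑ τ : Perm (Fin N),
      if w = (fun j => (σ j, τ j)) then
        ((Perm.sign σ : ℤ) : ℝ) * ((Perm.sign τ : ℤ) : ℝ) else 0 := by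
  unfold ev0
  rw [gbApp_eq, gbGood_iff]
  by_cases h : Function.Injective (fun r => (w r).1)
  · rw [if_pos h]
    have hbij : Function.Bijective (fun r => (w r).1) := Finite.injective_iff_bijective.mp h
    set σ0 : Perm (Fin N) := Equiv.ofBijective _ hbij with hσ0
    have hσ : ∀ r, σ0 r = (w r).1 := fun r => rfl
    have hupd : ∀ r, gbUpd N w none0 (σ0 r) = some (w r).2 := gbUpd_some N w h
    set M : Matrix (Fin N) (Fin N) ℝ := Matrix.of fun i => match gbUpd N w none0 i with
      | none => (0 : Mat N) i
      | some j => Pi.single j 1 with hM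
    have hdet : detP (gbUpd N w none0) = M.det := rfl
    have hsub : M.submatrix σ0 id = Matrix.of fun r => (Pi.single (w r).2 1 : Fin N → ℝ) := by
      ext r c
      simp only [hM, Matrix.submatrix_apply, Matrix.of_apply, hupd, id]
    have hperm := Matrix.det_permute σ0 M
    rw [hsub] at hperm
    have hMdet : M.det = ((Perm.sign σ0 : ℤ) : ℝ) *
        (Matrix.of fun r => (Pi.single (w r).2 1 : Fin N → ℝ)).det := by
      rw [hperm, ← mul_assoc]
      rcases Int.units_eq_one_or (Perm.sign σ0) with h1 | h1 <;> rw [h1] <;> simp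
    rw [hdet, hMdet]
    by_cases ht : Function.Injective (fun r => (w r).2)
    · have htb : Function.Bijective (fun r => (w r).2) := Finite.injective_iff_bijective.mp ht
      set τ0 : Perm (Fin N) := Equiv.ofBijective _ htb with hτ0
      have hτ : ∀ r, τ0 r = (w r).2 := fun r => rfl
      have h1 : (Matrix.of fun r => (Pi.single (w r).2 1 : Fin N → ℝ)) =
          (1 : Matrix (Fin N) (Fin N) ℝ).submatrix τ0 id := by
        ext r c
        rw [Matrix.submatrix_apply, Matrix.of_apply, Matrix.one_apply, Pi.single_apply, hτ]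
        simp only [id]
        congr 1
        exact propext eq_comm
      rw [h1, Matrix.det_permute, Matrix.det_one, mul_one]
      rw [Finset.sum_eq_single σ0, Finset.sum_eq_single τ0]
      · rw [if_pos]
        funext j
        rw [hσ, hτ]
      · intro τ _ hne
        rw [if_neg]
        intro hw
        apply hne
        ext j
        have := congrFun hw j
        rw [hτ, this]
      · intro hh; exact absurd (Finset.mem_univ _) hh
      · intro σ _ hne
        refine Finset.sum_eq_zero fun τ _ => ?_
        rw [if_neg]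
        intro hw
        apply hne
        ext j
        have := congrFun hw j
        rw [hσ, this]
      · intro hh; exact absurd (Finset.mem_univ _) hh
    · have h0 : (Matrix.of fun r => (Pi.single (w r).2 1 : Fin N → ℝ)).det = 0 := by
        unfold Function.Injective at ht
        push Not at ht
        obtain ⟨a, b, hab, hne⟩ := ht
        refine Matrix.det_zero_of_row_eq hne ?_
        change (Pi.single (w a).2 1 : Fin N → ℝ) = Pi.single (w b).2 1
        have hab' : (w a).2 = (w b).2 := hab
        rw [hab']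
      rw [h0, mul_zero]
      symm
      refine Finset.sum_eq_zero fun σ _ => Finset.sum_eq_zero fun τ _ => ?_
      rw [if_neg]
      intro hw
      apply ht
      have : (fun r => (w r).2) = τ := by rw [hw]
      rw [this]
      exact τ.injective
  · rw [if_neg h]
    symm
    refine Finset.sum_eq_zero fun σ _ => Finset.sum_eq_zero fun τ _ => ?_
    rw [if_neg]
    intro hw
    apply h
    have : (fun r => (w r).1) = σ := by rw [hw]
    rw [this]
    exact σ.injective

theorem gb_fst_succ {n : ℕ} (i : Fin n) :
    (fst i.succ : Fin (2 * (n + 1))) = ((fst i).succ.succ : Fin (2 * n + 1 + 1)) := by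
  apply Fin.ext
  simp [fst]
  omega

theorem gb_snd_succ {n : ℕ} (i : Fin n) :
    (snd i.succ : Fin (2 * (n + 1))) = ((snd i).succ.succ : Fin (2 * n + 1 + 1)) := by
  apply Fin.ext
  simp [snd]
  omega

theorem gb_dR_apply (R : Arr N) (G : PP N) :
    dR R G = ∑ p : Fin N × Fin N, ∑ q : Fin N × Fin N,
      R p.1 q.1 p.2 q.2 • dd q.1 q.2 (dd p.1 p.2 G) := by
  unfold dR
  rw [Fintype.sum_prod_type]
  simp only [LinearMap.sum_apply]
  refine Finset.sum_congr rfl fun i _ => ?_
  simp only [Fintype.sum_prod_type]
  rw [Finset.sum_comm]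
  refine Finset.sum_congr rfl fun k _ => Finset.sum_congr rfl fun j _ =>
    Finset.sum_congr rfl fun l _ => ?_
  rw [LinearMap.smul_apply]
  congr 1
  have := dd_comm i k j l (N := N)
  rw [this.eq]
  rfl

theorem gb_pow (R : Arr N) : ∀ (n : ℕ) (G : PP N),
    ev0 (((dR R) ^ n) G) = ∑ w : Fin (2 * n) → Fin N × Fin N,
      (∏ i : Fin n, R (w (fst i)).1 (w (snd i)).1 (w (fst i)).2 (w (snd i)).2) *
        ev0 (gbApp (2 * n) w G) := by
  intro n
  induction n with
  | zero =>
    intro G
    have : Unique (Fin (2 * 0) → Fin N × Fin N) := inferInstanceAs (Unique (Fin 0 → Fin N × Fin N))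
    rw [Fintype.sum_unique]
    simp only [Finset.univ_eq_empty, Finset.prod_empty, one_mul, pow_zero, Module.End.one_apply]
    rfl
  | succ n ih =>
    intro G
    have h0 : ((dR R) ^ (n + 1)) G = ((dR R) ^ n) (dR R G) := by
      rw [pow_succ]; rfl
    have h1 : ∑ w : Fin (2 * (n + 1)) → Fin N × Fin N,
        (∏ i : Fin (n + 1), R (w (fst i)).1 (w (snd i)).1 (w (fst i)).2 (w (snd i)).2) *
          ev0 (gbApp (2 * (n + 1)) w G) =
        ∑ w : Fin (2 * n + 1 + 1) → Fin N × Fin N, (fun w : Fin (2 * n + 1 + 1) → Fin N × Fin N =>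
          (∏ i : Fin (n + 1), R (w (fst i : Fin (2 * (n + 1)))).1
            (w (snd i : Fin (2 * (n + 1)))).1 (w (fst i : Fin (2 * (n + 1)))).2
            (w (snd i : Fin (2 * (n + 1)))).2) * ev0 (gbApp (2 * n + 1 + 1) w G)) w := rfl
    rw [h1, ← Equiv.sum_comp (Fin.consEquiv (fun _ : Fin (2 * n + 1 + 1) => Fin N × Fin N)),
      Fintype.sum_prod_type, h0, gb_dR_apply]
    simp only [map_sum, map_smul]
    have h2 : ∀ f : Fin N × Fin N → PP N,
        ev0 (∑ p : Fin N × Fin N, f p) = ∑ p : Fin N × Fin N, ev0 (f p) := by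
      intro f
      unfold ev0
      rw [Finset.sum_apply]
    have h3 : ∀ (s : ℝ) (f : PP N), ev0 (s • f) = s * ev0 f := fun s f => rfl
    rw [h2]
    refine Finset.sum_congr rfl fun p _ => ?_
    rw [h2]
    conv_rhs =>
      rw [← Equiv.sum_comp (Fin.consEquiv (fun _ : Fin (2 * n + 1) => Fin N × Fin N)),
        Fintype.sum_prod_type]
    refine Finset.sum_congr rfl fun q _ => ?_
    rw [h3, ih, Finset.mul_sum]
    refine Finset.sum_congr rfl fun w _ => ?_
    have h4 : (Fin.consEquiv (fun _ : Fin (2 * n + 1 + 1) => Fin N × Fin N))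
        (p, (Fin.consEquiv (fun _ : Fin (2 * n + 1) => Fin N × Fin N)) (q, w)) =
        (Fin.cons p (Fin.cons q w) : Fin (2 * n + 1 + 1) → Fin N × Fin N) := rfl
    rw [h4, Fin.prod_univ_succ]
    have h5 : (Fin.cons p (Fin.cons q w) : Fin (2 * n + 1 + 1) → Fin N × Fin N)
        (fst 0 : Fin (2 * (n + 1))) = p := rfl
    have h6 : (Fin.cons p (Fin.cons q w) : Fin (2 * n + 1 + 1) → Fin N × Fin N)
        (snd 0 : Fin (2 * (n + 1))) = q := rfl
    rw [h5, h6]
    have h7 : ∀ i : Fin n, R ((Fin.cons p (Fin.cons q w) : Fin (2 * n + 1 + 1) → Fin N × Fin N)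
        (fst i.succ : Fin (2 * (n + 1)))).1
        ((Fin.cons p (Fin.cons q w) : Fin (2 * n + 1 + 1) → Fin N × Fin N)
        (snd i.succ : Fin (2 * (n + 1)))).1
        ((Fin.cons p (Fin.cons q w) : Fin (2 * n + 1 + 1) → Fin N × Fin N)
        (fst i.succ : Fin (2 * (n + 1)))).2
        ((Fin.cons p (Fin.cons q w) : Fin (2 * n + 1 + 1) → Fin N × Fin N)
        (snd i.succ : Fin (2 * (n + 1)))).2 =
        R (w (fst i)).1 (w (snd i)).1 (w (fst i)).2 (w (snd i)).2 := by
      intro i
      rw [gb_fst_succ, gb_snd_succ, Fin.cons_succ, Fin.cons_succ, Fin.cons_succ, Fin.cons_succ]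
    simp only [h7]
    have h8 : gbApp (2 * n + 1 + 1) (Fin.cons p (Fin.cons q w)) G =
        gbApp (2 * n) w (dd q.1 q.2 (dd p.1 p.2 G)) := rfl
    rw [h8]
    ring

theorem ev0_dR_pow (n : ℕ) (R : Arr (2 * n)) :
    ev0 (((dR R) ^ n) detP) = gaussBonnet n R := by
  classical
  rw [gb_pow]
  simp only [gb_ev0_app, Finset.mul_sum]
  rw [Finset.sum_comm]
  unfold gaussBonnet
  refine Finset.sum_congr rfl fun σ _ => ?_
  rw [Finset.sum_comm]
  refine Finset.sum_congr rfl fun τ _ => ?_
  rw [Finset.sum_eq_single (fun j => (σ j, τ j))]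
  · rw [if_pos rfl]
    ring
  · intro w _ hw
    rw [if_neg hw, mul_zero]
  · intro hh; exact absurd (Finset.mem_univ _) hh

end Pool.Agent.H88S
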