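import Pool.Agent.Lib.H88S.Ip

/-!
# H88S chunk PAIRING: a reversed inequality between two forms of Lorentz type

`ip A B = ∑ i j, A i j * B i j`, `bilin A x y = ∑ x i A i j y j`.

* `minkowski`: `M = Cᵀ C = ∑_r v_r v_rᵀ` (`M` is positive semidefinite), `ip B M = ∑_r bilin B v_r v_r`,
  and the Euclidean norm of `∑_r (bilin (B k) v_r v_r)_k` is at most
  `∑_r (∑_k bilin (B k) v_r v_r ^ 2)^{1/2} ≤ ∑_r bilin S v_r v_r = ip S M`.
* `pairing`: put `Q(Y, Z) = ip S Y * ip S Z - ∑_k ip (B k) Y * ip (B k) Z`.  The claim is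
  `∑_j Q(D_j, D_j) ≤ Q(L, L)`.
  Case `Q(L, L) > 0`.  (a) `Q(L, Y)² ≥ Q(L, L) Q(Y, Y)` for all `Y`: the quadratic polynomial
  `λ ↦ Q(Y - λ L, Y - λ L)` has positive leading coefficient and is `≤ 0` at
  `λ = ip S Y / ip S L`.  (b) `W = ip S L • S - ∑_k ip (B k) L • B k` is symmetric, positive
  semidefinite (Cauchy–Schwarz and `minkowski` for `L`), and `Q(L, Y) = ip W Y`.  (c) `minkowski` for
  `(D, L)` and `M = W`: `∑_j ip (D j) W ^ 2 ≤ ip L W ^ 2 = Q(L, L)²`.  So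
  `∑_j Q(D_j, D_j) ≤ ∑_j Q(L, D_j)² / Q(L, L) ≤ Q(L, L)`.
  General case: replace `S`, `L` by `S + ε 1`, `L + ε 1`, `ε > 0` (the hypotheses remain true, and
  `Q_ε(M, M) ≥ ε² (trace M)² > 0` for `M = L + ε 1`, `N ≥ 1`), let `ε → 0`.  (`N = 0` is trivial.)
-/

open Finset Filter Topology

namespace Pool.Agent.H88S

open Pool.Agent.H69Hopf

variable {N : ℕ}

private theorem pairing_gram {M : Mat N} (hM : M.IsSymm) (hM0 : ∀ x, 0 ≤ bilin M x x) :
    ∃ C : Mat N, ∀ i j, M i j = ∑ r, C r i * C r j := by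
  have hps : M.PosSemidef := by
    refine Matrix.PosSemidef.of_dotProduct_mulVec_nonneg ?_ ?_
    · unfold Matrix.IsHermitian
      rw [Matrix.conjTranspose_eq_transpose_of_trivial]
      exact hM
    · intro x
      have h := hM0 x
      unfold bilin at h
      have e : star x ⬝ᵥ M.mulVec x = ∑ i, ∑ j, x i * M i j * x j := by
        simp only [dotProduct, Matrix.mulVec, star_trivial, mul_sum]
        refine sum_congr rfl fun i _ => sum_congr rfl fun j _ => by ring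
      rw [e]
      exact h
  open scoped MatrixOrder in
  obtain ⟨C, hC⟩ := CStarAlgebra.nonneg_iff_eq_star_mul_self.mp hps.nonneg
  refine ⟨C, fun i j => ?_⟩
  rw [hC, Matrix.mul_apply]
  refine sum_congr rfl fun r _ => ?_
  rw [Matrix.star_apply, star_trivial]

private theorem pairing_ip_gram {M C : Mat N} (hC : ∀ i j, M i j = ∑ r, C r i * C r j) (B : Mat N) :
    ip B M = ∑ r, bilin B (C r) (C r) := by
  unfold ip bilin
  have e : ∀ i j, B i j * M i j = ∑ r, C r i * B i j * C r j := by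
    intro i j
    rw [hC, mul_sum]
    refine sum_congr rfl fun r _ => by ring
  calc ∑ i, ∑ j, B i j * M i j = ∑ i, ∑ j, ∑ r, C r i * B i j * C r j :=
        sum_congr rfl fun i _ => sum_congr rfl fun j _ => e i j
    _ = ∑ i, ∑ r, ∑ j, C r i * B i j * C r j := sum_congr rfl fun i _ => sum_comm
    _ = _ := sum_comm

private theorem pairing_tri {p n : ℕ} (w : Fin n → Fin p → ℝ) (s : Fin n → ℝ) (hs : ∀ r, 0 ≤ s r)
    (h : ∀ r, ∑ k, w r k ^ 2 ≤ s r ^ 2) : ∑ k, (∑ r, w r k) ^ 2 ≤ (∑ r, s r) ^ 2 := by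
  have h1 : ∀ r, ‖(WithLp.toLp 2 (w r) : EuclideanSpace ℝ (Fin p))‖ ≤ s r := by
    intro r
    rw [EuclideanSpace.norm_eq]
    refine Real.sqrt_le_iff.mpr ⟨hs r, ?_⟩
    simpa using h r
  have h2 : ‖∑ r, (WithLp.toLp 2 (w r) : EuclideanSpace ℝ (Fin p))‖ ≤ ∑ r, s r :=
    (norm_sum_le _ _).trans (sum_le_sum fun r _ => h1 r)
  have h3 : ‖∑ r, (WithLp.toLp 2 (w r) : EuclideanSpace ℝ (Fin p))‖ ^ 2 ≤ (∑ r, s r) ^ 2 :=
    pow_le_pow_left₀ (norm_nonneg _) h2 2
  rw [EuclideanSpace.norm_sq_eq] at h3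
  simpa using h3

theorem minkowski {p : ℕ} {S : Mat N} {B : Fin p → Mat N} (hS0 : ∀ x, 0 ≤ bilin S x x)
    (hB : ∀ x : Fin N → ℝ, ∑ k, bilin (B k) x x ^ 2 ≤ bilin S x x ^ 2)
    {M : Mat N} (hM : M.IsSymm) (hM0 : ∀ x, 0 ≤ bilin M x x) :
    0 ≤ ip S M ∧ ∑ k, ip (B k) M ^ 2 ≤ ip S M ^ 2 := by
  obtain ⟨C, hC⟩ := pairing_gram hM hM0
  simp only [pairing_ip_gram hC]
  exact ⟨sum_nonneg fun r _ => hS0 _,
    pairing_tri (fun r k => bilin (B k) (C r) (C r)) _ (fun r => hS0 _) fun r => hB _⟩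

private theorem pairing_bilin_add (A B : Mat N) (x : Fin N → ℝ) :
    bilin (A + B) x x = bilin A x x + bilin B x x := by
  unfold bilin
  simp only [Matrix.add_apply, mul_add, add_mul, sum_add_distrib]

private theorem pairing_bilin_smul (s : ℝ) (A : Mat N) (x : Fin N → ℝ) :
    bilin (s • A) x x = s * bilin A x x := by
  unfold bilin
  simp only [Matrix.smul_apply, smul_eq_mul, mul_sum]
  refine sum_congr rfl fun i _ => sum_congr rfl fun j _ => by ring

private theorem pairing_bilin_sum {p : ℕ} (A : Fin p → Mat N) (x : Fin N → ℝ) :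
    bilin (∑ k, A k) x x = ∑ k, bilin (A k) x x := by
  have key : ∀ s : Finset (Fin p), bilin (∑ k ∈ s, A k) x x = ∑ k ∈ s, bilin (A k) x x := by
    classical
    intro s
    induction s using Finset.induction_on with
    | empty => simp [bilin]
    | insert a s ha ih => rw [sum_insert ha, sum_insert ha, pairing_bilin_add, ih]
  exact key univ

private theorem pairing_bilin_one (x : Fin N → ℝ) : bilin (1 : Mat N) x x = ∑ i, x i ^ 2 := by
  unfold bilin
  refine sum_congr rfl fun i _ => ?_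
  simp [Matrix.one_apply, sq]

private theorem pairing_ip_sum {p : ℕ} (B : Mat N) (A : Fin p → Mat N) :
    ip B (∑ k, A k) = ∑ k, ip B (A k) := by
  have key : ∀ s : Finset (Fin p), ip B (∑ k ∈ s, A k) = ∑ k ∈ s, ip B (A k) := by
    classical
    intro s
    induction s using Finset.induction_on with
    | empty => simp [ip]
    | insert a s ha ih => rw [sum_insert ha, sum_insert ha, ip_add, ih]
  exact key univ

/-- The strict case. -/
private theorem pairing_strict {p q : ℕ} {S L : Mat N} {B : Fin p → Mat N} {D : Fin q → Mat N}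
    (hS : S.IsSymm) (hS0 : ∀ x, 0 ≤ bilin S x x) (hL : L.IsSymm) (hL0 : ∀ x, 0 ≤ bilin L x x)
    (hBs : ∀ k, (B k).IsSymm)
    (hB : ∀ x : Fin N → ℝ, ∑ k, bilin (B k) x x ^ 2 ≤ bilin S x x ^ 2)
    (hD : ∀ x : Fin N → ℝ, ∑ j, bilin (D j) x x ^ 2 ≤ bilin L x x ^ 2)
    (hpos : ∑ k, ip (B k) L ^ 2 < ip S L ^ 2) :
    ∑ k, ip (B k) L ^ 2 + ∑ j, ip (D j) S ^ 2 ≤ ip S L ^ 2 + ∑ k, ∑ j, ip (B k) (D j) ^ 2 := by
  obtain ⟨hs, -⟩ := minkowski hS0 hB hL hL0
  set s := ip S L with hsdef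
  set b : Fin p → ℝ := fun k => ip (B k) L with hb
  set qq : ℝ := s ^ 2 - ∑ k, b k ^ 2 with hqq
  have hq0 : 0 < qq := by
    rw [hqq]
    simp only [hb]
    linarith
  have hs1 : s ≠ 0 := by
    intro h0
    rw [h0] at hpos
    have : 0 ≤ ∑ k, ip (B k) L ^ 2 := sum_nonneg fun k _ => sq_nonneg _
    nlinarith
  set W : Mat N := s • S + ∑ k, (-b k) • B k with hW
  have hWs : W.IsSymm := by
    unfold Matrix.IsSymm
    rw [hW, Matrix.transpose_add, Matrix.transpose_smul, hS.eq, Matrix.transpose_sum]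
    congr 1
    refine sum_congr rfl fun k _ => ?_
    rw [Matrix.transpose_smul, (hBs k).eq]
  have hW0 : ∀ x, 0 ≤ bilin W x x := by
    intro x
    have e : bilin W x x = s * bilin S x x - ∑ k, b k * bilin (B k) x x := by
      rw [hW, pairing_bilin_add, pairing_bilin_smul, pairing_bilin_sum]
      simp only [pairing_bilin_smul]
      rw [sub_eq_add_neg, ← sum_neg_distrib]
      congr 1
      refine sum_congr rfl fun k _ => by ring
    have h1 : (∑ k, b k * bilin (B k) x x) ^ 2 ≤ (∑ k, b k ^ 2) * ∑ k, bilin (B k) x x ^ 2 :=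
      sum_mul_sq_le_sq_mul_sq _ _ _
    have h2 : (∑ k, b k ^ 2) * ∑ k, bilin (B k) x x ^ 2 ≤ s ^ 2 * bilin S x x ^ 2 := by
      refine mul_le_mul ?_ (hB x) (sum_nonneg fun k _ => sq_nonneg _) (sq_nonneg _)
      linarith
    have h3 : ∑ k, b k * bilin (B k) x x ≤ s * bilin S x x := by
      refine le_of_sq_le_sq ?_ (mul_nonneg hs (hS0 x))
      rw [mul_pow]
      exact h1.trans h2
    rw [e]
    linarith
  have hipW : ∀ Y : Mat N, ip Y W = s * ip Y S - ∑ k, b k * ip Y (B k) := by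
    intro Y
    rw [hW, ip_add, ip_smul, pairing_ip_sum]
    simp only [ip_smul]
    rw [sub_eq_add_neg, ← sum_neg_distrib]
    congr 1
    refine sum_congr rfl fun k _ => by ring
  have hLW : ip L W = qq := by
    rw [hipW, hqq, ip_comm L S, ← hsdef, sq]
    congr 1
    refine sum_congr rfl fun k _ => ?_
    rw [ip_comm L (B k), sq]
  obtain ⟨-, hc⟩ := minkowski hL0 hD hWs hW0
  rw [hLW] at hc
  -- reversed Cauchy–Schwarz
  have ha : ∀ j, qq * (ip (D j) S ^ 2 - ∑ k, ip (B k) (D j) ^ 2) ≤ ip (D j) W ^ 2 := by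
    intro j
    set t := ip (D j) S with ht
    have e1 : ip (D j) W = s * t - ∑ k, b k * ip (B k) (D j) := by
      rw [hipW]
      congr 1
      refine sum_congr rfl fun k _ => ?_
      rw [ip_comm (D j) (B k)]
    set u : ℝ := t / s with hu
    have hus : u * s = t := div_mul_cancel₀ t hs1
    have h1 : 0 ≤ ∑ k, (ip (B k) (D j) - u * b k) ^ 2 := sum_nonneg fun k _ => sq_nonneg _
    have h2 : ∑ k, (ip (B k) (D j) - u * b k) ^ 2 =
        ∑ k, ip (B k) (D j) ^ 2 - 2 * u * ∑ k, b k * ip (B k) (D j) + u ^ 2 * ∑ k, b k ^ 2 := by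
      rw [mul_sum, mul_sum, ← sum_sub_distrib, ← sum_add_distrib]
      refine sum_congr rfl fun k _ => by ring
    rw [h2] at h1
    rw [e1]
    set X := ∑ k, ip (B k) (D j) ^ 2 with hX
    set Z := ∑ k, b k * ip (B k) (D j) with hZ
    have hbb : ∑ k, b k ^ 2 = s ^ 2 - qq := by rw [hqq]; ring
    rw [hbb] at h1
    have h4 : 0 ≤ (u * qq - (s * t - Z)) ^ 2 := sq_nonneg _
    have h5 : t ^ 2 - X - 2 * u * (s * t - Z) + u ^ 2 * qq ≤ 0 := by
      rw [← hus]
      nlinarith [h1]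
    nlinarith [mul_nonneg hq0.le (sub_nonneg.mpr h5), h4]
  have h6 : qq * ∑ j, (ip (D j) S ^ 2 - ∑ k, ip (B k) (D j) ^ 2) ≤ qq ^ 2 := by
    rw [mul_sum]
    exact (sum_le_sum fun j _ => ha j).trans hc
  have h7 : ∑ j, (ip (D j) S ^ 2 - ∑ k, ip (B k) (D j) ^ 2) ≤ qq := by
    by_contra hcon
    push Not at hcon
    nlinarith
  rw [sum_sub_distrib] at h7
  rw [sum_comm (s := univ) (t := univ) (f := fun k j => ip (B k) (D j) ^ 2)]
  simp only [hqq, hb] at h7
  linarith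

theorem pairing {p q : ℕ} {S L : Mat N} {B : Fin p → Mat N} {D : Fin q → Mat N}
    (hS : S.IsSymm) (hS0 : ∀ x, 0 ≤ bilin S x x) (hL : L.IsSymm) (hL0 : ∀ x, 0 ≤ bilin L x x)
    (hBs : ∀ k, (B k).IsSymm) (hDs : ∀ j, (D j).IsSymm)
    (hB : ∀ x : Fin N → ℝ, ∑ k, bilin (B k) x x ^ 2 ≤ bilin S x x ^ 2)
    (hD : ∀ x : Fin N → ℝ, ∑ j, bilin (D j) x x ^ 2 ≤ bilin L x x ^ 2) :
    ∑ k, ip (B k) L ^ 2 + ∑ j, ip (D j) S ^ 2 ≤ ip S L ^ 2 + ∑ k, ∑ j, ip (B k) (D j) ^ 2 := by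
  rcases Nat.eq_zero_or_pos N with hN | hN
  · subst hN
    simp [ip]
  have key : ∀ ε : ℝ, 0 < ε →
      ∑ k, ip (B k) (L + ε • 1) ^ 2 + ∑ j, ip (D j) (S + ε • 1) ^ 2 ≤
        ip (S + ε • 1) (L + ε • 1) ^ 2 + ∑ k, ∑ j, ip (B k) (D j) ^ 2 := by
    intro ε hε
    have hsym : ∀ A : Mat N, A.IsSymm → (A + ε • 1).IsSymm := by
      intro A hA
      unfold Matrix.IsSymm
      rw [Matrix.transpose_add, Matrix.transpose_smul, Matrix.transpose_one, hA.eq]
    have hbil : ∀ (A : Mat N) (x : Fin N → ℝ),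
        bilin (A + ε • 1) x x = bilin A x x + ε * ∑ i, x i ^ 2 := by
      intro A x
      rw [pairing_bilin_add, pairing_bilin_smul, pairing_bilin_one]
    have hx2 : ∀ x : Fin N → ℝ, 0 ≤ ε * ∑ i, x i ^ 2 := fun x =>
      mul_nonneg hε.le (sum_nonneg fun i _ => sq_nonneg _)
    have hnn : ∀ A : Mat N, (∀ x, 0 ≤ bilin A x x) → ∀ x, 0 ≤ bilin (A + ε • 1) x x := by
      intro A hA x
      rw [hbil]
      exact add_nonneg (hA x) (hx2 x)
    have hmono : ∀ A : Mat N, (∀ x, 0 ≤ bilin A x x) → ∀ x,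
        bilin A x x ^ 2 ≤ bilin (A + ε • 1) x x ^ 2 := by
      intro A hA x
      rw [hbil]
      exact pow_le_pow_left₀ (hA x) (by linarith [hx2 x]) 2
    refine pairing_strict (hsym S hS) (hnn S hS0) (hsym L hL) (hnn L hL0) hBs
      (fun x => (hB x).trans (hmono S hS0 x)) (fun x => (hD x).trans (hmono L hL0 x)) ?_
    obtain ⟨h1, h2⟩ := minkowski hS0 hB (hsym L hL) (hnn L hL0)
    have h3 : ip (S + ε • 1) (L + ε • 1) = ip S (L + ε • 1) + ε * (L + ε • (1 : Mat N)).trace := by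
      rw [ip_comm, ip_add, ip_smul, ip_one, ip_comm]
    have h4 : 0 ≤ L.trace := by
      unfold Matrix.trace
      refine sum_nonneg fun i _ => ?_
      have := hL0 (Pi.single i 1)
      unfold bilin at this
      simpa [Pi.single_apply] using this
    have h5 : (L + ε • (1 : Mat N)).trace = L.trace + ε * N := by
      rw [Matrix.trace_add, Matrix.trace_smul, Matrix.trace_one, smul_eq_mul, Fintype.card_fin]
    have h6 : 0 < ε * (L + ε • (1 : Mat N)).trace := by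
      rw [h5]
      have : (0 : ℝ) < N := by exact_mod_cast hN
      positivity
    rw [h3]
    refine h2.trans_lt ?_
    exact pow_lt_pow_left₀ (by linarith) h1 two_ne_zero
  have hcont : Continuous fun ε : ℝ => ip (S + ε • 1) (L + ε • 1) ^ 2 +
      ∑ k, ∑ j, ip (B k) (D j) ^ 2 -
      (∑ k, ip (B k) (L + ε • 1) ^ 2 + ∑ j, ip (D j) (S + ε • 1) ^ 2) := by
    unfold ip
    simp only [Matrix.add_apply, Matrix.smul_apply, smul_eq_mul]
    fun_prop
  have hlim := (hcont.tendsto 0).mono_left (nhdsWithin_le_nhds (s := Set.Ioi (0 : ℝ)))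
  have h0 := ge_of_tendsto hlim (b := 0) (by
    filter_upwards [self_mem_nhdsWithin] with ε hε
    have := key ε hε
    linarith)
  simp only [zero_smul, add_zero] at h0
  linarith

end Pool.Agent.H88S
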