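import Pool.Agent.Lib.H88S.Ops

/-!
# H88S chunk ANTI: the antisymmetry of the second derivatives of the determinant

* `anti_detRow`: at an index `c` with `c i = none`, `c j = none`, `i ≠ j` (the other cases give
  `0 = -0`), both sides are determinants of matrices which differ by exchanging the rows `i`, `j`
  (`e_k, e_l` versus `e_l, e_k`): `Matrix.det_permute` with a swap or `Matrix.det_swap...`.
* `Anti.apply`: `A` commutes with every `dd i j` (`U_comm`).
* `dR_kn_one`: `dR (kn 1) = ∑ i j, (dd i i * dd j j) - ∑ i j, (dd i j * dd j i)` and by `Anti`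
  `dd i j (dd j i G) = - dd i i (dd j j G)`.
-/

open Finset Filter Topology

namespace Pool.Agent.H88S

open Pool.Agent.H69Hopf

variable {N : ℕ}

theorem anti_detRow (X : Mat N) : Anti (detRow X) := by
  intro i j k l
  funext c
  simp only [dd_apply, Pi.neg_apply]
  by_cases hij : i = j
  · subst hij
    simp
  by_cases hi : c i = none
  swap
  · simp [hi]
  by_cases hj : c j = none
  swap
  · simp [Function.update_of_ne (Ne.symm hij), hj, hi]
  simp only [hi, if_true, Function.update_of_ne (Ne.symm hij), hj]
  have key : (Matrix.of fun a => match (Function.update (Function.update c i (some l)) j (some k)) a with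
      | none => X a
      | some m => (Pi.single m 1 : Fin N → ℝ)) =
      (Matrix.of fun a => match (Function.update (Function.update c i (some k)) j (some l)) a with
      | none => X a
      | some m => (Pi.single m 1 : Fin N → ℝ)).submatrix (Equiv.swap i j) id := by
    ext a b
    simp only [Matrix.submatrix_apply, Matrix.of_apply, id]
    by_cases ha : a = i
    · subst ha
      rw [Equiv.swap_apply_left, Function.update_of_ne hij, Function.update_self,
        Function.update_self]
    · by_cases ha' : a = j
      · subst ha'
        rw [Equiv.swap_apply_right, Function.update_of_ne hij,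
          Function.update_self, Function.update_self]
      · rw [Equiv.swap_apply_of_ne_of_ne ha ha', Function.update_of_ne ha',
          Function.update_of_ne ha, Function.update_of_ne ha', Function.update_of_ne ha]
  have key2 : detRow X (Function.update (Function.update c i (some l)) j (some k)) =
      - detRow X (Function.update (Function.update c i (some k)) j (some l)) := by
    refine (congrArg Matrix.det key).trans ?_
    rw [Matrix.det_permute, Equiv.Perm.sign_swap hij]
    simp only [Units.val_neg, Units.val_one, Int.cast_neg, Int.cast_one, neg_mul, one_mul]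
    rfl
  rw [key2, neg_neg]

theorem Anti.apply {A : Op N} (hA : A ∈ U N) {G : PP N} (hG : Anti G) : Anti (A G) := by
  intro i j k l
  have h : ∀ a b : Fin N, ∀ H : PP N, dd a b (A H) = A (dd a b H) := by
    intro a b H
    have := U_comm (dd_mem a b) hA
    exact congrArg (fun T : Op N => T H) this.eq
  rw [h, h, h, h, hG i j k l, map_neg]

theorem Anti.smul {G : PP N} (hG : Anti G) (s : ℝ) : Anti (s • G) := by
  intro i j k l
  simp only [map_smul]
  rw [hG i j k l, smul_neg]

theorem Anti.of_tendsto {G : ℕ → PP N} {G0 : PP N} (hG : ∀ k, Anti (G k))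
    (h : Tendsto G atTop (𝓝 G0)) : Anti G0 := by
  intro i j k l
  have h1 : Tendsto (fun m => dd i k (dd j l (G m))) atTop (𝓝 (dd i k (dd j l G0))) :=
    ((continuous_op (dd i k)).comp (continuous_op (dd j l))).continuousAt.tendsto.comp h
  have h2 : Tendsto (fun m => - dd i l (dd j k (G m))) atTop (𝓝 (- dd i l (dd j k G0))) :=
    (((continuous_op (dd i l)).comp (continuous_op (dd j k))).continuousAt.tendsto.comp h).neg
  refine tendsto_nhds_unique h1 ?_
  refine h2.congr fun m => ?_
  rw [hG m i j k l]

theorem dR_kn_one {G : PP N} (hG : Anti G) :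
    dR (kn (1 : Mat N)) G = (2 : ℝ) • (dg ^ 2 : Op N) G := by
  have h1 : dR (kn (1 : Mat N)) G = ∑ i, ∑ j, (dd i i (dd j j G) - dd i j (dd j i G)) := by
    unfold dR kn
    simp only [LinearMap.sum_apply, LinearMap.smul_apply, Module.End.mul_apply]
    refine sum_congr rfl fun i _ => sum_congr rfl fun j _ => ?_
    simp only [sub_smul, sum_sub_distrib, Matrix.one_apply, mul_ite, mul_one, mul_zero, ite_smul,
      one_smul, zero_smul]
    simp
  have h2 : (dg ^ 2 : Op N) G = ∑ i, ∑ j, dd i i (dd j j G) := by
    unfold dg
    rw [sq, Module.End.mul_apply]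
    simp only [LinearMap.sum_apply, map_sum]
    exact sum_comm
  rw [h1, h2]
  simp only [smul_sum]
  refine sum_congr rfl fun i _ => sum_congr rfl fun j _ => ?_
  rw [hG i j j i, sub_neg_eq_add, two_smul]

/-- `exp (-h 𝒟_{kn 1}) = exp (-2 h ∂_g²)` on antisymmetric elements. -/
theorem E_dR_kn_one {G : PP N} (hG : Anti G) (h : ℝ) :
    E ((-h) • dR (kn (1 : Mat N))) G = E ((-(2 * h)) • (dg ^ 2 : Op N)) G := by
  have hp : ∀ k : ℕ, (dR (kn (1 : Mat N)) ^ k) G = ((2 : ℝ) ^ k) • (((dg ^ 2 : Op N)) ^ k) G := by
    intro k
    induction k with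
    | zero => simp
    | succ k ih =>
      have hmem : ((dg ^ 2 : Op N)) ^ k ∈ U N := pow_mem (pow_mem dg_mem 2) k
      rw [pow_succ', Module.End.mul_apply, ih, map_smul, dR_kn_one (hG.apply hmem), smul_smul,
        pow_succ' (dg ^ 2 : Op N), Module.End.mul_apply, pow_succ (2 : ℝ)]
  rw [E_smul_apply, E_smul_apply]
  refine sum_congr rfl fun k _ => ?_
  rw [hp k, smul_smul]
  congr 1
  rw [neg_pow h, neg_pow (2 * h), mul_pow]
  ring

end Pool.Agent.H88S
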