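import Pool.Agent.Lib.H69.Gauss.FinalDefs

/-!
# The curvature condition of quadratic maps between spheres
-/

open Finset

namespace Pool.Agent.H88S

open Pool.Agent.H69Hopf

/-- Real `N × N` matrices. -/
abbrev Mat (N : ℕ) := Matrix (Fin N) (Fin N) ℝ

variable {N : ℕ}

/-- `act R A B = ∑ R i j k l A i k B j l`.  The curvature operator of the second kind is
`- act R Y Y` on traceless symmetric `Y`. -/
noncomputable def act (R : Arr N) (A B : Mat N) : ℝ :=
  ∑ i, ∑ j, ∑ k, ∑ l, R i j k l * A i k * B j l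

/-- `S` is positive semidefinite, the `B k` are symmetric and `∑ k, B k (x, x) ^ 2 = S (x, x) ^ 2`:
if `S` is definite, `x ↦ (B k (x, x))` is a quadratic map from the unit sphere of `S` to a unit
sphere. -/
def SphereMap {p : ℕ} (S : Mat N) (B : Fin p → Mat N) : Prop :=
  S.IsSymm ∧ (∀ x : Fin N → ℝ, 0 ≤ bilin S x x) ∧ (∀ k, (B k).IsSymm) ∧
    ∀ x : Fin N → ℝ, ∑ k, bilin (B k) x x ^ 2 = bilin S x x ^ 2

/-- Nonnegative version of the curvature condition. -/
def SphereNonneg (R : Arr N) : Prop :=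
  ∀ (p : ℕ) (S : Mat N) (B : Fin p → Mat N), SphereMap S B →
    ∑ k, act R (B k) (B k) ≤ act R S S

/-- Nonpositive version of the curvature condition. -/
def SphereNonpos (R : Arr N) : Prop :=
  ∀ (p : ℕ) (S : Mat N) (B : Fin p → Mat N), SphereMap S B →
    act R S S ≤ ∑ k, act R (B k) (B k)

end Pool.Agent.H88S
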