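import Pool.Agent.Lib.H88S.Ops

/-!
# H88S chunk SHIFT: Taylor's formula for the determinant

`detRow X c = det (rows X i, or e_j if c i = some j)`.

Proof of `detRow_shift`.  For fixed `X`, `Y` and an index `c`, let `d_c ∈ ℝ[z]` be the determinant
of the matrix over `ℝ[z]` with rows `X i + z Y i` (`c i = none`) or `e_j` (`c i = some j`).  By
multilinearity in the rows, `d_c' = ∑_{i : c i = none} det (row i replaced by Y i)
= ∑_{i, c i = none} ∑_j Y i j * d_{update c i (some j)}`, i.e. `(c ↦ d_c(s)') = dA Y (c ↦ d_c(s))`.
Hence `((dA Y) ^ k (detRow X)) c = (derivative^[k] d_c).eval 0`, `natDegree d_c ≤ N`, and the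
statement is Taylor's formula for `d_c` at the complex number `z`.
-/

open Finset Filter Topology

namespace Pool.Agent.H88S

open Pool.Agent.H69Hopf

variable {N : ℕ}

/-- The derivative of the determinant of a matrix of polynomials. -/
theorem SHIFT_derivative_det (M : Matrix (Fin N) (Fin N) (Polynomial ℝ)) :
    Polynomial.derivative M.det =
      ∑ i, (M.updateRow i (fun j => Polynomial.derivative (M i j))).det := by
  have h1 : ∀ σ : Equiv.Perm (Fin N), Polynomial.derivative (∏ a, M (σ a) a) =
      ∑ i, ∏ a, (M.updateRow i (fun j => Polynomial.derivative (M i j))) (σ a) a := by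
    intro σ
    rw [Polynomial.derivative_prod_finset, ← Equiv.sum_comp σ (fun i =>
      ∏ a, (M.updateRow i (fun j => Polynomial.derivative (M i j))) (σ a) a)]
    refine Finset.sum_congr rfl fun b _ => ?_
    rw [← Finset.prod_erase_mul _ _ (Finset.mem_univ b), Matrix.updateRow_self]
    congr 1
    refine Finset.prod_congr rfl fun a ha => ?_
    rw [Matrix.updateRow_ne]
    exact fun h => (Finset.ne_of_mem_erase ha) (σ.injective h)
  simp only [Matrix.det_apply]
  rw [map_sum, Finset.sum_comm]
  refine Finset.sum_congr rfl fun σ _ => ?_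
  rw [← Finset.smul_sum, ← h1 σ]
  rw [Units.smul_def, Units.smul_def, map_zsmul]

/-- The constant part of the rows. -/
noncomputable def SHIFT_B (X : Mat N) (c : Idx N) : Mat N :=
  Matrix.of fun i => match c i with
    | none => X i
    | some j => Pi.single j 1

/-- The moving part of the rows. -/
noncomputable def SHIFT_A (Y : Mat N) (c : Idx N) : Mat N :=
  Matrix.of fun i => match c i with
    | none => Y i
    | some _ => 0

/-- The determinant along the line `X + z Y`. -/
noncomputable def SHIFT_P (X Y : Mat N) (c : Idx N) : Polynomial ℝ :=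
  ((Polynomial.X : Polynomial ℝ) • (SHIFT_A Y c).map Polynomial.C +
    (SHIFT_B X c).map Polynomial.C).det

theorem SHIFT_natDegree (X Y : Mat N) (c : Idx N) : (SHIFT_P X Y c).natDegree ≤ N := by
  have := Polynomial.natDegree_det_X_add_C_le (SHIFT_A Y c) (SHIFT_B X c)
  rwa [Fintype.card_fin] at this

theorem SHIFT_derivative (X Y : Mat N) (c : Idx N) :
    Polynomial.derivative (SHIFT_P X Y c) =
      ∑ i, ∑ j, if c i = none then Polynomial.C (Y i j) *
        SHIFT_P X Y (Function.update c i (some j)) else 0 := by
  unfold SHIFT_P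
  rw [SHIFT_derivative_det]
  refine Finset.sum_congr rfl fun i _ => ?_
  set M : Matrix (Fin N) (Fin N) (Polynomial ℝ) :=
    (Polynomial.X : Polynomial ℝ) • (SHIFT_A Y c).map Polynomial.C +
      (SHIFT_B X c).map Polynomial.C with hM
  have hMi : ∀ j, Polynomial.derivative (M i j) = Polynomial.C (SHIFT_A Y c i j) := by
    intro j
    simp only [hM, Matrix.add_apply, Matrix.smul_apply, Matrix.map_apply, smul_eq_mul, map_add,
      Polynomial.derivative_mul, Polynomial.derivative_X, one_mul, Polynomial.derivative_C,
      mul_zero, add_zero]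
  simp only [hMi]
  by_cases hc : c i = none
  · simp only [hc, if_true]
    have h1 : (fun j => Polynomial.C (SHIFT_A Y c i j)) = fun j => Polynomial.C (Y i j) := by
      funext j
      simp [SHIFT_A, hc]
    rw [h1, ← Matrix.cramer_transpose_apply]
    have h2 := LinearMap.pi_apply_eq_sum_univ
      (LinearMap.proj i ∘ₗ Matrix.cramer M.transpose) (fun j => Polynomial.C (Y i j))
    simp only [LinearMap.comp_apply, LinearMap.proj_apply, smul_eq_mul] at h2
    rw [h2]
    refine Finset.sum_congr rfl fun j _ => ?_
    congr 1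
    rw [Matrix.cramer_transpose_apply]
    congr 1
    ext k l
    by_cases hk : k = i
    · subst hk
      rw [Matrix.updateRow_self]
      simp only [Matrix.add_apply, Matrix.smul_apply, Matrix.map_apply, smul_eq_mul, SHIFT_A,
        SHIFT_B, Matrix.of_apply, Function.update_self, Pi.zero_apply, map_zero, mul_zero,
        zero_add, Pi.single_apply]
      by_cases hjl : j = l
      · simp [hjl]
      · rw [if_neg hjl, if_neg (Ne.symm hjl), map_zero]
    · rw [Matrix.updateRow_ne hk]
      simp only [hM, Matrix.add_apply, Matrix.smul_apply, Matrix.map_apply, smul_eq_mul, SHIFT_A,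
        SHIFT_B, Matrix.of_apply, Function.update_of_ne hk]
  · simp only [hc, if_false, Finset.sum_const_zero]
    apply Matrix.det_eq_zero_of_row_eq_zero i
    intro j
    rw [Matrix.updateRow_self]
    obtain ⟨l, hl⟩ := Option.ne_none_iff_exists'.mp hc
    simp [SHIFT_A, hl]

theorem SHIFT_dA_apply (Y : Mat N) (G : PP N) (c : Idx N) :
    dA Y G c = ∑ i, ∑ j, if c i = none then Y i j * G (Function.update c i (some j)) else 0 := by
  unfold dA
  simp only [LinearMap.sum_apply, LinearMap.smul_apply, Finset.sum_apply, Pi.smul_apply,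
    smul_eq_mul, dd_apply]
  refine Finset.sum_congr rfl fun i _ => Finset.sum_congr rfl fun j _ => ?_
  split_ifs
  · rfl
  · rw [mul_zero]

theorem SHIFT_eval (X Y : Mat N) (s : ℝ) (c : Idx N) :
    (SHIFT_P X Y c).eval s = detRow (X + s • Y) c := by
  unfold SHIFT_P detRow
  rw [← Polynomial.coe_evalRingHom, RingHom.map_det]
  congr 1
  ext i j
  simp only [RingHom.mapMatrix_apply, Matrix.map_apply, Matrix.add_apply, Matrix.smul_apply,
    smul_eq_mul, Polynomial.coe_evalRingHom, Polynomial.eval_add, Polynomial.eval_mul,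
    Polynomial.eval_X, Polynomial.eval_C, SHIFT_A, SHIFT_B, Matrix.of_apply]
  rcases h : c i with _ | l
  · simp only [Matrix.add_apply, Matrix.smul_apply, smul_eq_mul]
    ring
  · simp

theorem SHIFT_iterate (X Y : Mat N) (s : ℝ) (k : ℕ) (c : Idx N) :
    (Polynomial.derivative^[k] (SHIFT_P X Y c)).eval s =
      ((dA Y) ^ k) (detRow (X + s • Y)) c := by
  induction k generalizing c with
  | zero => simp [SHIFT_eval]
  | succ k ih =>
    rw [Function.iterate_succ_apply, SHIFT_derivative, pow_succ', Module.End.mul_apply,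
      SHIFT_dA_apply]
    rw [Polynomial.iterate_derivative_sum, Polynomial.eval_finsetSum]
    refine Finset.sum_congr rfl fun i _ => ?_
    rw [Polynomial.iterate_derivative_sum, Polynomial.eval_finsetSum]
    refine Finset.sum_congr rfl fun j _ => ?_
    split_ifs with h
    · rw [Polynomial.iterate_derivative_C_mul, Polynomial.eval_mul, Polynomial.eval_C, ih]
    · rw [Polynomial.iterate_derivative_zero, Polynomial.eval_zero]

theorem detRow_shift (X Y : Mat N) (z : ℂ) (c : Idx N) :
    ∑ k ∈ range (N + 1), (z ^ k / (k.factorial : ℂ)) * ((((dA Y) ^ k) (detRow X) c : ℝ) : ℂ) =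
      detRowC (X.map Complex.ofReal + z • Y.map Complex.ofReal) c := by
  have h1 : Polynomial.aeval z (SHIFT_P X Y c) =
      detRowC (X.map Complex.ofReal + z • Y.map Complex.ofReal) c := by
    unfold SHIFT_P detRowC
    rw [AlgHom.map_det]
    congr 1
    ext i j
    simp only [AlgHom.mapMatrix_apply, Matrix.map_apply, Matrix.add_apply, Matrix.smul_apply,
      smul_eq_mul, map_add, map_mul, Polynomial.aeval_X, Polynomial.aeval_C, SHIFT_A, SHIFT_B,
      Matrix.of_apply, Complex.coe_algebraMap]
    rcases h : c i with _ | l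
    · simp only [Matrix.add_apply, Matrix.smul_apply, smul_eq_mul, Matrix.map_apply]
      ring
    · simp only [Pi.zero_apply, Complex.ofReal_zero, mul_zero, zero_add, Pi.single_apply]
      split_ifs <;> simp
  rw [← h1, Polynomial.aeval_eq_sum_range' (Nat.lt_succ_of_le (SHIFT_natDegree X Y c))]
  refine Finset.sum_congr rfl fun k _ => ?_
  have h2 := SHIFT_iterate X Y 0 k c
  rw [zero_smul, add_zero, ← Polynomial.coeff_zero_eq_eval_zero,
    Polynomial.coeff_iterate_derivative, zero_add, Nat.descFactorial_self, nsmul_eq_mul] at h2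
  rw [← h2]
  have h3 : (k.factorial : ℂ) ≠ 0 := by exact_mod_cast k.factorial_ne_zero
  push_cast
  rw [Algebra.smul_def]
  simp only [Complex.coe_algebraMap]
  field_simp

/-- The translates of the determinant. -/
theorem E_dA_detRow (X Y : Mat N) : E (dA Y) (detRow X) = detRow (X + Y) := by
  funext c
  rw [E_apply]
  have h1 : detRow (X + Y) c = (SHIFT_P X Y c).eval 1 := by
    rw [SHIFT_eval, one_smul]
  rw [h1, Polynomial.eval_eq_sum_range' (Nat.lt_succ_of_le (SHIFT_natDegree X Y c)),
    Finset.sum_apply]
  refine Finset.sum_congr rfl fun k _ => ?_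
  have h2 := SHIFT_iterate X Y 0 k c
  rw [zero_smul, add_zero, ← Polynomial.coeff_zero_eq_eval_zero,
    Polynomial.coeff_iterate_derivative, zero_add, Nat.descFactorial_self, nsmul_eq_mul] at h2
  rw [Pi.smul_apply, smul_eq_mul, ← h2]
  have h3 : (k.factorial : ℝ) ≠ 0 := by exact_mod_cast k.factorial_ne_zero
  field_simp
  simp

theorem E_dA_detP (X : Mat N) : E (dA X) detP = detRow X := by
  unfold detP
  rw [E_dA_detRow, zero_add]

end Pool.Agent.H88S
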