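import Pool.Agent.Lib.H88S.LineP
import Pool.Agent.Lib.H88S.Shift

/-!
# H88S chunk BOUNDS: uniform bounds for the translates

Let `X` be real symmetric, `y > 0`, `Z = X + i y 1`.

(1) `Z` is invertible and the entries of `Z⁻¹` are bounded by `1 / y`:
`‖Z v‖² = ‖X v‖² + y² ‖v‖²` for complex `v` (Hermitian `X`), so `‖Z v‖ ≥ y ‖v‖`, and
`Z Z⁻¹ e_j = e_j`.

(2) Let `M` be a complex matrix each of whose rows is a row `Z i`, a row `X i`, or `e_j`.  Then
`M = E' Z` where the rows of `E'` are `e_i`, `e_i - i y (Z⁻¹) i`, `(Z⁻¹) j` respectively.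
The entries of these rows are bounded by `1`, `2`, `1 / y`. So
`|det M| = |det E'| |det Z| ≤ N! ∏ (bounds) |det Z|` (Leibniz formula).

(3) In particular, for `y ≥ 1`: `|detRowC Z c| ≤ N! y⁻¹ |det Z|` for `c ≠ none0`,
`|detRowC Z c| ≤ N! |det Z|` for all `c`, and `|detRow X c| ≤ N! 2 ^ N |det Z|`.

(4) Let `V ∈ U N` as in the statement, `G = detRow X`.  As `V` commutes with `dg`,
`cev (lineP (V G)) (i y) = ∑_k (i y) ^ k / k! * ev0 (V (dg ^ k G))
= ∑_c e_c * (∑_k (i y) ^ k / k! * (dg ^ k G) c) = ∑_c e_c * detRowC Z c`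
where `e_c = ev0 (V (Pi.single c 1))` (real) and the last step is `detRow_shift` with `Y = 1`
(`dA_one`).  With `e_{none0} = 1` and `|e_c| ≤ K`:
`|cev - det Z| ≤ (number of indices) K N! y⁻¹ |det Z| ≤ |det Z| / 2` for
`y ≥ C := max 1 (2 * (N + 1) ^ N * K * N!)`.  Since `det Z ≠ 0` this gives the first claim.

(5) `‖V G‖ ≤ (number of indices) K max_c |G c| ≤ C'' |det Z| ≤ 2 C'' |cev (i C)|` with `y = C`.
-/

open Finset Filter Topology Polynomial

namespace Pool.Agent.H88S

variable {N : ℕ}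

/-- `X + z 1` -/
noncomputable def BOUNDS_Z (X : Mat N) (z : ℂ) : Matrix (Fin N) (Fin N) ℂ :=
  X.map Complex.ofReal + z • (1 : Mat N).map Complex.ofReal

theorem BOUNDS_Z_apply (X : Mat N) (z : ℂ) (i j : Fin N) :
    BOUNDS_Z X z i j = (X i j : ℂ) + z * (if i = j then 1 else 0) := by
  unfold BOUNDS_Z
  simp only [Matrix.add_apply, Matrix.map_apply, Matrix.smul_apply, smul_eq_mul, Matrix.one_apply]
  split_ifs <;> simp

theorem BOUNDS_form {X : Mat N} (hX : X.IsSymm) (y : ℝ) (v : Fin N → ℂ) :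
    (∑ i, (starRingEnd ℂ) (v i) * (Matrix.mulVec (BOUNDS_Z X (y * Complex.I)) v) i).im =
      y * ∑ i, ‖v i‖ ^ 2 := by
  have h1 : ∀ i, (starRingEnd ℂ) (v i) * (Matrix.mulVec (BOUNDS_Z X (y * Complex.I)) v) i =
      (∑ j, (starRingEnd ℂ) (v i) * (X i j : ℂ) * v j) + (y * Complex.I) * ((‖v i‖ ^ 2 : ℝ) : ℂ) := by
    intro i
    simp only [Matrix.mulVec, dotProduct, BOUNDS_Z_apply, add_mul, Finset.sum_add_distrib, mul_add,
      Finset.mul_sum]
    congr 1
    · refine Finset.sum_congr rfl fun j _ => by ring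
    · rw [Finset.sum_eq_single i]
      · rw [if_pos rfl]
        push_cast
        rw [← Complex.conj_mul' (v i)]
        ring
      · intro j _ hj
        rw [if_neg (Ne.symm hj)]
        ring
      · intro h
        exact absurd (Finset.mem_univ i) h
  simp only [h1, Finset.sum_add_distrib]
  set S : ℂ := ∑ i, ∑ j, (starRingEnd ℂ) (v i) * (X i j : ℂ) * v j with hS
  have hSr : (starRingEnd ℂ) S = S := by
    rw [hS, map_sum]
    simp only [map_sum, map_mul, Complex.conj_conj, Complex.conj_ofReal]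
    rw [Finset.sum_comm]
    refine Finset.sum_congr rfl fun i _ => Finset.sum_congr rfl fun j _ => ?_
    have : X j i = X i j := hX.apply i j
    rw [this]
    ring
  have hSi : S.im = 0 := Complex.conj_eq_iff_im.1 hSr
  rw [Complex.add_im, hSi, zero_add, ← Finset.mul_sum, ← Complex.ofReal_sum]
  generalize ∑ i, ‖v i‖ ^ 2 = a
  rw [show (y : ℂ) * Complex.I * (a : ℂ) = ((y * a : ℝ) : ℂ) * Complex.I by push_cast; ring,
    Complex.im_ofReal_mul, Complex.I_im, mul_one]

theorem BOUNDS_det_ne {X : Mat N} (hX : X.IsSymm) {y : ℝ} (hy : 0 < y) :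
    (BOUNDS_Z X (y * Complex.I)).det ≠ 0 := by
  intro h0
  obtain ⟨v, hv, hv2⟩ := Matrix.exists_mulVec_eq_zero_iff.2 h0
  have h1 := BOUNDS_form hX y v
  rw [hv2] at h1
  simp only [Pi.zero_apply, mul_zero, Finset.sum_const_zero, Complex.zero_im] at h1
  have h2 : ∑ i, ‖v i‖ ^ 2 = 0 := by
    rcases mul_eq_zero.1 h1.symm with h | h
    · exact absurd h hy.ne'
    · exact h
  apply hv
  funext i
  have h3 := (Finset.sum_eq_zero_iff_of_nonneg (fun i _ => sq_nonneg ‖v i‖)).1 h2 i (Finset.mem_univ i)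
  have h4 : ‖v i‖ = 0 := by
    exact pow_eq_zero_iff (two_ne_zero) |>.1 h3
  exact norm_eq_zero.1 h4

theorem BOUNDS_inv {X : Mat N} (hX : X.IsSymm) {y : ℝ} (hy : 0 < y) (i j : Fin N) :
    ‖(BOUNDS_Z X (y * Complex.I))⁻¹ i j‖ ≤ 1 / y := by
  set Z := BOUNDS_Z X (y * Complex.I) with hZ
  have hdet : IsUnit Z.det := isUnit_iff_ne_zero.2 (BOUNDS_det_ne hX hy)
  set v : Fin N → ℂ := fun i => Z⁻¹ i j with hv
  have hmul : Matrix.mulVec Z v = Pi.single j 1 := by
    have h1 : Z * Z⁻¹ = 1 := Matrix.mul_nonsing_inv Z hdet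
    funext i
    have h2 := congrFun (congrFun h1 i) j
    rw [Matrix.mul_apply] at h2
    simp only [Matrix.mulVec, dotProduct, hv]
    rw [h2, Matrix.one_apply, Pi.single_apply]
  have h1 := BOUNDS_form hX y v
  rw [← hZ, hmul] at h1
  have h2 : ∑ i, (starRingEnd ℂ) (v i) * (Pi.single j (1 : ℂ) : Fin N → ℂ) i = (starRingEnd ℂ) (v j) := by
    rw [Finset.sum_eq_single j]
    · simp
    · intro k _ hk
      rw [Pi.single_eq_of_ne hk]
      ring
    · intro h
      exact absurd (Finset.mem_univ j) h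
  rw [h2] at h1
  have h3 : y * ∑ i, ‖v i‖ ^ 2 ≤ ‖v j‖ := by
    rw [← h1]
    refine (le_abs_self _).trans ((Complex.abs_im_le_norm _).trans ?_)
    rw [RCLike.norm_conj]
  have h4 : ∀ k, y * ‖v k‖ ^ 2 ≤ ‖v j‖ := by
    intro k
    refine le_trans ?_ h3
    refine mul_le_mul_of_nonneg_left ?_ hy.le
    exact Finset.single_le_sum (f := fun i => ‖v i‖ ^ 2) (fun i _ => sq_nonneg _) (Finset.mem_univ k)
  have h5 : ‖v j‖ ≤ 1 / y := by
    rw [le_div_iff₀ hy]
    have := h4 j
    by_contra hc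
    push Not at hc
    have hpos : 0 < ‖v j‖ := by
      by_contra h0
      push Not at h0
      have : ‖v j‖ = 0 := le_antisymm h0 (norm_nonneg _)
      rw [this] at hc
      linarith
    nlinarith
  have h6 : ‖v i‖ ^ 2 ≤ (1 / y) ^ 2 := by
    have := (h4 i).trans h5
    rw [div_pow, one_pow, le_div_iff₀ (by positivity)]
    rw [le_div_iff₀ hy] at this
    nlinarith
  exact (pow_le_pow_iff_left₀ (norm_nonneg _) (by positivity) two_ne_zero).1 h6

/-- Leibniz bound -/
theorem BOUNDS_leibniz (A : Matrix (Fin N) (Fin N) ℂ) (b : Fin N → ℝ)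
    (h : ∀ i j, ‖A i j‖ ≤ b i) : ‖A.det‖ ≤ N.factorial * ∏ i, b i := by
  rw [Matrix.det_apply]
  refine (norm_sum_le _ _).trans ?_
  have h1 : ∀ σ : Equiv.Perm (Fin N), ‖Equiv.Perm.sign σ • ∏ i, A (σ i) i‖ ≤ ∏ i, b i := by
    intro σ
    have e1 : ‖Equiv.Perm.sign σ • ∏ i, A (σ i) i‖ = ∏ i, ‖A (σ i) i‖ := by
      rcases Int.units_eq_one_or (Equiv.Perm.sign σ) with h | h <;> rw [h] <;> simp [norm_prod]
    rw [e1, ← Equiv.prod_comp σ b]
    exact Finset.prod_le_prod (fun i _ => norm_nonneg _) fun i _ => h (σ i) i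
  refine (Finset.sum_le_sum fun σ _ => h1 σ).trans ?_
  rw [Finset.sum_const, Finset.card_univ, Fintype.card_perm, Fintype.card_fin, nsmul_eq_mul]

/-- general form of (2) -/
theorem BOUNDS_rows (Z A B : Matrix (Fin N) (Fin N) ℂ) (b : Fin N → ℝ) (hA : A = B * Z)
    (h : ∀ i j, ‖B i j‖ ≤ b i) : ‖A.det‖ ≤ (N.factorial * ∏ i, b i) * ‖Z.det‖ := by
  rw [hA, Matrix.det_mul, norm_mul]
  exact mul_le_mul_of_nonneg_right (BOUNDS_leibniz B b h) (norm_nonneg _)

/-- the matrix `E'` for `detRowC` -/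
theorem BOUNDS_detRowC {X : Mat N} (hX : X.IsSymm) {y : ℝ} (hy : 1 ≤ y) (c : Idx N) :
    ‖detRowC (BOUNDS_Z X (y * Complex.I)) c‖ ≤
      (N.factorial * ∏ i, (if c i = none then 1 else 1 / y)) * ‖(BOUNDS_Z X (y * Complex.I)).det‖ := by
  have hy0 : 0 < y := by linarith
  set Z := BOUNDS_Z X (y * Complex.I) with hZ
  have hdet : IsUnit Z.det := isUnit_iff_ne_zero.2 (BOUNDS_det_ne hX hy0)
  have hinv : Z⁻¹ * Z = 1 := Matrix.nonsing_inv_mul Z hdet
  unfold detRowC
  refine BOUNDS_rows Z _ (Matrix.of fun i => match c i with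
    | none => Pi.single i 1
    | some j => Z⁻¹ j) _ ?_ ?_
  · ext i k
    rw [Matrix.mul_apply]
    simp only [Matrix.of_apply]
    cases hc : c i with
    | none =>
      simp only
      rw [Finset.sum_eq_single i]
      · simp
      · intro l _ hl
        rw [Pi.single_eq_of_ne hl]
        ring
      · intro h
        exact absurd (Finset.mem_univ i) h
    | some j =>
      simp only
      have := congrFun (congrFun hinv j) k
      rw [Matrix.mul_apply] at this
      rw [this, Matrix.one_apply, Pi.single_apply]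
      simp only [eq_comm]
  · intro i k
    simp only [Matrix.of_apply]
    cases hc : c i with
    | none =>
      simp only [if_true]
      rw [Pi.single_apply]
      split_ifs <;> simp
    | some j =>
      simp only [reduceCtorEq, if_false]
      exact BOUNDS_inv hX hy0 j k

theorem BOUNDS_detRowC1 {X : Mat N} (hX : X.IsSymm) {y : ℝ} (hy : 1 ≤ y) {c : Idx N} (hc : c ≠ none0) :
    ‖detRowC (BOUNDS_Z X (y * Complex.I)) c‖ ≤
      (N.factorial * (1 / y)) * ‖(BOUNDS_Z X (y * Complex.I)).det‖ := by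
  refine (BOUNDS_detRowC hX hy c).trans ?_
  have hy0 : 0 < y := by linarith
  have h1 : ∏ i, (if c i = none then (1 : ℝ) else 1 / y) ≤ 1 / y := by
    obtain ⟨i0, hi0⟩ : ∃ i, c i ≠ none := by
      by_contra h
      push Not at h
      exact hc (funext h)
    rw [← Finset.mul_prod_erase Finset.univ _ (Finset.mem_univ i0), if_neg hi0]
    refine mul_le_of_le_one_right (by positivity) ?_
    refine Finset.prod_le_one (fun i _ => ?_) fun i _ => ?_
    · split_ifs <;> positivity
    · split_ifs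
      · exact le_rfl
      · rw [div_le_one hy0]; exact hy
  gcongr

theorem BOUNDS_detRowC0 (Z : Matrix (Fin N) (Fin N) ℂ) : detRowC Z none0 = Z.det := by
  unfold detRowC none0
  rfl

theorem BOUNDS_detRow {X : Mat N} (hX : X.IsSymm) {y : ℝ} (hy : 1 ≤ y) (c : Idx N) :
    |detRow X c| ≤ (N.factorial * 2 ^ N) * ‖(BOUNDS_Z X (y * Complex.I)).det‖ := by
  have hy0 : 0 < y := by linarith
  set Z := BOUNDS_Z X (y * Complex.I) with hZ
  have hdet : IsUnit Z.det := isUnit_iff_ne_zero.2 (BOUNDS_det_ne hX hy0)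
  have hinv : Z⁻¹ * Z = 1 := Matrix.nonsing_inv_mul Z hdet
  have hcast : ((detRow X c : ℝ) : ℂ) = Matrix.det (Matrix.of fun i => match c i with
    | none => fun k => ((X i k : ℝ) : ℂ)
    | some j => (Pi.single j 1 : Fin N → ℂ)) := by
    unfold detRow
    rw [← Complex.ofRealHom_eq_coe, RingHom.map_det]
    congr 1
    ext i k
    simp only [RingHom.mapMatrix_apply, Matrix.map_apply, Matrix.of_apply]
    cases c i with
    | none => simp
    | some j =>
      simp only [Pi.single_apply]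
      split_ifs <;> simp
  have h1 : |detRow X c| = ‖((detRow X c : ℝ) : ℂ)‖ := by
    rw [Complex.norm_real, Real.norm_eq_abs]
  rw [h1, hcast]
  have h2 : (2 : ℝ) ^ N = ∏ _i : Fin N, (2 : ℝ) := by simp
  rw [h2]
  refine BOUNDS_rows Z _ (Matrix.of fun i => match c i with
    | none => fun k => (Pi.single i 1 : Fin N → ℂ) k - (y * Complex.I) * Z⁻¹ i k
    | some j => Z⁻¹ j) _ ?_ ?_
  · ext i k
    rw [Matrix.mul_apply]
    simp only [Matrix.of_apply]
    cases hc : c i with
    | none =>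
      simp only [sub_mul, Finset.sum_sub_distrib]
      rw [Finset.sum_eq_single i]
      · have e1 : ∑ l, (y * Complex.I) * Z⁻¹ i l * Z l k = (y * Complex.I) * (Z⁻¹ * Z) i k := by
          rw [Matrix.mul_apply, Finset.mul_sum]
          refine Finset.sum_congr rfl fun l _ => by ring
        rw [e1, hinv, Matrix.one_apply, hZ, BOUNDS_Z_apply]
        simp
      · intro l _ hl
        rw [Pi.single_eq_of_ne hl]
        ring
      · intro h
        exact absurd (Finset.mem_univ i) h
    | some j =>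
      simp only
      have := congrFun (congrFun hinv j) k
      rw [Matrix.mul_apply] at this
      rw [this, Matrix.one_apply, Pi.single_apply]
      simp only [eq_comm]
  · intro i k
    simp only [Matrix.of_apply]
    cases hc : c i with
    | none =>
      simp only
      refine (norm_sub_le _ _).trans ?_
      have e1 : ‖(Pi.single i 1 : Fin N → ℂ) k‖ ≤ 1 := by
        rw [Pi.single_apply]
        split_ifs <;> simp
      have e2 : ‖(y * Complex.I) * Z⁻¹ i k‖ ≤ 1 := by
        rw [norm_mul, norm_mul, Complex.norm_I, mul_one, Complex.norm_real, Real.norm_eq_abs,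
          abs_of_pos hy0]
        have := BOUNDS_inv hX hy0 i k
        rw [le_div_iff₀ hy0] at this
        rw [mul_comm]
        exact this
      linarith
    | some j =>
      simp only
      refine (BOUNDS_inv hX hy0 j k).trans ?_
      rw [div_le_iff₀ hy0]
      linarith

/-- expansion in the standard basis -/
theorem BOUNDS_expand (V : Op N) (H : PP N) (c' : Idx N) :
    V H c' = ∑ c, H c * V (Pi.single c 1) c' := by
  have h1 : H = ∑ c, H c • (Pi.single c 1 : PP N) := by
    funext c0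
    rw [Finset.sum_apply, Finset.sum_eq_single c0]
    · simp
    · intro c _ hc
      rw [Pi.smul_apply, Pi.single_eq_of_ne (Ne.symm hc)]
      simp
    · intro h
      exact absurd (Finset.mem_univ c0) h
  conv_lhs => rw [h1]
  rw [map_sum, Finset.sum_apply]
  refine Finset.sum_congr rfl fun c _ => ?_
  rw [map_smul, Pi.smul_apply, smul_eq_mul]

theorem BOUNDS_cev {V : Op N} (hV : V ∈ U N) (X : Mat N) (z : ℂ) :
    cev (lineP (V (detRow X))) z =
      ∑ c, ((V (Pi.single c 1) none0 : ℝ) : ℂ) * detRowC (BOUNDS_Z X z) c := by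
  rw [cev_lineP]
  have h1 : ∀ k, ev0 ((dg ^ k : Op N) (V (detRow X))) =
      ∑ c, ((dg ^ k : Op N) (detRow X)) c * V (Pi.single c 1) none0 := by
    intro k
    have hc : Commute (dg ^ k : Op N) V := (U_comm dg_mem hV).pow_left k
    have h2 : (dg ^ k : Op N) (V (detRow X)) = V ((dg ^ k : Op N) (detRow X)) :=
      congrFun (congrArg DFunLike.coe hc.eq) (detRow X)
    rw [h2]
    exact BOUNDS_expand V _ none0
  have h3 : ∀ c, detRowC (BOUNDS_Z X z) c =
      ∑ k ∈ range (N + 1), (z ^ k / (k.factorial : ℂ)) * (((dg ^ k : Op N) (detRow X) c : ℝ) : ℂ) := by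
    intro c
    have := detRow_shift X 1 z c
    rw [dA_one] at this
    exact this.symm
  simp only [h1, h3, Finset.mul_sum]
  rw [Finset.sum_comm]
  refine Finset.sum_congr rfl fun k _ => ?_
  push_cast
  rw [Finset.mul_sum]
  refine Finset.sum_congr rfl fun c _ => by ring

theorem bounds (N : ℕ) (K : ℝ) : ∃ C : ℝ, 1 ≤ C ∧ ∃ C' : ℝ, 0 < C' ∧ ∀ V : Op N, V ∈ U N →
    ev0 (V (Pi.single none0 1)) = 1 → (∀ c c' : Idx N, |V (Pi.single c 1) c'| ≤ K) →
    ∀ X : Mat N, X.IsSymm →
      (∀ y : ℝ, C ≤ y → cev (lineP (V (detRow X))) (y * Complex.I) ≠ 0) ∧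
      ‖V (detRow X)‖ ≤ C' * ‖cev (lineP (V (detRow X))) (C * Complex.I)‖ := by
  set M : ℝ := (Fintype.card (Idx N) : ℝ) with hM
  have hM0 : 0 ≤ M := by positivity
  set F : ℝ := (N.factorial : ℝ) with hF
  have hF0 : 0 < F := by positivity
  set C : ℝ := max 1 (2 * (M * |K| * F)) with hC
  refine ⟨C, le_max_left _ _, 2 * (M * |K| * (F * 2 ^ N)) + 1, by positivity, ?_⟩
  intro V hV h1 hK X hX
  have hKabs : ∀ c c' : Idx N, |V (Pi.single c 1) c'| ≤ |K| := fun c c' => (hK c c').trans (le_abs_self K)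
  -- main estimate
  have key : ∀ y : ℝ, C ≤ y → ‖(BOUNDS_Z X (y * Complex.I)).det‖ ≤
      2 * ‖cev (lineP (V (detRow X))) (y * Complex.I)‖ := by
    intro y hy
    have hy1 : 1 ≤ y := (le_max_left _ _).trans hy
    have hy2 : 2 * (M * |K| * F) ≤ y := (le_max_right _ _).trans hy
    have hy0 : 0 < y := by linarith
    set Z := BOUNDS_Z X (y * Complex.I) with hZ
    have hsum : cev (lineP (V (detRow X))) (y * Complex.I) - Z.det =
        ∑ c ∈ Finset.univ.erase none0, ((V (Pi.single c 1) none0 : ℝ) : ℂ) * detRowC Z c := by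
      rw [BOUNDS_cev hV, ← Finset.add_sum_erase Finset.univ _ (Finset.mem_univ none0)]
      have : V (Pi.single none0 1) none0 = 1 := h1
      rw [this, BOUNDS_detRowC0]
      push_cast
      ring
    have hle : ‖cev (lineP (V (detRow X))) (y * Complex.I) - Z.det‖ ≤ ‖Z.det‖ / 2 := by
      rw [hsum]
      refine (norm_sum_le _ _).trans ?_
      have h2 : ∀ c ∈ Finset.univ.erase (none0 : Idx N),
          ‖((V (Pi.single c 1) none0 : ℝ) : ℂ) * detRowC Z c‖ ≤ |K| * ((F * (1 / y)) * ‖Z.det‖) := by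
        intro c hc
        rw [norm_mul, Complex.norm_real, Real.norm_eq_abs]
        exact mul_le_mul (hKabs _ _) (BOUNDS_detRowC1 hX hy1 (Finset.ne_of_mem_erase hc))
          (norm_nonneg _) (abs_nonneg _)
      refine (Finset.sum_le_card_nsmul _ _ _ h2).trans ?_
      rw [nsmul_eq_mul]
      have h3 : ((Finset.univ.erase (none0 : Idx N)).card : ℝ) ≤ M := by
        rw [hM]
        exact_mod_cast Finset.card_le_univ _
      have h4 : 0 ≤ |K| * ((F * (1 / y)) * ‖Z.det‖) := by positivity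
      refine (mul_le_mul_of_nonneg_right h3 h4).trans ?_
      have h5 : M * (|K| * (F * (1 / y) * ‖Z.det‖)) = (M * |K| * F) / y * ‖Z.det‖ := by ring
      rw [h5]
      have h6 : (M * |K| * F) / y ≤ 1 / 2 := by
        rw [div_le_iff₀ hy0]
        linarith
      have := mul_le_mul_of_nonneg_right h6 (norm_nonneg Z.det)
      linarith
    have h7 : ‖Z.det‖ ≤ ‖cev (lineP (V (detRow X))) (y * Complex.I)‖ +
        ‖cev (lineP (V (detRow X))) (y * Complex.I) - Z.det‖ := by
      have := norm_sub_le (cev (lineP (V (detRow X))) (y * Complex.I))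
        (cev (lineP (V (detRow X))) (y * Complex.I) - Z.det)
      rwa [sub_sub_cancel] at this
    linarith
  constructor
  · intro y hy h0
    have h2 := key y hy
    rw [h0, norm_zero, mul_zero] at h2
    have hy0 : 0 < y := lt_of_lt_of_le one_pos ((le_max_left _ _).trans hy)
    exact BOUNDS_det_ne hX hy0 (norm_le_zero_iff.1 h2)
  · have hCC : 1 ≤ C := le_max_left _ _
    have h2 := key C le_rfl
    set w := ‖cev (lineP (V (detRow X))) (C * Complex.I)‖ with hw
    have hw0 : 0 ≤ w := norm_nonneg _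
    refine (pi_norm_le_iff_of_nonneg (by positivity)).2 fun c' => ?_
    rw [BOUNDS_expand V (detRow X) c', Real.norm_eq_abs]
    refine (Finset.abs_sum_le_sum_abs _ _).trans ?_
    have h3 : ∀ c ∈ (Finset.univ : Finset (Idx N)), |detRow X c * V (Pi.single c 1) c'| ≤
        ((F * 2 ^ N) * (2 * w)) * |K| := by
      intro c _
      rw [abs_mul]
      refine mul_le_mul ?_ (hKabs c c') (abs_nonneg _) (by positivity)
      exact (BOUNDS_detRow hX hCC c).trans (mul_le_mul_of_nonneg_left h2 (by positivity))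
    refine (Finset.sum_le_card_nsmul _ _ _ h3).trans ?_
    rw [nsmul_eq_mul, Finset.card_univ, ← hM]
    have h4 : M * (F * 2 ^ N * (2 * w) * |K|) = (2 * (M * |K| * (F * 2 ^ N))) * w := by ring
    rw [h4, add_mul, one_mul]
    linarith

end Pool.Agent.H88S
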