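import Pool.Agent.Lib.H88S.Cond
import Mathlib

/-!
# H88S: a curvature condition of quadratic maps between spheres and the Gauss–Bonnet integrand

Definitions. `N` is a natural number (later `N = 2 n`), `Mat N` the real `N × N` matrices.

* `PP N`: coefficient space of the polynomials in the entries of an `N × N` matrix which are affine
  in each row.  An index `c : Fin N → Option (Fin N)` stands for the monomial
  `∏ X i j` over the `i` with `c i = some j`.
* `dd i j`: the partial derivative with respect to the entry `(i, j)`.
* `dA A = ∑ A i j ∂_{ij}`, `dg = ∑ ∂_{ii}`, `dR R = ∑ R i j k l ∂_{ik} ∂_{jl}`.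
* `E A`: the exponential series of an operator, truncated at `A ^ N`
  (exact for operators of positive degree, `Pos A`).
* `ev0 G`: the value at the zero matrix. `detRow X`: the translate of the determinant by `X`.
* `lineP G`: the polynomial `z ↦ G (z • 1)`.
* `RR N p`: closed form of: `p = 0` or all the roots of `p` are real.
-/

open Finset

namespace Pool.Agent.H88S

open Pool.Agent.H69Hopf

abbrev Idx (N : ℕ) := Fin N → Option (Fin N)

abbrev PP (N : ℕ) := Idx N → ℝ

abbrev Op (N : ℕ) := Module.End ℝ (PP N)

variable {N : ℕ}

/-- Partial derivative with respect to the entry `(i, j)`. -/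
def dd (i j : Fin N) : Op N where
  toFun G := fun c => if c i = none then G (Function.update c i (some j)) else 0
  map_add' G H := by
    funext c
    by_cases h : c i = none <;> simp [h]
  map_smul' a G := by
    funext c
    by_cases h : c i = none <;> simp [h]

theorem dd_apply (i j : Fin N) (G : PP N) (c : Idx N) :
    dd i j G c = if c i = none then G (Function.update c i (some j)) else 0 := rfl

/-- `∑ A i j ∂_{ij}`. -/
noncomputable def dA (A : Mat N) : Op N := ∑ i, ∑ j, A i j • dd i j

/-- Derivative in the direction of the identity matrix. -/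
noncomputable def dg : Op N := ∑ i : Fin N, dd i i

/-- `∑ R i j k l ∂_{ik} ∂_{jl}`. -/
noncomputable def dR (R : Arr N) : Op N := ∑ i, ∑ j, ∑ k, ∑ l, R i j k l • (dd i k * dd j l)

/-- Truncated exponential series. -/
noncomputable def E (A : Op N) : Op N :=
  ∑ k ∈ range (N + 1), ((k.factorial : ℝ)⁻¹) • A ^ k

/-- The index of the constant monomial. -/
def none0 : Idx N := fun _ => none

/-- Value at the zero matrix. -/
def ev0 (G : PP N) : ℝ := G none0

/-- The translate by `X` of the determinant, in coefficients: the coefficient of the monomial `c`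
is the determinant of the matrix with rows `X i` (if `c i = none`) or `e_j` (if
`c i = some j`). -/
noncomputable def detRow (X : Mat N) : PP N := fun c =>
  Matrix.det (Matrix.of fun i => match c i with
    | none => X i
    | some j => Pi.single j 1)

/-- The same with complex entries. -/
noncomputable def detRowC (Z : Matrix (Fin N) (Fin N) ℂ) : Idx N → ℂ := fun c =>
  Matrix.det (Matrix.of fun i => match c i with
    | none => Z i
    | some j => Pi.single j 1)

/-- The determinant polynomial. -/
noncomputable def detP : PP N := detRow 0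

/-- Number of indices `i` with `c i ≠ none`. -/
def wt (c : Idx N) : ℕ := (univ.filter fun i => c i ≠ none).card

/-- Operators of positive degree. -/
def Pos (A : Op N) : Prop :=
  ∀ (r : ℕ) (G : PP N), (∀ c, r ≤ wt c → G c = 0) → ∀ c, r ≤ wt c + 1 → A G c = 0

/-- The commutative algebra generated by the partial derivatives. -/
def U (N : ℕ) : Subalgebra ℝ (Op N) :=
  Algebra.adjoin ℝ (Set.range fun p : Fin N × Fin N => dd p.1 p.2)

/-- `∂_{ik} ∂_{jl} G = - ∂_{il} ∂_{jk} G`. -/
def Anti (G : PP N) : Prop := ∀ i j k l, dd i k (dd j l G) = - dd i l (dd j k G)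

/-- The polynomial `z ↦ G (z • 1)`. -/
noncomputable def lineP (G : PP N) : Polynomial ℝ :=
  ∑ k ∈ range (N + 1), Polynomial.C (ev0 ((dg ^ k) G) / k.factorial) * Polynomial.X ^ k

/-- Value of a real polynomial at a complex number. -/
noncomputable def cev (p : Polynomial ℝ) (z : ℂ) : ℂ := Polynomial.aeval z p

/-- For a real polynomial of degree `≤ N`, this means that `p = 0` or that all the complex roots of
`p` are real.  It is a closed condition. -/
def RR (N : ℕ) (p : Polynomial ℝ) : Prop :=
  ∀ x y y' : ℝ, 0 < y → y ≤ y' →
    y ^ N * ‖cev p (x + y' * Complex.I)‖ ≤ y' ^ N * ‖cev p (x + y * Complex.I)‖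

/-- All translates by symmetric matrices have a real-rooted restriction to the line `z • 1`. -/
def Good (G : PP N) : Prop := ∀ X : Mat N, X.IsSymm → RR N (lineP (E (dA X) G))

/-- All complex roots are real. -/
def RealRooted (p : Polynomial ℝ) : Prop := ∀ z : ℂ, cev p z = 0 → z.im = 0

/-- The path `exp (-t (𝒟_R + δ ∂_g²)) exp (-η ∂_g²) det`. -/
noncomputable def path (R : Arr N) (δ η t : ℝ) : PP N :=
  E ((-t) • (dR R + δ • dg ^ 2)) (E ((-η) • dg ^ 2) detP)

/-- The heat operator `exp (-η ∂²)` on polynomials of degree `≤ N`. -/
noncomputable def heat (N : ℕ) (η : ℝ) (p : Polynomial ℝ) : Polynomial ℝ :=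
  ∑ k ∈ range (N + 1),
    Polynomial.C ((-η) ^ k / k.factorial) * (Polynomial.derivative^[2 * k] p)

end Pool.Agent.H88S
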