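import Pool.Agent.Lib.H88S.RRPoly

/-!
# H88S chunk EVEN: signs of the coefficients of an even real-rooted polynomial

`p` real of degree `2 n` with leading coefficient `1`, odd coefficients `0`, real roots: then
`(-1) ^ (n - k) * p.coeff (2 k) ≥ 0`.

Proof (downwards induction on `k`): the derivative `q = p^{(2k)}` is real-rooted of positive degree
(`k < n`), and `q'(0) = 0`, so `q(0) q''(0) ≤ 0` by the Laguerre inequality, with strict inequality
if `q(0) ≠ 0`. Hence `coeff (2k)` and `coeff (2k+2)` have opposite signs, and `coeff (2k+2) = 0`
implies `coeff (2k) = 0`.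
-/

open Finset Filter Topology Polynomial

namespace Pool.Agent.H88S

theorem even_eval (p : Polynomial ℝ) (j : ℕ) :
    (Polynomial.derivative^[j] p).eval 0 = (j.factorial : ℝ) * p.coeff j := by
  rw [← coeff_zero_eq_eval_zero, coeff_iterate_derivative]
  simp [Nat.descFactorial_self]

theorem even_sign {n : ℕ} {p : Polynomial ℝ} (hRR : RR (2 * n) p) (hd : p.natDegree ≤ 2 * n)
    (h1 : p.coeff (2 * n) = 1) (hodd : ∀ k, Odd k → p.coeff k = 0) {k : ℕ} (hk : k ≤ n) :
    0 ≤ (-1) ^ (n - k) * p.coeff (2 * k) := by
  have key : ∀ m : ℕ, m ≤ n → 0 ≤ (-1 : ℝ) ^ m * p.coeff (2 * (n - m)) := by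
    intro m
    induction m with
    | zero => intro _; simp [h1]
    | succ m ih =>
      intro hm
      have hm' := ih (by omega)
      obtain ⟨k, hk⟩ : ∃ k, k = n - (m + 1) := ⟨_, rfl⟩
      have hk1 : n - m = k + 1 := by omega
      rw [hk1] at hm'
      rw [← hk]
      obtain ⟨hq, -⟩ := hRR.iterate_derivative hd (2 * k)
      set q := Polynomial.derivative^[2 * k] p with hqdef
      have hqc : q.coeff (2 * n - 2 * k) ≠ 0 := by
        rw [hqdef, coeff_iterate_derivative]
        have e : 2 * n - 2 * k + 2 * k = 2 * n := by omega
        rw [e, h1]
        simp only [nsmul_eq_mul, mul_one]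
        have : 0 < (2 * n).descFactorial (2 * k) := Nat.descFactorial_pos.2 (by omega)
        positivity
      have hq0 : q ≠ 0 := by
        intro h
        rw [h] at hqc
        simp at hqc
      have hdeg : 0 < q.natDegree := by
        have := le_natDegree_of_ne_zero hqc
        omega
      obtain ⟨l1, l2⟩ := (hq.realRooted hq0).laguerre 0
      have e0 : q.eval 0 = ((2 * k).factorial : ℝ) * p.coeff (2 * k) := even_eval p (2 * k)
      have e1 : (Polynomial.derivative q).eval 0 = 0 := by
        rw [hqdef, ← Function.iterate_succ_apply' (f := Polynomial.derivative), even_eval, hodd]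
        · ring
        · exact ⟨k, rfl⟩
      have e2 : (Polynomial.derivative (Polynomial.derivative q)).eval 0 =
          ((2 * (k + 1)).factorial : ℝ) * p.coeff (2 * (k + 1)) := by
        rw [hqdef, ← Function.iterate_succ_apply' (f := Polynomial.derivative),
          ← Function.iterate_succ_apply' (f := Polynomial.derivative), even_eval]
        rfl
      rw [e0, e1, e2] at l1
      rw [e0, e1, e2] at l2
      have f1 : (0 : ℝ) < ((2 * k).factorial : ℝ) := by positivity
      have f2 : (0 : ℝ) < ((2 * (k + 1)).factorial : ℝ) := by positivity
      by_cases hz : p.coeff (2 * (k + 1)) = 0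
      · have : p.coeff (2 * k) = 0 := by
          by_contra hne
          have := l2 (mul_ne_zero f1.ne' hne) hdeg
          rw [hz] at this
          simp at this
        rw [this]
        simp
      · set a := p.coeff (2 * k)
        set b := p.coeff (2 * (k + 1))
        have hab : a * b ≤ 0 := by
          by_contra hc
          push Not at hc
          have : 0 < (((2 * k).factorial : ℝ) * a) * (((2 * (k + 1)).factorial : ℝ) * b) := by
            have h3 : (((2 * k).factorial : ℝ) * a) * (((2 * (k + 1)).factorial : ℝ) * b) =
              (((2 * k).factorial : ℝ) * ((2 * (k + 1)).factorial : ℝ)) * (a * b) := by ring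
            rw [h3]
            positivity
          linarith
        have hs : ((-1 : ℝ) ^ m) ^ 2 = 1 := by
          rw [← pow_mul, mul_comm, pow_mul]
          norm_num
        set s := (-1 : ℝ) ^ m
        rw [pow_succ]
        have hsb : 0 < s * b := lt_of_le_of_ne hm' (by
          intro h
          rcases mul_eq_zero.1 h.symm with h4 | h4
          · rw [h4] at hs
            norm_num at hs
          · exact hz h4)
        by_contra hc
        push Not at hc
        have hsa : 0 < s * a := by linarith
        have := mul_pos hsa hsb
        have h5 : s * a * (s * b) = s ^ 2 * (a * b) := by ring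
        rw [h5, hs] at this
        linarith
  have := key (n - k) (by omega)
  have e : n - (n - k) = k := by omega
  rwa [e] at this

end Pool.Agent.H88S
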