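import Pool.Agent.Lib.H88S.Ops
import Pool.Agent.Lib.H88S.Shift

/-!
# H88S chunk WEIGHT: homogeneity

`detP c = 0` unless `wt c = N` (a zero row), and `dd i j` maps elements supported in weight `m + 1`
to elements supported in weight `m` (and kills those supported in weight `0`).
So `(dg ^ k * (dR R) ^ a) detP` is supported in weight `N - k - 2 a` (and is `0` if
`k + 2 a > N`).

`ev0 (dg ^ N detP) = N!`: evaluate `E (dA 1) detP = detRow 1` (`E_dA_detP`) at `0`; only the term
`k = N` of the exponential series contributes.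
-/

open Finset Filter Topology

namespace Pool.Agent.H88S

open Pool.Agent.H69Hopf

variable {N : ℕ}

/-- Operators lowering the weight by `d`. -/
def WEIGHT_Hom (d : ℕ) (A : Op N) : Prop :=
  ∀ (m : ℕ) (G : PP N), (∀ c, wt c ≠ m → G c = 0) → ∀ c, wt c + d ≠ m → A G c = 0

theorem WEIGHT_wt_update {c : Idx N} {i : Fin N} (h : c i = none) (j : Fin N) :
    wt (Function.update c i (some j)) = wt c + 1 := by
  classical
  unfold wt
  have h1 : (univ.filter fun k => Function.update c i (some j) k ≠ none) =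
      insert i (univ.filter fun k => c k ≠ none) := by
    ext k
    by_cases hk : k = i
    · subst hk
      simp
    · simp [hk]
  rw [h1, Finset.card_insert_of_notMem]
  simp [h]

theorem WEIGHT_dd (i j : Fin N) : WEIGHT_Hom 1 (dd i j : Op N) := by
  intro m G hG c hc
  rw [dd_apply]
  split_ifs with h
  · exact hG _ (by rw [WEIGHT_wt_update h]; exact hc)
  · rfl

theorem WEIGHT_zero (d : ℕ) : WEIGHT_Hom d (0 : Op N) := fun _ _ _ _ _ => rfl

theorem WEIGHT_one : WEIGHT_Hom 0 (1 : Op N) := fun _ _ hG c hc => hG c hc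

theorem WEIGHT_add {d : ℕ} {A B : Op N} (hA : WEIGHT_Hom d A) (hB : WEIGHT_Hom d B) :
    WEIGHT_Hom d (A + B) := by
  intro m G hG c hc
  rw [LinearMap.add_apply, Pi.add_apply, hA m G hG c hc, hB m G hG c hc, add_zero]

theorem WEIGHT_smul {d : ℕ} {A : Op N} (s : ℝ) (hA : WEIGHT_Hom d A) : WEIGHT_Hom d (s • A) := by
  intro m G hG c hc
  rw [LinearMap.smul_apply, Pi.smul_apply, hA m G hG c hc, smul_zero]

theorem WEIGHT_sum {ι : Type*} {d : ℕ} (s : Finset ι) {A : ι → Op N}
    (hA : ∀ i, WEIGHT_Hom d (A i)) : WEIGHT_Hom d (∑ i ∈ s, A i) := by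
  classical
  induction s using Finset.induction_on with
  | empty => rw [Finset.sum_empty]; exact WEIGHT_zero d
  | insert a s ha ih => rw [Finset.sum_insert ha]; exact WEIGHT_add (hA a) ih

theorem WEIGHT_mul {d e : ℕ} {A B : Op N} (hA : WEIGHT_Hom d A) (hB : WEIGHT_Hom e B) :
    WEIGHT_Hom (d + e) (A * B) := by
  intro m G hG c hc
  rw [Module.End.mul_apply]
  rcases Nat.lt_or_ge m e with h | h
  · have : B G = 0 := by
      funext c'
      exact hB m G hG c' (by omega)
    rw [this, map_zero]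
    rfl
  · exact hA (m - e) (B G) (fun c' hc' => hB m G hG c' (by omega)) c (by omega)

theorem WEIGHT_pow {d : ℕ} {A : Op N} (hA : WEIGHT_Hom d A) (k : ℕ) :
    WEIGHT_Hom (d * k) (A ^ k) := by
  induction k with
  | zero => rw [mul_zero, pow_zero]; exact WEIGHT_one
  | succ k ih => rw [pow_succ, mul_add, mul_one]; exact WEIGHT_mul ih hA

theorem WEIGHT_dg : WEIGHT_Hom 1 (dg : Op N) := WEIGHT_sum _ fun i => WEIGHT_dd i i

theorem WEIGHT_dR (R : Arr N) : WEIGHT_Hom 2 (dR R) :=
  WEIGHT_sum _ fun _ => WEIGHT_sum _ fun _ => WEIGHT_sum _ fun _ => WEIGHT_sum _ fun _ =>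
    WEIGHT_smul _ (WEIGHT_mul (WEIGHT_dd _ _) (WEIGHT_dd _ _))

theorem WEIGHT_detP (c : Idx N) (hc : wt c ≠ N) : detP c = 0 := by
  obtain ⟨i, hi⟩ : ∃ i, c i = none := by
    by_contra hcon
    push Not at hcon
    apply hc
    unfold wt
    rw [Finset.filter_true_of_mem fun i _ => hcon i, Finset.card_univ, Fintype.card_fin]
  unfold detP detRow
  apply Matrix.det_eq_zero_of_row_eq_zero i
  intro j
  simp [hi]

theorem WEIGHT_wt_none0 : wt (none0 : Idx N) = 0 := by
  unfold wt none0
  simp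

theorem ev0_weight (R : Arr N) (k a : ℕ) (h : k + 2 * a ≠ N) :
    ev0 ((dg ^ k * (dR R) ^ a : Op N) detP) = 0 := by
  have h1 : WEIGHT_Hom (1 * k + 2 * a) (dg ^ k * (dR R) ^ a : Op N) :=
    WEIGHT_mul (WEIGHT_pow WEIGHT_dg k) (WEIGHT_pow (WEIGHT_dR R) a)
  exact h1 N detP WEIGHT_detP none0 (by rw [WEIGHT_wt_none0]; omega)

theorem ev0_dg_pow : ev0 ((dg ^ N : Op N) detP) = N.factorial := by
  have h1 := congrFun (E_dA_detP (1 : Mat N)) none0
  rw [dA_one, E_apply, Finset.sum_apply] at h1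
  have h2 : detRow (1 : Mat N) none0 = 1 := by
    have h : detRow (1 : Mat N) none0 = (1 : Mat N).det := rfl
    rw [h, Matrix.det_one]
  rw [h2, Finset.sum_eq_single N] at h1
  · rw [Pi.smul_apply, smul_eq_mul] at h1
    have h3 : (N.factorial : ℝ) ≠ 0 := by exact_mod_cast N.factorial_ne_zero
    unfold ev0
    field_simp at h1
    exact h1
  · intro k _ hk
    have h3 := ev0_weight (0 : Arr N) k 0 (by omega)
    rw [pow_zero, mul_one] at h3
    rw [Pi.smul_apply]
    unfold ev0 at h3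
    rw [h3, smul_zero]
  · intro h
    exact absurd (Finset.mem_range.mpr (Nat.lt_succ_self N)) h

end Pool.Agent.H88S
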