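import Pool.Agent.Lib.H88S.Main
import Pool.Agent.Lib.H88S.GB
import Pool.Agent.Lib.H88S.Weight
import Pool.Agent.Lib.H88S.Even

/-!
# H88S chunk FINAL: from real-rootedness to the sign of the Gauss–Bonnet integrand
-/

open Finset Filter Topology Polynomial

namespace Pool.Agent.H88S

open Pool.Agent.H69Hopf

theorem algCurv_sub_kn {N : ℕ} {R : Arr N} (hR : IsAlgCurv R) (h : ℝ) :
    IsAlgCurv (R - h • kn (1 : Mat N)) := by
  have hs : ∀ i j : Fin N, (1 : Mat N) i j = (1 : Mat N) j i := fun i j => by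
    rw [Matrix.one_apply, Matrix.one_apply]
    simp only [eq_comm]
  refine ⟨fun i j k l => ?_, fun i j k l => ?_, fun i j k l => ?_⟩
  · simp only [Pi.sub_apply, Pi.smul_apply, smul_eq_mul, kn]
    rw [hR.skew i j k l]
    ring
  · simp only [Pi.sub_apply, Pi.smul_apply, smul_eq_mul, kn]
    rw [hR.pair i j k l, hs k i, hs l j, hs k j, hs l i]
    ring
  · have h1 := hR.bianchi i j k l
    simp only [Pi.sub_apply, Pi.smul_apply, smul_eq_mul, kn]
    rw [hs j i, hs k i, hs k j]
    linear_combination h1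

theorem dA_zero {N : ℕ} : dA (0 : Mat N) = 0 := by
  unfold dA
  simp

theorem E_smul_add_apply {N : ℕ} {A B : Op N} (hA : A ∈ U N) (hB : B ∈ U N) (pA : Pos A)
    (pB : Pos B) (s t : ℝ) (G : PP N) :
    E (s • A + t • B) G = E (s • A) (E (t • B) G) := by
  rw [E_add (pos_smul s pA) (pos_smul t pB)
    (U_comm (Subalgebra.smul_mem _ hA s) (Subalgebra.smul_mem _ hB t))]
  rfl

theorem rr_final {N : ℕ} {R : Arr N} (hR : IsAlgCurv R) (hH : SphereNonneg R) :
    RR N (lineP (E ((-1 : ℝ) • dR R) detP)) := by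
  have hlim1 : Tendsto (fun k : ℕ => -(1 / ((k : ℝ) + 1))) atTop (𝓝 0) := by
    simpa using (tendsto_one_div_add_atTop_nhds_zero_nat (𝕜 := ℝ)).neg
  have hpath : ∀ δ η : ℝ, path R δ η 1 =
      E ((-1 : ℝ) • dR R) (E ((-δ) • (dg ^ 2 : Op N)) (E ((-η) • (dg ^ 2 : Op N)) detP)) := by
    intro δ η
    unfold path
    rw [← E_smul_add_apply (dR_mem R) (pow_mem dg_mem 2) (pos_dR R) pos_dg_sq]
    congr 2
    rw [smul_add, smul_smul]
    congr 2
    ring
  have hE0 : ∀ G : PP N, E ((0 : ℝ) • (dg ^ 2 : Op N)) G = G := fun G => by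
    rw [zero_smul, E_zero]
    rfl
  have hlim : Tendsto (fun k : ℕ => path R (1 / ((k : ℝ) + 1)) (1 / ((k : ℝ) + 1)) 1) atTop
      (𝓝 (E ((-1 : ℝ) • dR R) detP)) := by
    simp only [hpath]
    have h1 := tendsto_E_smul (A := (dg ^ 2 : Op N)) hlim1
      (tendsto_const_nhds (x := (detP : PP N)))
    have h2 := tendsto_E_smul (A := (dg ^ 2 : Op N)) hlim1 h1
    rw [hE0, hE0] at h2
    exact ((continuous_op (E ((-1 : ℝ) • dR R))).tendsto _).comp h2
  refine rr_lineP_of_tendsto hlim fun k => ?_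
  have hk : (0 : ℝ) < 1 / ((k : ℝ) + 1) := by positivity
  have h3 := good_path hR hH hk hk 1 ⟨zero_le_one, le_rfl⟩ 0 Matrix.isSymm_zero
  rw [dA_zero, E_zero] at h3
  exact h3

theorem ev0_dg_pow_E {N : ℕ} (R : Arr N) (k : ℕ) :
    ev0 ((dg ^ k : Op N) (E ((-1 : ℝ) • dR R) detP)) =
      ∑ a ∈ range (N + 1), (-1) ^ a / (a.factorial : ℝ) *
        ev0 ((dg ^ k * (dR R) ^ a : Op N) detP) := by
  rw [E_smul_apply, map_sum, ev0_sum]
  refine sum_congr rfl fun a _ => ?_
  rw [map_smul, ev0_smul]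
  rfl

variable {n : ℕ}

theorem coeff_final_top (R : Arr (2 * n)) :
    (lineP (E ((-1 : ℝ) • dR R) detP)).coeff (2 * n) = 1 := by
  rw [coeff_lineP, ev0_dg_pow_E, sum_eq_single 0]
  · rw [pow_zero (dR R), mul_one, ev0_dg_pow]
    have : ((2 * n).factorial : ℝ) ≠ 0 := by positivity
    field_simp
    simp
  · intro a _ ha
    rw [ev0_weight R (2 * n) a (by omega), mul_zero]
  · simp

theorem coeff_final_odd (R : Arr (2 * n)) (k : ℕ) (hk : Odd k) :
    (lineP (E ((-1 : ℝ) • dR R) detP)).coeff k = 0 := by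
  rw [coeff_lineP, ev0_dg_pow_E, sum_eq_zero, zero_div]
  intro a _
  rw [ev0_weight R k a (by
    obtain ⟨m, hm⟩ := hk
    omega), mul_zero]

theorem ev0_final (R : Arr (2 * n)) :
    ev0 (E ((-1 : ℝ) • dR R) detP) = (-1) ^ n / (n.factorial : ℝ) * gaussBonnet n R := by
  have h := ev0_dg_pow_E R 0
  rw [pow_zero, Module.End.one_apply] at h
  rw [h, sum_eq_single n]
  · rw [one_mul, ev0_dR_pow]
  · intro a _ ha
    have := ev0_weight R 0 a (by omega)
    rw [pow_zero] at this
    rw [this, mul_zero]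
  · intro h1
    simp at h1
    omega

theorem gb_lower {n : ℕ} {R : Arr (2 * n)} (hR : IsAlgCurv R) {h : ℝ} (hh : 0 ≤ h)
    (hH : SphereNonneg (R - h • kn (1 : Mat (2 * n)))) :
    (2 * h) ^ n * (2 * n).factorial ≤ gaussBonnet n R := by
  set R' := R - h • kn (1 : Mat (2 * n)) with hR'
  have hA' : IsAlgCurv R' := algCurv_sub_kn hR h
  set G' : PP (2 * n) := E ((-1 : ℝ) • dR R') detP with hG'
  set f : Polynomial ℝ := lineP G' with hf
  have hRR : RR (2 * n) f := rr_final hA' hH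
  have hsign : ∀ k, k ≤ n → 0 ≤ (-1) ^ (n - k) * f.coeff (2 * k) := fun k hk =>
    even_sign hRR (natDegree_lineP_le _) (coeff_final_top R') (coeff_final_odd R') hk
  have hanti : Anti G' :=
    Anti.apply (E_mem (Subalgebra.smul_mem _ (dR_mem R') _)) (anti_detRow 0)
  have hdR : dR R = dR R' + h • dR (kn (1 : Mat (2 * n))) := by
    rw [← dR_smul, ← dR_add, hR', sub_add_cancel]
  have hE : E ((-1 : ℝ) • dR R) detP = E ((-(2 * h)) • (dg ^ 2 : Op (2 * n))) G' := by
    rw [← E_dR_kn_one hanti, hG', ← E_smul_add_apply (dR_mem _) (dR_mem _) (pos_dR _) (pos_dR _),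
      hdR]
    congr 2
    rw [smul_add, smul_smul, add_comm]
    congr 2
    ring
  have h1 := ev0_final R
  rw [hE, E_smul_apply, ev0_sum] at h1
  have hterm : ∀ k, ev0 (((-(2 * h)) ^ k / (k.factorial : ℝ)) • ((dg ^ 2) ^ k : Op (2 * n)) G') =
      (-(2 * h)) ^ k / (k.factorial : ℝ) * ((2 * k).factorial * f.coeff (2 * k)) := by
    intro k
    rw [ev0_smul, ← pow_mul, hf, coeff_lineP]
    congr 1
    field_simp
  simp only [hterm] at h1
  have hfac : (0 : ℝ) < n.factorial := by positivity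
  have hpm : ((-1 : ℝ) ^ n) * (-1) ^ n = 1 := by
    rw [← mul_pow]
    norm_num
  have h2 : gaussBonnet n R = n.factorial * ∑ k ∈ range (2 * n + 1),
      (-1) ^ n * ((-(2 * h)) ^ k / (k.factorial : ℝ) * ((2 * k).factorial * f.coeff (2 * k))) := by
    rw [← mul_sum, h1]
    field_simp
    linear_combination (-1 : ℝ) * gaussBonnet n R * hpm
  have hnn : ∀ k ∈ range (2 * n + 1), 0 ≤
      (-1) ^ n * ((-(2 * h)) ^ k / (k.factorial : ℝ) * ((2 * k).factorial * f.coeff (2 * k))) := by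
    intro k _
    rcases le_or_gt k n with hk | hk
    · have h3 := hsign k hk
      have h4 : (-1 : ℝ) ^ n * ((-(2 * h)) ^ k / (k.factorial : ℝ) *
          ((2 * k).factorial * f.coeff (2 * k))) =
          (2 * h) ^ k / (k.factorial : ℝ) * (2 * k).factorial *
            ((-1) ^ (n - k) * f.coeff (2 * k)) := by
        have h5 : (-(2 * h)) ^ k = (-1) ^ k * (2 * h) ^ k := by
          rw [← mul_pow]
          ring
        have h6 : (-1 : ℝ) ^ n = (-1) ^ (n - k) * (-1) ^ k := by
          rw [← pow_add, Nat.sub_add_cancel hk]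
        have h7 : ((-1 : ℝ) ^ k) * (-1) ^ k = 1 := by
          rw [← mul_pow]
          norm_num
        rw [h5, h6]
        linear_combination ((-1 : ℝ) ^ (n - k) * ((2 * h) ^ k / (k.factorial : ℝ)) *
          ((2 * k).factorial * f.coeff (2 * k))) * h7
      rw [h4]
      positivity
    · have : f.coeff (2 * k) = 0 :=
        Polynomial.coeff_eq_zero_of_natDegree_lt
          (lt_of_le_of_lt (natDegree_lineP_le G') (by omega))
      rw [this]
      simp
  have hle := single_le_sum hnn (mem_range.2 (show n < 2 * n + 1 by omega))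
  have htop : (-1) ^ n * ((-(2 * h)) ^ n / (n.factorial : ℝ) *
      ((2 * n).factorial * f.coeff (2 * n))) = (2 * h) ^ n * (2 * n).factorial / n.factorial := by
    rw [hf, hG', coeff_final_top R']
    have h5 : (-(2 * h)) ^ n = (-1) ^ n * (2 * h) ^ n := by
      rw [← mul_pow]
      ring
    rw [h5]
    linear_combination ((2 * h) ^ n / (n.factorial : ℝ) * (2 * n).factorial) * hpm
  rw [htop] at hle
  rw [h2]
  calc (2 * h) ^ n * ((2 * n).factorial : ℝ) =
      n.factorial * ((2 * h) ^ n * (2 * n).factorial / n.factorial) := by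
        field_simp
    _ ≤ _ := mul_le_mul_of_nonneg_left hle hfac.le

end Pool.Agent.H88S
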