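import Pool.Agent.Lib.H88S.RRPoly

/-!
# H88S chunk HEAT: the heat operator preserves real-rootedness

`heat N η p = ∑_{k ≤ N} ((-η) ^ k / k!) p^{(2k)}`, `η ≥ 0`, for `p` of degree `≤ N` with only real
roots (or `p = 0`).

Proof.  Factor `p = a ∏ (X - r_i)` over `ℝ` and induct on the degree.  For `p = (X - r) h`,
`natDegree h ≤ N - 1`:
`derivative^[j] ((X - r) h) = (X - r) derivative^[j] h + j derivative^[j-1] h`, so
`heat N η p = (X - r) H - 2 η H'`, `H = heat N η h` (terms `derivative^[2k] h` with `2 k ≥ N` vanish,
so truncations at `N - 1` and `N` agree).  If `H` is nonzero real-rooted and `Im z > 0`, then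
`H z ≠ 0` and `Im ((z - r) - 2 η H'(z) / H(z)) ≥ Im z > 0` since
`Im (H'/H)(z) = - ∑ Im z / |z - r_i|² ≤ 0`.  So `(X - r) H - 2 η H'` has no root in the upper
half plane, and by conjugation none in the lower one.  (`H ≠ 0`, the leading coefficient of
`H` is that of `h`.)
-/

open Finset Filter Topology Polynomial

namespace Pool.Agent.H88S

variable {N : ℕ}

theorem heat_C_mul (η a : ℝ) (p : Polynomial ℝ) : heat N η (C a * p) = C a * heat N η p := by
  unfold heat
  rw [Finset.mul_sum]
  refine Finset.sum_congr rfl fun k _ => ?_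
  rw [Polynomial.iterate_derivative_C_mul]
  ring

theorem heat_one (η : ℝ) : heat N η 1 = 1 := by
  unfold heat
  rw [Finset.sum_eq_single 0]
  · simp
  · intro k _ hk
    have : 0 < 2 * k := by omega
    rw [Polynomial.iterate_derivative_one (by omega)]
    simp
  · intro h
    simp at h

theorem heat_iter (r : ℝ) (h : Polynomial ℝ) (k : ℕ) :
    Polynomial.derivative^[k + 1] ((X - C r) * h) =
      (X - C r) * Polynomial.derivative^[k + 1] h + C ((k : ℝ) + 1) * Polynomial.derivative^[k] h := by
  induction k with
  | zero => simp; ring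
  | succ k ih =>
    rw [Function.iterate_succ_apply', ih]
    simp only [derivative_add, derivative_mul, derivative_sub, derivative_X, derivative_C, sub_zero,
      one_mul, zero_mul, zero_add]
    rw [← Function.iterate_succ_apply' (f := Polynomial.derivative) (n := k + 1),
      ← Function.iterate_succ_apply' (f := Polynomial.derivative) (n := k)]
    push_cast
    rw [show (C ((k : ℝ) + 1 + 1) : Polynomial ℝ) = C ((k : ℝ) + 1) + 1 by rw [C_add]; simp]
    ring

theorem heat_X_sub_C_mul (η r : ℝ) (h : Polynomial ℝ) (hd : h.natDegree < N) :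
    heat N η ((X - C r) * h) = (X - C r) * heat N η h - C (2 * η) * Polynomial.derivative (heat N η h) := by
  obtain ⟨M, rfl⟩ : ∃ M, N = M + 1 := ⟨N - 1, by omega⟩
  have hz : Polynomial.derivative^[2 * (M + 1) + 1] h = 0 :=
    Polynomial.iterate_derivative_eq_zero (by omega)
  unfold heat
  rw [Polynomial.derivative_sum, Finset.mul_sum, Finset.mul_sum]
  rw [Finset.sum_range_succ' (fun k => C ((-η) ^ k / k.factorial) * Polynomial.derivative^[2 * k] ((X - C r) * h)),
    Finset.sum_range_succ' (fun k => (X - C r) * (C ((-η) ^ k / k.factorial) * Polynomial.derivative^[2 * k] h)),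
    Finset.sum_range_succ (fun k => C (2 * η) * Polynomial.derivative (C ((-η) ^ k / k.factorial) * Polynomial.derivative^[2 * k] h))]
  have hlast : C (2 * η) * Polynomial.derivative (C ((-η) ^ (M + 1) / (M + 1).factorial) *
      Polynomial.derivative^[2 * (M + 1)] h) = 0 := by
    rw [Polynomial.derivative_C_mul, ← Function.iterate_succ_apply' (f := Polynomial.derivative), hz]
    simp
  rw [hlast, add_zero]
  have hterm : ∀ k ∈ range (M + 1), C ((-η) ^ (k + 1) / (k + 1).factorial) *
      Polynomial.derivative^[2 * (k + 1)] ((X - C r) * h) =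
      (X - C r) * (C ((-η) ^ (k + 1) / (k + 1).factorial) * Polynomial.derivative^[2 * (k + 1)] h) -
      C (2 * η) * Polynomial.derivative (C ((-η) ^ k / k.factorial) * Polynomial.derivative^[2 * k] h) := by
    intro k _
    have e1 : 2 * (k + 1) = (2 * k + 1) + 1 := by ring
    rw [e1, heat_iter, Polynomial.derivative_C_mul, ← Function.iterate_succ_apply' (f := Polynomial.derivative)]
    have e2 : (C ((-η) ^ (k + 1) / (k + 1).factorial) * C (((2 * k + 1 : ℕ) : ℝ) + 1) : Polynomial ℝ) =
        - (C (2 * η) * C ((-η) ^ k / k.factorial)) := by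
      rw [← C_mul, ← C_mul, ← C_neg]
      congr 1
      rw [Nat.factorial_succ]
      have : (k.factorial : ℝ) ≠ 0 := by positivity
      push_cast
      field_simp
      ring
    linear_combination (Polynomial.derivative^[2 * k + 1] h) * e2
  rw [Finset.sum_congr rfl hterm, Finset.sum_sub_distrib]
  simp
  ring

theorem natDegree_heat_le (η : ℝ) (p : Polynomial ℝ) : (heat N η p).natDegree ≤ p.natDegree := by
  unfold heat
  refine natDegree_sum_le_of_forall_le _ _ fun k _ => ?_
  refine (natDegree_C_mul_le _ _).trans ?_
  exact (natDegree_iterate_derivative p (2 * k)).trans (Nat.sub_le _ _)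

/-- sign of the imaginary part of the logarithmic derivative -/
theorem logder_rp (S : Multiset ℝ) {z : ℂ} (hz : 0 < z.im) :
    cev (rp S) z ≠ 0 ∧ (cev (Polynomial.derivative (rp S)) z / cev (rp S) z).im ≤ 0 := by
  induction S using Multiset.induction_on with
  | empty => simp [rp_zero, cev]
  | cons r S ih =>
    obtain ⟨h0, h1⟩ := ih
    have hX : cev (X - C r) z = z - r := by simp [cev]
    have hzr : z - (r : ℂ) ≠ 0 := by
      intro h
      have := congrArg Complex.im h
      simp at this
      linarith
    have e1 : cev (rp (r ::ₘ S)) z = (z - r) * cev (rp S) z := by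
      rw [rp_cons, cev_mul, hX]
    have e2 : cev (Polynomial.derivative (rp (r ::ₘ S))) z =
        cev (rp S) z + (z - r) * cev (Polynomial.derivative (rp S)) z := by
      rw [rp_cons]
      simp [cev]
    refine ⟨by rw [e1]; exact mul_ne_zero hzr h0, ?_⟩
    rw [e1, e2]
    have e3 : (cev (rp S) z + (z - r) * cev (Polynomial.derivative (rp S)) z) /
        ((z - r) * cev (rp S) z) =
        (z - r)⁻¹ + cev (Polynomial.derivative (rp S)) z / cev (rp S) z := by
      field_simp
    rw [e3, Complex.add_im, Complex.inv_im]
    have h2 : 0 < Complex.normSq (z - r) := Complex.normSq_pos.2 hzr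
    have h3 : -(z - (r : ℂ)).im / Complex.normSq (z - r) ≤ 0 := by
      apply div_nonpos_of_nonpos_of_nonneg _ h2.le
      simp
      exact hz.le
    linarith

theorem logder {p : Polynomial ℝ} (h : RealRooted p) {z : ℂ} (hz : 0 < z.im) :
    cev p z ≠ 0 ∧ (cev (Polynomial.derivative p) z / cev p z).im ≤ 0 := by
  have h0 : cev p z ≠ 0 := fun h0 => by
    have := h z h0
    linarith
  refine ⟨h0, ?_⟩
  obtain ⟨S, hS⟩ := h.factor
  have ha : ((p.leadingCoeff : ℝ) : ℂ) ≠ 0 := by
    intro ha
    apply h0
    rw [hS, cev_mul, cev_C, ha, zero_mul]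
  obtain ⟨_, h2⟩ := logder_rp S hz
  have e1 : cev p z = p.leadingCoeff * cev (rp S) z := by
    conv_lhs => rw [hS]
    rw [cev_mul, cev_C]
  have e2 : cev (Polynomial.derivative p) z = p.leadingCoeff * cev (Polynomial.derivative (rp S)) z := by
    conv_lhs => rw [hS]
    rw [derivative_C_mul, cev_mul, cev_C]
  rw [e1, e2, mul_div_mul_left _ _ ha]
  exact h2

theorem realRooted_heat_rp (S : Multiset ℝ) (hS : Multiset.card S ≤ N) {η : ℝ} (hη : 0 ≤ η) :
    RealRooted (heat N η (rp S)) := by
  induction S using Multiset.induction_on with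
  | empty =>
    rw [rp_zero, heat_one]
    intro z hz
    simp [cev] at hz
  | cons r S ih =>
    rw [Multiset.card_cons] at hS
    have hH := ih (by omega)
    set H := heat N η (rp S) with hHdef
    have hrec : heat N η (rp (r ::ₘ S)) = (X - C r) * H - C (2 * η) * Polynomial.derivative H := by
      rw [rp_cons]
      exact heat_X_sub_C_mul η r (rp S) (by rw [rp_natDegree]; omega)
    rw [hrec]
    have key : ∀ z : ℂ, 0 < z.im → cev ((X - C r) * H - C (2 * η) * Polynomial.derivative H) z ≠ 0 := by
      intro z hz h0
      obtain ⟨h1, h2⟩ := logder hH hz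
      have e1 : cev ((X - C r) * H - C (2 * η) * Polynomial.derivative H) z =
          cev H z * ((z - r) - 2 * η * (cev (Polynomial.derivative H) z / cev H z)) := by
        have : cev ((X - C r) * H - C (2 * η) * Polynomial.derivative H) z =
            (z - r) * cev H z - 2 * η * cev (Polynomial.derivative H) z := by
          simp [cev]
        rw [this]
        field_simp
      rw [e1] at h0
      rcases mul_eq_zero.1 h0 with h3 | h3
      · exact h1 h3
      · have h4 := congrArg Complex.im h3
        have h5 : ((2 : ℂ) * η * (cev (Polynomial.derivative H) z / cev H z)).im =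
            2 * η * (cev (Polynomial.derivative H) z / cev H z).im := by
          rw [show (2 : ℂ) * η = ((2 * η : ℝ) : ℂ) by push_cast; ring, Complex.im_ofReal_mul]
        rw [Complex.sub_im, h5] at h4
        simp at h4
        nlinarith
    intro z hz
    by_contra him
    rcases lt_or_gt_of_ne him with h1 | h1
    · refine key ((starRingEnd ℂ) z) (by simpa using h1) ?_
      rw [cev_conj, hz, map_zero]
    · exact key z h1 hz

theorem rr_heat {p : Polynomial ℝ} (h : RR N p) (hd : p.natDegree ≤ N) {η : ℝ} (hη : 0 ≤ η) :
    RR N (heat N η p) := by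
  by_cases hp : p = 0
  · subst hp
    have : heat N η 0 = 0 := by
      unfold heat
      simp
    rw [this]
    exact rr_zero
  · obtain ⟨S, hS⟩ := (h.realRooted hp).factor
    have hlc : p.leadingCoeff ≠ 0 := leadingCoeff_ne_zero.2 hp
    have hcard : Multiset.card S ≤ N := by
      rw [← rp_natDegree S, ← natDegree_C_mul (p := rp S) hlc, ← hS]
      exact hd
    refine RealRooted.rr ?_ ((natDegree_heat_le η p).trans hd)
    rw [hS, heat_C_mul]
    intro z hz
    rw [cev_mul, cev_C] at hz
    rcases mul_eq_zero.1 hz with h1 | h1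
    · exact absurd (by exact_mod_cast h1) hlc
    · exact realRooted_heat_rp S hcard hη z h1

end Pool.Agent.H88S
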