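import Pool.Agent.Lib.H88S.Ip

/-!
# H88S chunk IDENT: the contraction identity

`Q : Arr N` with `Q i j k l = - Q i j l k`, `Q i j k l = Q j i l k` (hence also antisymmetric in
`i, j`).  `q(Y, Z) = act Q Y Z = ∑ Q i j k l Y i k Z j l` is a symmetric bilinear form with
`q(ξξ, ξξ) = 0` for the rank one matrices `ξξ = vecMulVec ξ ξ`.  Assume `κ = q(1, 1) > 0` and
`κ q(Y, Y) ≤ q(1, Y)²` for symmetric `Y` (Lorentz signature at most).

## `contraction_identity`

`∑ R i j k l (S i k S j l - ∑_m B_m i k B_m j l) = ∑ R i j k l q(sym E_ik, sym E_jl)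
= (1/4) ∑ R i j k l (Q i j k l + Q k j i l + Q i l k j + Q k l i j)`
(`act Q E_ik E_jl = Q i j k l` where `E_ik` is the elementary matrix).
With `ρ = ∑ R i j k l Q i j k l`: the last sum is `ρ` (pair symmetry of `R`).
`T = ∑ R i j k l Q k j i l = ∑ R k j i l Q i j k l`, and Bianchi gives
`R k j i l = - R j k i l = R i j k l + R k i j l`, so `T = ρ + X`, `X = ∑ R k i j l Q i j k l`;
exchanging `i, j` (`Q j i k l = - Q i j k l`): `X = - ∑ R k j i l Q i j k l = - T`.  So `T = ρ / 2`.
The third sum is `∑ R i l k j Q i j k l` and `R i l k j = R k j i l` (pair symmetry), so it is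
`T = ρ / 2`.  Total `(3/4) ρ`.
-/

open Finset

namespace Pool.Agent.H88S

open Pool.Agent.H69Hopf

variable {N : ℕ}

theorem ident_ip_single (A : Mat N) (i k : Fin N) : ip A (Matrix.single i k 1) = A i k := by
  unfold ip
  rw [Finset.sum_eq_single i, Finset.sum_eq_single k]
  · simp
  · intro b _ hb
    rw [Matrix.single_apply_of_ne]
    · simp
    · simp [hb.symm]
  · simp
  · intro b _ hb
    refine Finset.sum_eq_zero fun c _ => ?_
    rw [Matrix.single_apply_of_ne]
    · simp
    · simp [hb.symm]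
  · simp

theorem ident_act_single (Q : Arr N) (i j k l : Fin N) :
    act Q (Matrix.single i k 1) (Matrix.single j l 1) = Q i j k l := by
  have h0 : ∀ a b i' k' : Fin N, (Matrix.single a b (1 : ℝ)) i' k' =
      (if a = i' then 1 else 0) * (if b = k' then 1 else 0) := by
    intro a b i' k'
    rw [Matrix.single_apply]
    by_cases h1 : a = i' <;> by_cases h2 : b = k' <;> simp [h1, h2]
  unfold act
  simp only [h0]
  rw [Finset.sum_eq_single i, Finset.sum_eq_single j, Finset.sum_eq_single k,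
    Finset.sum_eq_single l]
  · simp
  · intro b _ hb; simp [hb.symm]
  · simp
  · intro b _ hb; simp [hb.symm]
  · simp
  · intro b _ hb; simp [hb.symm]
  · simp
  · intro b _ hb; simp [hb.symm]
  · simp

/-- Symmetrised elementary matrix. -/
noncomputable def identE (i k : Fin N) : Mat N :=
  (1 / 2 : ℝ) • (Matrix.single i k 1 + Matrix.single k i 1)

theorem identE_symm (i k : Fin N) : (identE i k).IsSymm := by
  unfold identE Matrix.IsSymm
  rw [Matrix.transpose_smul, Matrix.transpose_add, Matrix.transpose_single,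
    Matrix.transpose_single, add_comm]

theorem ident_ip (A : Mat N) (hA : A.IsSymm) (i k : Fin N) : ip A (identE i k) = A i k := by
  unfold identE
  rw [ip_smul, ip_add, ident_ip_single, ident_ip_single]
  have : A k i = A i k := hA.apply i k
  rw [this]
  ring

theorem ident_act (Q : Arr N) (i j k l : Fin N) : act Q (identE i k) (identE j l) =
    1 / 4 * (Q i j k l + Q k j i l + Q i l k j + Q k l i j) := by
  unfold identE
  rw [act_smul_left, act_smul_right, act_add_left, act_add_right, act_add_right,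
    ident_act_single, ident_act_single, ident_act_single, ident_act_single]
  ring

theorem ident_swap12 (f : Fin N → Fin N → Fin N → Fin N → ℝ) :
    ∑ i, ∑ j, ∑ k, ∑ l, f i j k l = ∑ i, ∑ j, ∑ k, ∑ l, f j i k l := by
  rw [Finset.sum_comm]

theorem ident_swap13 (f : Fin N → Fin N → Fin N → Fin N → ℝ) :
    ∑ i, ∑ j, ∑ k, ∑ l, f i j k l = ∑ i, ∑ j, ∑ k, ∑ l, f k j i l := by
  have h1 : ∀ g : Fin N → Fin N → Fin N → ℝ, ∑ i, ∑ j, ∑ k, g i j k = ∑ i, ∑ j, ∑ k, g k j i := by
    intro g
    calc ∑ i, ∑ j, ∑ k, g i j k = ∑ i, ∑ k, ∑ j, g i j k :=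
          Finset.sum_congr rfl fun i _ => Finset.sum_comm
      _ = ∑ k, ∑ i, ∑ j, g i j k := Finset.sum_comm
      _ = ∑ k, ∑ j, ∑ i, g i j k := Finset.sum_congr rfl fun i _ => Finset.sum_comm
  exact h1 fun i j k => ∑ l, f i j k l

theorem ident_swap24 (f : Fin N → Fin N → Fin N → Fin N → ℝ) :
    ∑ i, ∑ j, ∑ k, ∑ l, f i j k l = ∑ i, ∑ j, ∑ k, ∑ l, f i l k j := by
  have h1 : ∀ g : Fin N → Fin N → Fin N → ℝ, ∑ i, ∑ j, ∑ k, g i j k = ∑ i, ∑ j, ∑ k, g k j i := by
    intro g
    calc ∑ i, ∑ j, ∑ k, g i j k = ∑ i, ∑ k, ∑ j, g i j k :=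
          Finset.sum_congr rfl fun i _ => Finset.sum_comm
      _ = ∑ k, ∑ i, ∑ j, g i j k := Finset.sum_comm
      _ = ∑ k, ∑ j, ∑ i, g i j k := Finset.sum_congr rfl fun i _ => Finset.sum_comm
  exact Finset.sum_congr rfl fun i _ => h1 fun j k l => f i j k l

theorem contraction_identity {R Q : Arr N} (hR : IsAlgCurv R)
    (hQ1 : ∀ i j k l, Q i j k l = - Q i j l k) (hQ2 : ∀ i j k l, Q i j k l = Q j i l k)
    {p : ℕ} {S : Mat N} {B : Fin p → Mat N} (hS : S.IsSymm) (hB : ∀ k, (B k).IsSymm)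
    (h : ∀ Y Z : Mat N, Y.IsSymm → Z.IsSymm →
      act Q Y Z = ip S Y * ip S Z - ∑ k, ip (B k) Y * ip (B k) Z) :
    3 / 4 * ∑ i, ∑ j, ∑ k, ∑ l, R i j k l * Q i j k l =
      act R S S - ∑ k, act R (B k) (B k) := by
  have hpt : ∀ i j k l, S i k * S j l - ∑ m, B m i k * B m j l =
      1 / 4 * (Q i j k l + Q k j i l + Q i l k j + Q k l i j) := by
    intro i j k l
    rw [← ident_act, h _ _ (identE_symm i k) (identE_symm j l), ident_ip S hS, ident_ip S hS]
    congr 1
    refine Finset.sum_congr rfl fun m _ => ?_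
    rw [ident_ip _ (hB m), ident_ip _ (hB m)]
  have hsum : act R S S - ∑ k, act R (B k) (B k) = ∑ i, ∑ j, ∑ k, ∑ l, R i j k l *
      (1 / 4 * (Q i j k l + Q k j i l + Q i l k j + Q k l i j)) := by
    have e1 : ∑ m, act R (B m) (B m) = ∑ i, ∑ j, ∑ k, ∑ l, R i j k l *
        ∑ m, B m i k * B m j l := by
      unfold act
      rw [Finset.sum_comm]
      refine Finset.sum_congr rfl fun i _ => ?_
      rw [Finset.sum_comm]
      refine Finset.sum_congr rfl fun j _ => ?_
      rw [Finset.sum_comm]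
      refine Finset.sum_congr rfl fun k _ => ?_
      rw [Finset.sum_comm]
      refine Finset.sum_congr rfl fun l _ => ?_
      rw [Finset.mul_sum]
      exact Finset.sum_congr rfl fun m _ => by ring
    rw [e1]
    unfold act
    rw [← Finset.sum_sub_distrib]
    refine Finset.sum_congr rfl fun i _ => ?_
    rw [← Finset.sum_sub_distrib]
    refine Finset.sum_congr rfl fun j _ => ?_
    rw [← Finset.sum_sub_distrib]
    refine Finset.sum_congr rfl fun k _ => ?_
    rw [← Finset.sum_sub_distrib]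
    refine Finset.sum_congr rfl fun l _ => ?_
    rw [← hpt]
    ring
  set ρ := ∑ i, ∑ j, ∑ k, ∑ l, R i j k l * Q i j k l with hρ
  set T := ∑ i, ∑ j, ∑ k, ∑ l, R k j i l * Q i j k l with hT
  set X := ∑ i, ∑ j, ∑ k, ∑ l, R k i j l * Q i j k l with hX
  have hTX : T = ρ + X := by
    rw [hT, hρ, hX, ← Finset.sum_add_distrib]
    refine Finset.sum_congr rfl fun i _ => ?_
    rw [← Finset.sum_add_distrib]
    refine Finset.sum_congr rfl fun j _ => ?_
    rw [← Finset.sum_add_distrib]
    refine Finset.sum_congr rfl fun k _ => ?_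
    rw [← Finset.sum_add_distrib]
    refine Finset.sum_congr rfl fun l _ => ?_
    have h1 := hR.bianchi i j k l
    have h2 := hR.skew k j i l
    rw [h2]
    have h3 : - R j k i l = R i j k l + R k i j l := by linarith
    rw [h3]
    ring
  have hXT : X = - T := by
    rw [hX, ident_swap12, hT, ← Finset.sum_neg_distrib]
    refine Finset.sum_congr rfl fun i _ => ?_
    rw [← Finset.sum_neg_distrib]
    refine Finset.sum_congr rfl fun j _ => ?_
    rw [← Finset.sum_neg_distrib]
    refine Finset.sum_congr rfl fun k _ => ?_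
    rw [← Finset.sum_neg_distrib]
    refine Finset.sum_congr rfl fun l _ => ?_
    rw [hQ2 j i k l, hQ1 i j l k]
    ring
  have h2 : ∑ i, ∑ j, ∑ k, ∑ l, R i j k l * Q k j i l = T := by
    rw [ident_swap13, hT]
  have h3 : ∑ i, ∑ j, ∑ k, ∑ l, R i j k l * Q i l k j = T := by
    rw [ident_swap24, hT]
    refine Finset.sum_congr rfl fun i _ => Finset.sum_congr rfl fun j _ =>
      Finset.sum_congr rfl fun k _ => Finset.sum_congr rfl fun l _ => ?_
    rw [hR.pair i l k j]
  have h4 : ∑ i, ∑ j, ∑ k, ∑ l, R i j k l * Q k l i j = ρ := by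
    rw [ident_swap13, ident_swap24, hρ]
    refine Finset.sum_congr rfl fun i _ => Finset.sum_congr rfl fun j _ =>
      Finset.sum_congr rfl fun k _ => Finset.sum_congr rfl fun l _ => ?_
    rw [hR.pair k l i j]
  have h5 : ∑ i, ∑ j, ∑ k, ∑ l, R i j k l *
      (1 / 4 * (Q i j k l + Q k j i l + Q i l k j + Q k l i j)) =
      1 / 4 * (ρ + T + T + ρ) := by
    have h6 : ∑ i, ∑ j, ∑ k, ∑ l, R i j k l *
        (1 / 4 * (Q i j k l + Q k j i l + Q i l k j + Q k l i j)) =
        1 / 4 * (∑ i, ∑ j, ∑ k, ∑ l, R i j k l * Q i j k l +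
          ∑ i, ∑ j, ∑ k, ∑ l, R i j k l * Q k j i l +
          ∑ i, ∑ j, ∑ k, ∑ l, R i j k l * Q i l k j +
          ∑ i, ∑ j, ∑ k, ∑ l, R i j k l * Q k l i j) := by
      simp only [← Finset.sum_add_distrib, Finset.mul_sum]
      refine Finset.sum_congr rfl fun i _ => Finset.sum_congr rfl fun j _ =>
        Finset.sum_congr rfl fun k _ => Finset.sum_congr rfl fun l _ => ?_
      ring
    rw [h6, h2, h3, h4]
  rw [hsum, h5]
  linarith

end Pool.Agent.H88S
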