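import Pool.Agent.Lib.H88S.Pairing

/-!
# H88S chunk KN: Kulkarni-Nomizu squares and `SphereNonpos`

* `act_kn_sphere`.  For symmetric `A`, `B`: `act (kn A) B B = ip A B ^ 2 - trace (A B A B)`.
  The coefficient of `s²` in `∑_k bilin (B k) (x + s y) (x + s y) ^ 2 = bilin S (..) (..) ^ 2` gives
  `∑_k (B_k(x,x) B_k(y,y) + 2 B_k(x,y)²) = S(x,x) S(y,y) + 2 S(x,y)²`.  Write
  `A = ∑_r λ_r v_r v_rᵀ` (spectral theorem) and sum over `r, s` with weights `λ_r λ_s`:
  `∑_k (ip (B k) A ^ 2 + 2 trace (A B_k A B_k)) = ip S A ^ 2 + 2 trace (A S A S)`.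
  (Or polarise completely.)
* `sphereNonpos_kn`: from `act_kn_sphere` for `L` and `D j` and `pairing`.
-/


open Finset Filter Topology

namespace Pool.Agent.H88S

open Pool.Agent.H69Hopf

variable {N : ℕ}

theorem act_add (R Q : Arr N) (A B : Mat N) : act (R + Q) A B = act R A B + act Q A B := by
  unfold act
  simp only [Pi.add_apply, add_mul, sum_add_distrib]

theorem act_smul (s : ℝ) (R : Arr N) (A B : Mat N) : act (s • R) A B = s * act R A B := by
  unfold act
  simp only [Pi.smul_apply, smul_eq_mul, mul_sum]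
  refine sum_congr rfl fun i _ => sum_congr rfl fun j _ => sum_congr rfl fun k _ =>
    sum_congr rfl fun l _ => by ring

private theorem act_sub (R Q : Arr N) (A B : Mat N) :
    act (R - Q) A B = act R A B - act Q A B := by
  unfold act
  simp only [Pi.sub_apply, sub_mul, sum_sub_distrib]

private theorem act_sum {q : ℕ} (R : Fin q → Arr N) (A B : Mat N) :
    act (∑ j, R j) A B = ∑ j, act (R j) A B := by
  classical
  have h : ∀ s : Finset (Fin q), act (∑ j ∈ s, R j) A B = ∑ j ∈ s, act (R j) A B := by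
    intro s
    induction s using Finset.induction_on with
    | empty => simp [act]
    | insert a s ha ih => rw [sum_insert ha, sum_insert ha, act_add, ih]
  exact h univ

theorem act_kn_one {Y : Mat N} (hY : Y.IsSymm) :
    act (kn (1 : Mat N)) Y Y = Y.trace ^ 2 - ∑ i, ∑ j, Y i j ^ 2 := by
  have h1 : act (kn (1 : Mat N)) Y Y = ∑ i, ∑ j, (Y i i * Y j j - Y i j * Y j i) := by
    unfold act kn
    refine sum_congr rfl fun i _ => sum_congr rfl fun j _ => ?_
    simp only [sub_mul, sum_sub_distrib, Matrix.one_apply, mul_ite, mul_one, mul_zero, ite_mul,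
      one_mul, zero_mul]
    simp
  rw [h1]
  simp only [sum_sub_distrib]
  congr 1
  · rw [sq, Matrix.trace, sum_mul_sum]
    rfl
  · refine sum_congr rfl fun i _ => sum_congr rfl fun j _ => ?_
    rw [hY.apply i j, sq]

private theorem bil_add_left (A : Mat N) (x y z : Fin N → ℝ) :
    bilin A (x + y) z = bilin A x z + bilin A y z := by
  unfold bilin
  simp only [Pi.add_apply, add_mul, sum_add_distrib]

private theorem bil_add_right (A : Mat N) (x y z : Fin N → ℝ) :
    bilin A x (y + z) = bilin A x y + bilin A x z := by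
  unfold bilin
  simp only [Pi.add_apply, mul_add, sum_add_distrib]

private theorem bil_sub_left (A : Mat N) (x y z : Fin N → ℝ) :
    bilin A (x - y) z = bilin A x z - bilin A y z := by
  unfold bilin
  simp only [Pi.sub_apply, sub_mul, sum_sub_distrib]

private theorem bil_sub_right (A : Mat N) (x y z : Fin N → ℝ) :
    bilin A x (y - z) = bilin A x y - bilin A x z := by
  unfold bilin
  simp only [Pi.sub_apply, mul_sub, sum_sub_distrib]

private theorem bil_symm {A : Mat N} (hA : A.IsSymm) (x y : Fin N → ℝ) :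
    bilin A x y = bilin A y x := by
  unfold bilin
  rw [sum_comm]
  refine sum_congr rfl fun i _ => sum_congr rfl fun j _ => ?_
  rw [hA.apply i j]
  ring

private theorem bil_single (A : Mat N) (i j : Fin N) :
    bilin A (Pi.single i 1) (Pi.single j 1) = A i j := by
  unfold bilin
  simp only [Pi.single_apply, mul_ite, mul_one, mul_zero, ite_mul, one_mul, zero_mul]
  simp

private theorem sphere_pol1 {p : ℕ} {S : Mat N} {B : Fin p → Mat N} (h : SphereMap S B)
    (x y : Fin N → ℝ) :
    ∑ k, (bilin (B k) x x * bilin (B k) y y + 2 * bilin (B k) x y ^ 2) =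
      bilin S x x * bilin S y y + 2 * bilin S x y ^ 2 := by
  obtain ⟨hS, -, hB, hq⟩ := h
  have key : ∀ A : Mat N, A.IsSymm →
      bilin A x x * bilin A y y + 2 * bilin A x y ^ 2 =
      4⁻¹ * (bilin A (x + y) (x + y) ^ 2 + bilin A (x - y) (x - y) ^ 2
        - 2 * bilin A x x ^ 2 - 2 * bilin A y y ^ 2) := by
    intro A hA
    simp only [bil_add_left, bil_add_right, bil_sub_left, bil_sub_right]
    rw [bil_symm hA y x]
    ring
  rw [key S hS, sum_congr rfl fun k _ => key (B k) (hB k)]
  rw [← mul_sum, sum_sub_distrib, sum_sub_distrib, sum_add_distrib, ← mul_sum, ← mul_sum,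
    hq, hq, hq, hq]

private theorem sphere_pol2 {p : ℕ} {S : Mat N} {B : Fin p → Mat N} (h : SphereMap S B)
    (x z y : Fin N → ℝ) :
    ∑ k, (bilin (B k) x z * bilin (B k) y y + 2 * (bilin (B k) x y * bilin (B k) z y)) =
      bilin S x z * bilin S y y + 2 * (bilin S x y * bilin S z y) := by
  have hh := h
  obtain ⟨hS, -, hB, -⟩ := hh
  have key : ∀ A : Mat N, A.IsSymm →
      bilin A x z * bilin A y y + 2 * (bilin A x y * bilin A z y) =
      4⁻¹ * ((bilin A (x + z) (x + z) * bilin A y y + 2 * bilin A (x + z) y ^ 2) -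
        (bilin A (x - z) (x - z) * bilin A y y + 2 * bilin A (x - z) y ^ 2)) := by
    intro A hA
    simp only [bil_add_left, bil_add_right, bil_sub_left, bil_sub_right]
    rw [bil_symm hA z x]
    ring
  rw [key S hS, sum_congr rfl fun k _ => key (B k) (hB k)]
  rw [← mul_sum, sum_sub_distrib, sphere_pol1 h, sphere_pol1 h]

private theorem sphere_pol3 {p : ℕ} {S : Mat N} {B : Fin p → Mat N} (h : SphereMap S B)
    (x y z w : Fin N → ℝ) :
    ∑ k, (bilin (B k) x y * bilin (B k) z w + bilin (B k) x z * bilin (B k) y w +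
        bilin (B k) x w * bilin (B k) y z) =
      bilin S x y * bilin S z w + bilin S x z * bilin S y w + bilin S x w * bilin S y z := by
  have hh := h
  obtain ⟨hS, -, hB, -⟩ := hh
  have key : ∀ A : Mat N, A.IsSymm →
      bilin A x y * bilin A z w + bilin A x z * bilin A y w + bilin A x w * bilin A y z =
      4⁻¹ * ((bilin A x y * bilin A (z + w) (z + w) + 2 * (bilin A x (z + w) * bilin A y (z + w))) -
        (bilin A x y * bilin A (z - w) (z - w) +
          2 * (bilin A x (z - w) * bilin A y (z - w)))) := by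
    intro A hA
    simp only [bil_add_left, bil_add_right, bil_sub_left, bil_sub_right]
    rw [bil_symm hA w z]
    ring
  rw [key S hS, sum_congr rfl fun k _ => key (B k) (hB k)]
  rw [← mul_sum, sum_sub_distrib, sphere_pol2 h, sphere_pol2 h]

private theorem sphere_entries {p : ℕ} {S : Mat N} {B : Fin p → Mat N} (h : SphereMap S B)
    (i j k l : Fin N) :
    ∑ m, (B m i j * B m k l + B m i k * B m j l + B m i l * B m j k) =
      S i j * S k l + S i k * S j l + S i l * S j k := by
  have := sphere_pol3 h (Pi.single i 1) (Pi.single j 1) (Pi.single k 1) (Pi.single l 1)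
  simpa only [bil_single] using this

private theorem sum4_swap (f : Fin N → Fin N → Fin N → Fin N → ℝ) :
    ∑ i, ∑ j, ∑ k, ∑ l, f i j k l = ∑ i, ∑ j, ∑ k, ∑ l, f i l k j := by
  refine sum_congr rfl fun i _ => ?_
  calc ∑ j, ∑ k, ∑ l, f i j k l = ∑ k, ∑ j, ∑ l, f i j k l := sum_comm
    _ = ∑ k, ∑ l, ∑ j, f i j k l := sum_congr rfl fun k _ => sum_comm
    _ = ∑ l, ∑ k, ∑ j, f i j k l := sum_comm

private theorem kn_expand {A B : Mat N} (hA : A.IsSymm) (hB : B.IsSymm) :
    ∑ i, ∑ j, ∑ k, ∑ l, A i j * A k l * (B i j * B k l + B i k * B j l + B i l * B j k) =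
      3 * ip B A ^ 2 - 2 * act (kn A) B B := by
  have e1 : ip B A ^ 2 = ∑ i, ∑ j, ∑ k, ∑ l, A i j * A k l * (B i j * B k l) := by
    unfold ip
    rw [sq, sum_mul]
    refine sum_congr rfl fun i _ => ?_
    rw [sum_mul]
    refine sum_congr rfl fun j _ => ?_
    rw [mul_sum]
    refine sum_congr rfl fun k _ => ?_
    rw [mul_sum]
    refine sum_congr rfl fun l _ => ?_
    ring
  have e2 : act (kn A) B B = ip B A ^ 2 -
      ∑ i, ∑ j, ∑ k, ∑ l, A i j * A k l * (B i k * B j l) := by
    unfold act kn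
    simp only [sub_mul, sum_sub_distrib]
    congr 1
    · rw [e1]
      refine sum_congr rfl fun i _ => ?_
      rw [sum_comm]
      refine sum_congr rfl fun j _ => sum_congr rfl fun k _ => sum_congr rfl fun l _ => ?_
      ring
    · rw [sum4_swap]
      refine sum_congr rfl fun i _ => sum_congr rfl fun j _ => sum_congr rfl fun k _ =>
        sum_congr rfl fun l _ => ?_
      rw [hA.apply k l, hB.apply j l]
      ring
  have e3 : ∑ i, ∑ j, ∑ k, ∑ l, A i j * A k l * (B i l * B j k) =
      ∑ i, ∑ j, ∑ k, ∑ l, A i j * A k l * (B i k * B j l) := by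
    refine sum_congr rfl fun i _ => sum_congr rfl fun j _ => ?_
    rw [sum_comm]
    refine sum_congr rfl fun k _ => sum_congr rfl fun l _ => ?_
    rw [hA.apply k l]
  have e4 : ∑ i, ∑ j, ∑ k, ∑ l, A i j * A k l * (B i j * B k l + B i k * B j l + B i l * B j k) =
      ∑ i, ∑ j, ∑ k, ∑ l, A i j * A k l * (B i j * B k l) +
      ∑ i, ∑ j, ∑ k, ∑ l, A i j * A k l * (B i k * B j l) +
      ∑ i, ∑ j, ∑ k, ∑ l, A i j * A k l * (B i l * B j k) := by
    simp only [mul_add, sum_add_distrib]
  rw [e4, e3, e2, ← e1]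
  ring

theorem act_kn_sphere {p : ℕ} {S : Mat N} {B : Fin p → Mat N} (h : SphereMap S B) {A : Mat N}
    (hA : A.IsSymm) :
    ∑ k, act (kn A) (B k) (B k) - act (kn A) S S =
      3 / 2 * (∑ k, ip (B k) A ^ 2 - ip S A ^ 2) := by
  have hh := h
  obtain ⟨hS, -, hB, -⟩ := hh
  have e : ∑ m, ∑ i, ∑ j, ∑ k, ∑ l,
      A i j * A k l * (B m i j * B m k l + B m i k * B m j l + B m i l * B m j k) =
      ∑ i, ∑ j, ∑ k, ∑ l, A i j * A k l * (S i j * S k l + S i k * S j l + S i l * S j k) := by
    rw [sum_comm]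
    refine sum_congr rfl fun i _ => ?_
    rw [sum_comm]
    refine sum_congr rfl fun j _ => ?_
    rw [sum_comm]
    refine sum_congr rfl fun k _ => ?_
    rw [sum_comm]
    refine sum_congr rfl fun l _ => ?_
    rw [← mul_sum, sphere_entries h]
  rw [kn_expand hA hS, sum_congr rfl fun m _ => kn_expand hA (hB m), sum_sub_distrib, ← mul_sum,
    ← mul_sum] at e
  linarith

theorem sphereNonpos_kn {q : ℕ} {L : Mat N} {D : Fin q → Mat N} (hL : L.IsSymm)
    (hL0 : ∀ x, 0 ≤ bilin L x x) (hDs : ∀ j, (D j).IsSymm)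
    (hD : ∀ x : Fin N → ℝ, ∑ j, bilin (D j) x x ^ 2 ≤ bilin L x x ^ 2) :
    SphereNonpos (∑ j, kn (D j) - kn L) := by
  intro p S B h
  have hh := h
  obtain ⟨hS, hS0, hB, hq⟩ := hh
  have hp := pairing hS hS0 hL hL0 hB hDs (fun x => (hq x).le) hD
  have h1 : ∀ Y : Mat N, act (∑ j, kn (D j) - kn L) Y Y =
      ∑ j, act (kn (D j)) Y Y - act (kn L) Y Y := by
    intro Y
    rw [act_sub, act_sum]
  have e1 : ∑ k, act (∑ j, kn (D j) - kn L) (B k) (B k) =
      ∑ j, ∑ k, act (kn (D j)) (B k) (B k) - ∑ k, act (kn L) (B k) (B k) := by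
    rw [sum_congr rfl fun k _ => h1 (B k), sum_sub_distrib, sum_comm]
  rw [h1, e1]
  have h2 := act_kn_sphere h hL
  have h3 : ∑ j, ∑ k, act (kn (D j)) (B k) (B k) - ∑ j, act (kn (D j)) S S =
      3 / 2 * (∑ j, ∑ k, ip (B k) (D j) ^ 2 - ∑ j, ip S (D j) ^ 2) := by
    rw [← sum_sub_distrib, ← sum_sub_distrib, mul_sum]
    exact sum_congr rfl fun j _ => act_kn_sphere h (hDs j)
  have h4 : ∑ j, ip (D j) S ^ 2 = ∑ j, ip S (D j) ^ 2 :=
    sum_congr rfl fun j _ => by rw [ip_comm]
  have h5 : ∑ k, ∑ j, ip (B k) (D j) ^ 2 = ∑ j, ∑ k, ip (B k) (D j) ^ 2 := sum_comm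
  rw [h4, h5] at hp
  linarith

theorem sphereNonpos_add {R Q : Arr N} (hR : SphereNonpos R) (hQ : SphereNonpos Q) :
    SphereNonpos (R + Q) := by
  intro p S B h
  rw [act_add, sum_congr rfl fun k _ => act_add R Q (B k) (B k), sum_add_distrib]
  exact add_le_add (hR p S B h) (hQ p S B h)

end Pool.Agent.H88S
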