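import Pool.Agent.Lib.H88S.Defs

/-!
# H88S chunk RRPOLY: real-rooted polynomials

`RR N p : ∀ x, ∀ 0 < y ≤ y', y ^ N * ‖p (x + i y')‖ ≤ y' ^ N * ‖p (x + i y)‖`,
`RealRooted p : ∀ z : ℂ, p z = 0 → z.im = 0` (`cev p z = aeval z p`).

* `RealRooted.rr`: over `ℂ`, `p = a ∏ (X - r_i)`, `d = natDegree p ≤ N` real roots `r_i`;
  `|x + i y' - r| / y' ≤ |x + i y - r| / y` because `|a + i y|² / y² = a² / y² + 1`; multiply, and
  use `(y / y') ^ (N - d) ≤ 1`.
* `RR.realRooted`: if `p (x + i y) = 0` with `y > 0` then `p (x + i y') = 0` for all `y' ≥ y`, so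
  `p = 0` (infinitely many roots).  If `y < 0` use conjugation (`p` is real).
* `laguerre_of_splits`: for `p = c ∏ (X - r_i)` and `x` real, `p(x) p''(x) ≤ p'(x)²`: induction,
  `L[(X - r) h] = (x - r)² L[h] + h²`, `L[p] = p'² - p p''`.
* `RR.derivative`: the derivative of a real-rooted polynomial is real-rooted: Gauss–Lucas
  (`Polynomial.rootSet_derivative_subset_convexHull_rootSet` or similar in Mathlib), or
  by factorisation `p'/p = ∑ 1/(z - r_i)` has nonzero imaginary part off the real axis.
* `RR.laguerre`: combine (the case `p = 0` or iterated derivative `= 0` is trivial).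
-/

open Finset Filter Topology Polynomial

namespace Pool.Agent.H88S

variable {N : ℕ}

/-- the monic polynomial with the roots `S` -/
noncomputable def rp (S : Multiset ℝ) : Polynomial ℝ := (S.map fun r => X - C r).prod

theorem rp_zero : rp 0 = 1 := by simp [rp]

theorem rp_cons (r : ℝ) (S : Multiset ℝ) : rp (r ::ₘ S) = (X - C r) * rp S := by simp [rp]

theorem rp_monic (S : Multiset ℝ) : (rp S).Monic := monic_multisetProd_X_sub_C S

theorem rp_natDegree (S : Multiset ℝ) : (rp S).natDegree = Multiset.card S :=
  natDegree_multiset_prod_X_sub_C_eq_card S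

theorem cev_mul (p q : Polynomial ℝ) (z : ℂ) : cev (p * q) z = cev p z * cev q z := by
  simp [cev]

theorem cev_C (a : ℝ) (z : ℂ) : cev (C a) z = a := by
  simp [cev]

theorem cev_conj (p : Polynomial ℝ) (z : ℂ) :
    cev p ((starRingEnd ℂ) z) = (starRingEnd ℂ) (cev p z) := by
  unfold cev
  rw [aeval_conj]

theorem cev_eq_eval_map (p : Polynomial ℝ) (z : ℂ) :
    cev p z = (p.map (algebraMap ℝ ℂ)).eval z := by
  rw [cev, eval_map_algebraMap]

/-- factorisation of real-rooted polynomials -/
theorem RealRooted.factor {p : Polynomial ℝ} (h : RealRooted p) :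
    ∃ S : Multiset ℝ, p = C p.leadingCoeff * rp S := by
  have hp : p ≠ 0 := by
    rintro rfl
    have := h Complex.I (by simp [cev])
    simp at this
  set P : Polynomial ℂ := p.map (algebraMap ℝ ℂ) with hP
  have hsp : Splits P := IsAlgClosed.splits P
  have h1 := hsp.eq_prod_roots
  refine ⟨P.roots.map Complex.re, ?_⟩
  have hinj : Function.Injective (Polynomial.map (algebraMap ℝ ℂ)) :=
    Polynomial.map_injective _ (algebraMap ℝ ℂ).injective
  apply hinj
  rw [← hP]
  rw [Polynomial.map_mul, map_C]
  have h2 : (rp (P.roots.map Complex.re)).map (algebraMap ℝ ℂ) =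
      (P.roots.map fun a => X - C a).prod := by
    unfold rp
    rw [Multiset.map_map, Polynomial.map_multiset_prod, Multiset.map_map]
    congr 1
    refine Multiset.map_congr rfl fun a ha => ?_
    have ha0 : cev p a = 0 := by
      rw [cev_eq_eval_map]
      exact (mem_roots'.1 ha).2
    have him := h a ha0
    simp only [Function.comp_apply, Polynomial.map_sub, map_X, map_C]
    congr 2
    apply Complex.ext <;> simp [him]
  rw [h2]
  have h3 : P.leadingCoeff = algebraMap ℝ ℂ p.leadingCoeff := by
    rw [hP, leadingCoeff_map]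
  rw [← h3]
  exact h1

theorem rr_zero : RR N 0 := by
  intro x y y' _ _
  simp [cev]

theorem rr_rp (S : Multiset ℝ) {y y' : ℝ} (x : ℝ) (hy : 0 < y) (hyy : y ≤ y') :
    y ^ (Multiset.card S) * ‖cev (rp S) (x + y' * Complex.I)‖ ≤
      y' ^ (Multiset.card S) * ‖cev (rp S) (x + y * Complex.I)‖ := by
  induction S using Multiset.induction_on with
  | empty => simp [rp_zero, cev]
  | cons r S ih =>
    rw [rp_cons, cev_mul, cev_mul, norm_mul, norm_mul, Multiset.card_cons, pow_succ, pow_succ]
    have h1 : y * ‖cev (X - C r) (x + y' * Complex.I)‖ ≤ y' * ‖cev (X - C r) (x + y * Complex.I)‖ := by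
      have hc : ∀ w : ℝ, cev (X - C r) (x + w * Complex.I) = ((x - r : ℝ) : ℂ) + w * Complex.I := by
        intro w
        simp [cev]
        ring
      rw [hc, hc, Complex.norm_add_mul_I, Complex.norm_add_mul_I]
      have hy' : 0 < y' := hy.trans_le hyy
      rw [← Real.sqrt_sq hy.le, ← Real.sqrt_sq hy'.le, ← Real.sqrt_mul (by positivity),
        ← Real.sqrt_mul (by positivity), Real.sqrt_sq hy.le, Real.sqrt_sq hy'.le]
      apply Real.sqrt_le_sqrt
      have h2 : y ^ 2 ≤ y' ^ 2 := pow_le_pow_left₀ hy.le hyy 2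
      nlinarith [sq_nonneg (x - r)]
    have h3 : 0 ≤ y ^ (Multiset.card S) * ‖cev (rp S) (x + y' * Complex.I)‖ := by positivity
    have h4 : 0 ≤ y' * ‖cev (X - C r) (x + y * Complex.I)‖ := by
      have : 0 < y' := hy.trans_le hyy
      positivity
    calc y ^ (Multiset.card S) * y *
        (‖cev (X - C r) (x + y' * Complex.I)‖ * ‖cev (rp S) (x + y' * Complex.I)‖)
        = (y * ‖cev (X - C r) (x + y' * Complex.I)‖) *
          (y ^ (Multiset.card S) * ‖cev (rp S) (x + y' * Complex.I)‖) := by ring
      _ ≤ (y' * ‖cev (X - C r) (x + y * Complex.I)‖) *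
          (y' ^ (Multiset.card S) * ‖cev (rp S) (x + y * Complex.I)‖) := mul_le_mul h1 ih h3 h4
      _ = _ := by ring

theorem RealRooted.rr {p : Polynomial ℝ} (h : RealRooted p) (hd : p.natDegree ≤ N) : RR N p := by
  obtain ⟨S, hS⟩ := h.factor
  have hlc : p.leadingCoeff ≠ 0 := by
    intro h0
    rw [leadingCoeff_eq_zero] at h0
    subst h0
    have := h Complex.I (by simp [cev])
    simp at this
  have hcard : Multiset.card S ≤ N := by
    rw [← rp_natDegree S]
    rw [hS] at hd
    rwa [natDegree_C_mul hlc] at hd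
  intro x y y' hy hyy
  have hy' : 0 < y' := hy.trans_le hyy
  rw [hS, cev_mul, cev_mul, cev_C, cev_C, norm_mul, norm_mul]
  have h1 := rr_rp S x hy hyy
  have h2 : y ^ (N - Multiset.card S) ≤ y' ^ (N - Multiset.card S) := pow_le_pow_left₀ hy.le hyy _
  have h3 : y ^ N = y ^ (N - Multiset.card S) * y ^ (Multiset.card S) := by
    rw [← pow_add]; congr 1; omega
  have h4 : y' ^ N = y' ^ (N - Multiset.card S) * y' ^ (Multiset.card S) := by
    rw [← pow_add]; congr 1; omega
  rw [h3, h4]
  have h5 := mul_le_mul h2 h1 (by positivity) (by positivity)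
  have h6 := mul_le_mul_of_nonneg_left h5 (norm_nonneg ((p.leadingCoeff : ℝ) : ℂ))
  calc y ^ (N - Multiset.card S) * y ^ Multiset.card S *
        (‖((p.leadingCoeff : ℝ) : ℂ)‖ * ‖cev (rp S) (x + y' * Complex.I)‖)
      = ‖((p.leadingCoeff : ℝ) : ℂ)‖ * (y ^ (N - Multiset.card S) *
        (y ^ Multiset.card S * ‖cev (rp S) (x + y' * Complex.I)‖)) := by ring
    _ ≤ _ := h6
    _ = _ := by ring

theorem RR.realRooted {p : Polynomial ℝ} (h : RR N p) (hp : p ≠ 0) : RealRooted p := by
  have key : ∀ z : ℂ, 0 < z.im → cev p z ≠ 0 := by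
    intro z hz h0
    apply hp
    have hinf : Set.Infinite {w : ℂ | IsRoot (p.map (algebraMap ℝ ℂ)) w} := by
      have hsub : (fun t : ℝ => (z.re : ℂ) + t * Complex.I) '' Set.Ici z.im ⊆
          {w : ℂ | IsRoot (p.map (algebraMap ℝ ℂ)) w} := by
        rintro _ ⟨t, ht, rfl⟩
        have h1 := h z.re z.im t hz ht
        rw [Complex.re_add_im, h0, norm_zero, mul_zero] at h1
        have h2 : 0 < z.im ^ N := by positivity
        have h3 : ‖cev p (z.re + t * Complex.I)‖ = 0 := by
          have := norm_nonneg (cev p (z.re + t * Complex.I))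
          nlinarith
        rw [norm_eq_zero, cev_eq_eval_map] at h3
        exact h3
      refine Set.Infinite.mono hsub (Set.Infinite.image ?_ (Set.Ici_infinite _))
      intro a _ b _ hab
      have := congrArg Complex.im hab
      simpa using this
    have h1 := eq_zero_of_infinite_isRoot _ hinf
    rwa [Polynomial.map_eq_zero] at h1
  intro z hz
  by_contra him
  rcases lt_or_gt_of_ne him with h1 | h1
  · refine key ((starRingEnd ℂ) z) (by simpa using h1) ?_
    rw [cev_conj, hz, map_zero]
  · exact key z h1 hz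

theorem RealRooted.derivative {p : Polynomial ℝ} (h : RealRooted p)
    (hp : Polynomial.derivative p ≠ 0) : RealRooted (Polynomial.derivative p) := by
  intro z hz
  set P : Polynomial ℂ := p.map (algebraMap ℝ ℂ) with hP
  have hder : P.derivative = (Polynomial.derivative p).map (algebraMap ℝ ℂ) := by
    rw [hP, derivative_map]
  have hder0 : P.derivative ≠ 0 := by
    rw [hder]
    rwa [Ne, Polynomial.map_eq_zero]
  have hdeg : 0 < P.degree := by
    by_contra hc
    push Not at hc
    rw [eq_C_of_degree_le_zero hc] at hder0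
    simp at hder0
  have hsub := rootSet_derivative_subset_convexHull_rootSet hdeg
  have hmem : z ∈ P.derivative.rootSet ℂ := by
    rw [mem_rootSet]
    refine ⟨hder0, ?_⟩
    rw [hder, aeval_map_algebraMap]
    exact hz
  have hz2 := hsub hmem
  have hconv : convexHull ℝ (P.rootSet ℂ) ⊆ {w : ℂ | w.im = 0} := by
    refine convexHull_min ?_ ?_
    · intro w hw
      rw [mem_rootSet] at hw
      apply h w
      rw [cev, ← aeval_map_algebraMap ℂ]
      exact hw.2
    · have : {w : ℂ | w.im = 0} = Complex.imLm ⁻¹' {0} := by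
        ext w; simp
      rw [this]
      exact (convex_singleton (0 : ℝ)).linear_preimage Complex.imLm
  exact hconv hz2

theorem RR.derivative {p : Polynomial ℝ} (h : RR N p) (hd : p.natDegree ≤ N) :
    RR N (Polynomial.derivative p) := by
  by_cases hp : Polynomial.derivative p = 0
  · rw [hp]; exact rr_zero
  · have hp0 : p ≠ 0 := by
      rintro rfl
      exact hp derivative_zero
    refine ((h.realRooted hp0).derivative hp).rr ?_
    exact (natDegree_derivative_le p).trans ((Nat.sub_le _ _).trans hd)

theorem laguerre_rp (S : Multiset ℝ) (x : ℝ) :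
    (rp S).eval x * (Polynomial.derivative (Polynomial.derivative (rp S))).eval x ≤
      ((Polynomial.derivative (rp S)).eval x) ^ 2 ∧
    ((rp S).eval x ≠ 0 → 0 < Multiset.card S →
      (rp S).eval x * (Polynomial.derivative (Polynomial.derivative (rp S))).eval x <
      ((Polynomial.derivative (rp S)).eval x) ^ 2) := by
  induction S using Multiset.induction_on with
  | empty => simp [rp_zero]
  | cons r S ih =>
    obtain ⟨ih1, -⟩ := ih
    have e0 : (rp (r ::ₘ S)).eval x = (x - r) * (rp S).eval x := by
      rw [rp_cons]; simp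
    have e1 : (Polynomial.derivative (rp (r ::ₘ S))).eval x =
        (rp S).eval x + (x - r) * (Polynomial.derivative (rp S)).eval x := by
      rw [rp_cons]; simp
    have e2 : (Polynomial.derivative (Polynomial.derivative (rp (r ::ₘ S)))).eval x =
        2 * (Polynomial.derivative (rp S)).eval x +
          (x - r) * (Polynomial.derivative (Polynomial.derivative (rp S))).eval x := by
      rw [rp_cons]; simp; ring
    rw [e0, e1, e2]
    set h := (rp S).eval x
    set h' := (Polynomial.derivative (rp S)).eval x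
    set h'' := (Polynomial.derivative (Polynomial.derivative (rp S))).eval x
    have hid : (h + (x - r) * h') ^ 2 - (x - r) * h * (2 * h' + (x - r) * h'') =
        h ^ 2 + (x - r) ^ 2 * (h' ^ 2 - h * h'') := by ring
    have h3 : 0 ≤ (x - r) ^ 2 * (h' ^ 2 - h * h'') :=
      mul_nonneg (sq_nonneg _) (by linarith)
    constructor
    · have := sq_nonneg h
      linarith
    · intro hne _
      have hh : h ≠ 0 := fun h0 => hne (by rw [h0, mul_zero])
      have : 0 < h ^ 2 := by positivity
      linarith

theorem RealRooted.laguerre {p : Polynomial ℝ} (h : RealRooted p) (x : ℝ) :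
    p.eval x * (Polynomial.derivative (Polynomial.derivative p)).eval x ≤
      ((Polynomial.derivative p).eval x) ^ 2 ∧
    (p.eval x ≠ 0 → 0 < p.natDegree →
      p.eval x * (Polynomial.derivative (Polynomial.derivative p)).eval x <
      ((Polynomial.derivative p).eval x) ^ 2) := by
  obtain ⟨S, hS⟩ := h.factor
  set a := p.leadingCoeff with ha
  have e0 : p.eval x = a * (rp S).eval x := by
    conv_lhs => rw [hS]
    simp
  have e1 : (Polynomial.derivative p).eval x = a * (Polynomial.derivative (rp S)).eval x := by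
    conv_lhs => rw [hS]
    simp
  have e2 : (Polynomial.derivative (Polynomial.derivative p)).eval x =
      a * (Polynomial.derivative (Polynomial.derivative (rp S))).eval x := by
    conv_lhs => rw [hS]
    simp
  obtain ⟨l1, l2⟩ := laguerre_rp S x
  rw [e0, e1, e2]
  constructor
  · nlinarith [sq_nonneg a]
  · intro hne hdeg
    have ha0 : a ≠ 0 := fun h0 => hne (by rw [h0, zero_mul])
    have hS0 : (rp S).eval x ≠ 0 := fun h0 => hne (by rw [h0, mul_zero])
    have hcard : 0 < Multiset.card S := by
      rw [← rp_natDegree S, ← natDegree_C_mul (p := rp S) ha0, ← hS]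
      exact hdeg
    have := l2 hS0 hcard
    have ha2 : 0 < a ^ 2 := by positivity
    nlinarith

theorem RR.iterate_derivative {p : Polynomial ℝ} (h : RR N p) (hd : p.natDegree ≤ N) (j : ℕ) :
    RR N (Polynomial.derivative^[j] p) ∧ (Polynomial.derivative^[j] p).natDegree ≤ N := by
  induction j with
  | zero => exact ⟨h, hd⟩
  | succ j ih =>
    rw [Function.iterate_succ_apply']
    exact ⟨ih.1.derivative ih.2, (natDegree_derivative_le _).trans ((Nat.sub_le _ _).trans ih.2)⟩

theorem RR.laguerre {p : Polynomial ℝ} (h : RR N p) (hd : p.natDegree ≤ N) (j : ℕ) :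
    (Polynomial.derivative^[j] p).eval 0 * (Polynomial.derivative^[j + 2] p).eval 0 ≤
      ((Polynomial.derivative^[j + 1] p).eval 0) ^ 2 := by
  obtain ⟨h1, -⟩ := h.iterate_derivative hd j
  rw [Function.iterate_succ_apply', Function.iterate_succ_apply']
  by_cases h0 : Polynomial.derivative^[j] p = 0
  · rw [h0]; simp
  · exact ((h1.realRooted h0).laguerre 0).1

end Pool.Agent.H88S
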