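import Pool.Agent.Lib.H88S.Path
import Pool.Agent.Lib.H88S.Bounds
import Pool.Agent.Lib.H88S.RRPoly

/-!
# H88S chunk LIMIT1: the limit of normalised translates with nonreal roots tending to the real axis

`limit_extraction`.  Let `K` be as in `path_V`, `C, C'` as in `bounds N K`.  By `hbad` with
`ε = 1 / (k + 1)` choose `t_k ∈ (x, x + 1/(k+1))`, `t_k ≤ 1`, `X_k` symmetric with
`¬ RR (lineP (E (dA X_k) (path t_k)))`.  By `RealRooted.rr` this real polynomial has a nonreal root,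
`x_k + i y_k` with `y_k > 0` (conjugation).  Replace `X_k` by `X_k + x_k • 1`
(`lineP_shift`, `E_dA_add`, `dA_one`, `dA_smul`): then `i y_k` is a root.  By `bounds`, `y_k < C`.
`H_k := E (dA X_k) (path t_k) ≠ 0` since `cev (lineP H_k) (i C) ≠ 0`; put `a_k = ‖H_k‖⁻¹`,
`G_k = a_k • H_k`, of norm `1`.  By compactness (finite-dimensional unit sphere × `[0, C]`) pass to a
subsequence: `G_k → G`, `y_k → y ∈ [0, C]`.  By (B2) `1 = ‖G_k‖ ≤ C' ‖cev (lineP G_k) (i C)‖`, so
`cev (lineP G) (i C) ≠ 0`, `lineP G ≠ 0`.  `cev (lineP G) (i y) = 0`.  Moreover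
`a_k • E (dA X_k) (path x) = E ((t_k - x) • A) G_k → G` (`path_sub`, `tendsto_E_smul`,
`E_zero`), so `lineP G` is `RR` by `hgood` (`rr_lineP_of_tendsto`, `rr_lineP_smul`).  Hence
`y = 0` by `RR.realRooted`, and `double_root` gives `ev0 G = 0`, `ev0 (dg G) = 0`.
-/


open Finset Filter Topology Polynomial

namespace Pool.Agent.H88S

open Pool.Agent.H69Hopf

variable {N : ℕ}

/-- a real-rootedness failure gives, after a translation, a root on the positive imaginary axis -/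
theorem LIMIT1_root {G : PP N} (h : ¬ Good G) :
    ∃ (X : Mat N) (y : ℝ), X.IsSymm ∧ 0 < y ∧ cev (lineP (E (dA X) G)) (y * Complex.I) = 0 := by
  unfold Good at h
  push Not at h
  obtain ⟨X, hX, hRR⟩ := h
  have h1 : ¬ RealRooted (lineP (E (dA X) G)) := fun h => hRR (h.rr (natDegree_lineP_le _))
  unfold RealRooted at h1
  push Not at h1
  obtain ⟨z, hz, him⟩ := h1
  obtain ⟨w, hw, hwim⟩ : ∃ w : ℂ, cev (lineP (E (dA X) G)) w = 0 ∧ 0 < w.im := by
    rcases lt_or_gt_of_ne him with h2 | h2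
    · refine ⟨(starRingEnd ℂ) z, ?_, by simpa using h2⟩
      rw [cev_conj, hz, map_zero]
    · exact ⟨z, hz, h2⟩
  refine ⟨w.re • (1 : Mat N) + X, w.im, ?_, hwim, ?_⟩
  · exact (Matrix.isSymm_one.smul w.re).add hX
  · rw [← E_dA_add, dA_smul, dA_one, lineP_shift]
    rw [add_comm, Complex.re_add_im]
    exact hw

theorem limit_extraction (R : Arr N) (δ η : ℝ) {x : ℝ} (hx0 : 0 ≤ x) (hx1 : x < 1)
    (hgood : Good (path R δ η x))
    (hbad : ∀ ε > 0, ∃ t, x < t ∧ t < x + ε ∧ t ≤ 1 ∧ ¬ Good (path R δ η t)) :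
    ∃ (G : PP N) (X : ℕ → Mat N) (a : ℕ → ℝ) (t : ℕ → ℝ),
      (∀ k, (X k).IsSymm) ∧ (∀ k, 0 < a k) ∧ (∀ k, x < t k) ∧ Tendsto t atTop (𝓝 x) ∧
      Tendsto (fun k => a k • E (dA (X k)) (path R δ η (t k))) atTop (𝓝 G) ∧
      lineP G ≠ 0 ∧ ev0 G = 0 ∧ ev0 (dg G) = 0 := by
  have _hx1 := hx1
  obtain ⟨K, hK⟩ := path_V R δ η
  obtain ⟨C, hC1, C', hC'0, hB⟩ := bounds N K
  have hC0 : 0 < C := by linarith
  -- the sequence
  have hex : ∀ k : ℕ, ∃ (t : ℝ) (X : Mat N) (y : ℝ), x < t ∧ t < x + 1 / ((k : ℝ) + 1) ∧ t ≤ 1 ∧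
      X.IsSymm ∧ 0 < y ∧ cev (lineP (E (dA X) (path R δ η t))) (y * Complex.I) = 0 := by
    intro k
    obtain ⟨t, ht1, ht2, ht3, ht4⟩ := hbad (1 / ((k : ℝ) + 1)) (by positivity)
    obtain ⟨X, y, hX, hy, hr⟩ := LIMIT1_root ht4
    exact ⟨t, X, y, ht1, ht2, ht3, hX, hy, hr⟩
  choose t X y ht1 ht2 ht3 hX hy hroot using hex
  set H : ℕ → PP N := fun k => E (dA (X k)) (path R δ η (t k)) with hH
  have hHV : ∀ k, (∀ y' : ℝ, C ≤ y' → cev (lineP (H k)) (y' * Complex.I) ≠ 0) ∧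
      ‖H k‖ ≤ C' * ‖cev (lineP (H k)) (C * Complex.I)‖ := by
    intro k
    obtain ⟨V, hV1, hV2, hV3, hV4⟩ := hK (t k) ⟨hx0.trans (ht1 k).le, ht3 k⟩
    have := hB V hV1 hV2 hV3 (X k) (hX k)
    simp only [hH, hV4]
    exact this
  have hyC : ∀ k, y k < C := by
    intro k
    by_contra hc
    push Not at hc
    exact (hHV k).1 (y k) hc (hroot k)
  have hH0 : ∀ k, 0 < ‖H k‖ := by
    intro k
    rw [norm_pos_iff]
    intro h0
    apply (hHV k).1 C le_rfl
    rw [h0, cev_lineP]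
    refine Finset.sum_eq_zero fun j _ => ?_
    rw [map_zero]
    simp [ev0]
  set a : ℕ → ℝ := fun k => ‖H k‖⁻¹ with ha
  have ha0 : ∀ k, 0 < a k := fun k => inv_pos.2 (hH0 k)
  set Gs : ℕ → PP N := fun k => a k • H k with hGs
  have hGn : ∀ k, ‖Gs k‖ = 1 := by
    intro k
    simp only [hGs, ha]
    rw [norm_smul, norm_inv, norm_norm, inv_mul_cancel₀ (hH0 k).ne']
  -- compactness
  have hcomp : IsCompact ((Metric.sphere (0 : PP N) 1) ×ˢ (Set.Icc (0 : ℝ) C)) :=
    (isCompact_sphere 0 1).prod isCompact_Icc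
  obtain ⟨⟨G, y0⟩, ⟨hGmem, hy0mem⟩, φ, hφ, hlim⟩ := hcomp.tendsto_subseq (x := fun k => (Gs k, y k))
    (fun k => ⟨by simp [hGn k], (hy k).le, (hyC k).le⟩)
  have hlimG : Tendsto (fun k => Gs (φ k)) atTop (𝓝 G) := (continuous_fst.tendsto _).comp hlim
  have hlimy : Tendsto (fun k => y (φ k)) atTop (𝓝 y0) := (continuous_snd.tendsto _).comp hlim
  have hlimt0 : Tendsto t atTop (𝓝 x) := by
    have h1 : Tendsto (fun k : ℕ => x + 1 / ((k : ℝ) + 1)) atTop (𝓝 (x + 0)) :=
      tendsto_const_nhds.add tendsto_one_div_add_atTop_nhds_zero_nat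
    rw [add_zero] at h1
    exact tendsto_of_tendsto_of_tendsto_of_le_of_le tendsto_const_nhds h1 (fun k => (ht1 k).le)
      (fun k => (ht2 k).le)
  have hlimt : Tendsto (fun k => t (φ k)) atTop (𝓝 x) := hlimt0.comp hφ.tendsto_atTop
  -- `lineP G ≠ 0`
  have hsc : ∀ k (z : ℂ), cev (lineP (Gs k)) z = (a k : ℂ) * cev (lineP (H k)) z := by
    intro k z
    simp only [hGs]
    rw [lineP_smul, cev_mul, cev_C]
  have hG1 : 1 ≤ C' * ‖cev (lineP G) (C * Complex.I)‖ := by
    have h1 := (tendsto_cev_lineP hlimG (tendsto_const_nhds (x := ((C : ℂ) * Complex.I)))).norm.const_mul C'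
    refine ge_of_tendsto' h1 fun k => ?_
    rw [hsc, norm_mul, Complex.norm_real, Real.norm_eq_abs, abs_of_pos (ha0 _)]
    have h2 := mul_le_mul_of_nonneg_left (hHV (φ k)).2 (ha0 (φ k)).le
    have h3 : a (φ k) * ‖H (φ k)‖ = 1 := inv_mul_cancel₀ (hH0 _).ne'
    rw [h3] at h2
    linarith
  have hG0 : lineP G ≠ 0 := by
    intro h0
    rw [h0] at hG1
    simp [cev] at hG1
    linarith
  have hGroot : cev (lineP G) (y0 * Complex.I) = 0 := by
    have h1 : Tendsto (fun k => ((y (φ k) : ℝ) : ℂ) * Complex.I) atTop (𝓝 ((y0 : ℂ) * Complex.I)) :=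
      ((Complex.continuous_ofReal.tendsto y0).comp hlimy).mul_const Complex.I
    have h2 := tendsto_cev_lineP hlimG h1
    have h3 : (fun k => cev (lineP (Gs (φ k))) (((y (φ k) : ℝ) : ℂ) * Complex.I)) = fun _ => 0 := by
      funext k
      rw [hsc]
      have := hroot (φ k)
      change cev (lineP (H (φ k))) _ = 0 at this
      rw [this, mul_zero]
    rw [h3] at h2
    exact (tendsto_nhds_unique tendsto_const_nhds h2).symm
  -- `lineP G` is real-rooted
  have hGRR : RR N (lineP G) := by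
    set A : Op N := dR R + δ • (dg ^ 2 : Op N) with hA
    have hAU : A ∈ U N := (U N).add_mem (dR_mem R) ((U N).smul_mem ((U N).pow_mem dg_mem 2) δ)
    have h1 : ∀ k, a (φ k) • E (dA (X (φ k))) (path R δ η x) = E ((t (φ k) - x) • A) (Gs (φ k)) := by
      intro k
      have h2 : path R δ η x = E ((t (φ k) - x) • A) (path R δ η (t (φ k))) := by
        rw [← path_sub, sub_sub_cancel]
      have h3 : Commute (E (dA (X (φ k)))) (E ((t (φ k) - x) • A)) :=
        U_comm (E_mem (dA_mem _)) (E_mem ((U N).smul_mem hAU _))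
      have h4 : E (dA (X (φ k))) (E ((t (φ k) - x) • A) (path R δ η (t (φ k)))) =
          E ((t (φ k) - x) • A) (E (dA (X (φ k))) (path R δ η (t (φ k)))) :=
        congrFun (congrArg DFunLike.coe h3.eq) _
      rw [h2, h4]
      simp only [hGs, hH]
      rw [map_smul]
    have h5 : Tendsto (fun k => a (φ k) • E (dA (X (φ k))) (path R δ η x)) atTop (𝓝 G) := by
      have h6 : Tendsto (fun k => t (φ k) - x) atTop (𝓝 0) := by
        have := hlimt.sub_const x
        rwa [sub_self] at this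
      have h7 := tendsto_E_smul (A := A) h6 hlimG
      rw [zero_smul, E_zero] at h7
      have h8 : (fun k => a (φ k) • E (dA (X (φ k))) (path R δ η x)) =
          fun k => E ((t (φ k) - x) • A) (Gs (φ k)) := funext h1
      rw [h8]
      exact h7
    exact rr_lineP_of_tendsto h5 fun k => rr_lineP_smul _ (hgood (X (φ k)) (hX (φ k)))
  have hy00 : y0 = 0 := by
    have := hGRR.realRooted hG0 _ hGroot
    simpa using this
  have hdr := double_root hlimG (fun k => hy (φ k)) (by rw [← hy00]; exact hlimy) (fun k => by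
    rw [hsc]
    have := hroot (φ k)
    change cev (lineP (H (φ k))) _ = 0 at this
    rw [this, mul_zero])
  exact ⟨G, fun k => X (φ k), fun k => a (φ k), fun k => t (φ k), fun k => hX _, fun k => ha0 _,
    fun k => ht1 _, hlimt, hlimG, hG0, hdr.1, hdr.2⟩

end Pool.Agent.H88S
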