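import Pool.Agent.Lib.H88S.Path
import Pool.Agent.Lib.H88S.RRPoly

/-!
# H88S chunk LIMIT2: real-rootedness for the limit

`limit_rr`.  With `A = dR R + δ • dg ^ 2`, `G_k = a_k • E (dA X_k) (path t_k) → G`:
* `a_k • E (dA (Y + X_k)) (path x) = E (dA Y) (E ((t_k - x) • A) G_k) → E (dA Y) G`;
* if `0 < x`, for `s ∈ [0, x]`: `a_k • E (dA X_k) (path (x - s)) = E ((t_k - x + s) • A) G_k
  → E (s • A) G`;
* if `x = 0`, for `s ∈ [0, η]`: `E (s • dg ^ 2) (path 0) = E ((-(η - s)) • dg ^ 2) detP`, so by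
  `start` the translates of `E (s • dg ^ 2) (path 0)` are `RR`, and
  `a_k • E (dA X_k) (E (s • dg ^ 2) (path 0)) = E (s • dg ^ 2) (E (t_k • A) G_k)
  → E (s • dg ^ 2) G`.
-/


open Finset Filter Topology Polynomial

namespace Pool.Agent.H88S

open Pool.Agent.H69Hopf

variable {N : ℕ}

/-- Elements of the commutative algebra `U N` commute when applied. -/
theorem LIMIT2_swap {A B : Op N} (hA : A ∈ U N) (hB : B ∈ U N) (G : PP N) :
    A (B G) = B (A G) := by
  have h := (U_comm hA hB).eq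
  have h2 := LinearMap.congr_fun h G
  simpa only [Module.End.mul_apply] using h2

theorem LIMIT2_A_mem (R : Arr N) (δ : ℝ) : (dR R + δ • (dg ^ 2 : Op N)) ∈ U N :=
  (U N).add_mem (dR_mem R) ((U N).smul_mem (pow_mem dg_mem 2) δ)

theorem limit_rr (R : Arr N) (δ η : ℝ) {x : ℝ} (hx0 : 0 ≤ x)
    (hgood : ∀ t ∈ Set.Icc 0 x, Good (path R δ η t))
    (hstart : ∀ η' : ℝ, 0 ≤ η' → Good (E ((-η') • (dg ^ 2 : Op N)) detP))
    {G : PP N} {X : ℕ → Mat N} {a : ℕ → ℝ} {t : ℕ → ℝ}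
    (hX : ∀ k, (X k).IsSymm) (ht : Tendsto t atTop (𝓝 x))
    (hG : Tendsto (fun k => a k • E (dA (X k)) (path R δ η (t k))) atTop (𝓝 G)) :
    Anti G ∧ Good G ∧
    (0 < x → ∀ s ∈ Set.Icc 0 x, RR N (lineP (E (s • (dR R + δ • (dg ^ 2 : Op N))) G))) ∧
    (x = 0 → ∀ s ∈ Set.Icc 0 η, RR N (lineP (E (s • (dg ^ 2 : Op N)) G))) := by
  have hUA := LIMIT2_A_mem R δ
  have hUE : ∀ r : ℝ, E (r • (dR R + δ • (dg ^ 2 : Op N))) ∈ U N := fun r =>
    E_mem ((U N).smul_mem hUA r)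
  have hUg : ∀ r : ℝ, E (r • (dg ^ 2 : Op N)) ∈ U N := fun r =>
    E_mem ((U N).smul_mem (pow_mem dg_mem 2) r)
  have hUX : ∀ Y : Mat N, E (dA Y) ∈ U N := fun Y => E_mem (dA_mem Y)
  have hE0 : ∀ H : PP N, E ((0 : ℝ) • (dR R + δ • (dg ^ 2 : Op N))) H = H := by
    intro H
    rw [zero_smul, E_zero]
    rfl
  -- the path at time `y` in terms of the path at time `t k`
  have hpath : ∀ (y : ℝ) (k : ℕ), path R δ η y =
      E ((t k - y) • (dR R + δ • (dg ^ 2 : Op N))) (path R δ η (t k)) := by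
    intro y k
    have h := path_sub R δ η (t k) (t k - y)
    rw [sub_sub_cancel] at h
    exact h
  have hswap : ∀ (y : ℝ) (k : ℕ), a k • E (dA (X k)) (path R δ η y) =
      E ((t k - y) • (dR R + δ • (dg ^ 2 : Op N)))
        (a k • E (dA (X k)) (path R δ η (t k))) := by
    intro y k
    rw [map_smul, LIMIT2_swap (hUE (t k - y)) (hUX (X k)), ← hpath y k]
  have htend : ∀ y : ℝ, Tendsto (fun k => a k • E (dA (X k)) (path R δ η y)) atTop
      (𝓝 (E ((x - y) • (dR R + δ • (dg ^ 2 : Op N))) G)) := by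
    intro y
    have h := tendsto_E_smul (A := dR R + δ • (dg ^ 2 : Op N)) (ht.sub_const y) hG
    refine h.congr fun k => ?_
    exact (hswap y k).symm
  have hmain : ∀ y ∈ Set.Icc 0 x, ∀ Y : Mat N, Y.IsSymm →
      RR N (lineP (E (dA Y) (E ((x - y) • (dR R + δ • (dg ^ 2 : Op N))) G))) := by
    intro y hy Y hY
    have h2 : Tendsto (fun k => E (dA Y) (a k • E (dA (X k)) (path R δ η y))) atTop
        (𝓝 (E (dA Y) (E ((x - y) • (dR R + δ • (dg ^ 2 : Op N))) G))) :=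
      ((continuous_op (E (dA Y))).tendsto _).comp (htend y)
    refine rr_lineP_of_tendsto h2 fun k => ?_
    rw [map_smul, E_dA_add]
    exact rr_lineP_smul _ (hgood y hy (Y + X k) (hY.add (hX k)))
  refine ⟨?_, ?_, ?_, ?_⟩
  · refine Anti.of_tendsto (fun k => ?_) hG
    exact ((anti_path R δ η (t k)).apply (hUX (X k))).smul (a k)
  · intro Y hY
    have h := hmain x ⟨hx0, le_rfl⟩ Y hY
    rwa [sub_self, hE0] at h
  · intro _ s hs
    have h := hmain (x - s) ⟨by linarith [hs.2], by linarith [hs.1]⟩ 0 Matrix.isSymm_zero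
    rw [sub_sub_cancel] at h
    have h0 : (dA (0 : Mat N)) = 0 := by
      unfold dA
      simp
    rw [h0, E_zero] at h
    exact h
  · intro hx s hs
    subst hx
    have hcomb : E (s • (dg ^ 2 : Op N)) (path R δ η 0) =
        E ((-(η - s)) • (dg ^ 2 : Op N)) detP := by
      rw [path_zero]
      have h1 : ((-(η - s)) • (dg ^ 2 : Op N)) = s • (dg ^ 2 : Op N) + (-η) • (dg ^ 2 : Op N) := by
        rw [← add_smul]
        congr 1
        ring
      rw [h1, E_add (pos_smul s pos_dg_sq) (pos_smul (-η) pos_dg_sq)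
        (U_comm ((U N).smul_mem (pow_mem dg_mem 2) s) ((U N).smul_mem (pow_mem dg_mem 2) (-η))),
        Module.End.mul_apply]
    have hg2 : Good (E (s • (dg ^ 2 : Op N)) (path R δ η 0)) := by
      rw [hcomb]
      exact hstart (η - s) (by linarith [hs.2])
    have h2 : Tendsto (fun k => E (s • (dg ^ 2 : Op N)) (a k • E (dA (X k)) (path R δ η 0))) atTop
        (𝓝 (E (s • (dg ^ 2 : Op N)) (E (((0 : ℝ) - 0) • (dR R + δ • (dg ^ 2 : Op N))) G))) :=
      ((continuous_op (E (s • (dg ^ 2 : Op N)))).tendsto _).comp (htend 0)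
    rw [sub_self, hE0] at h2
    refine rr_lineP_of_tendsto h2 fun k => ?_
    rw [map_smul, LIMIT2_swap (hUg s) (hUX (X k))]
    exact rr_lineP_smul _ (hg2 (X k) (hX k))

end Pool.Agent.H88S
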