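import Pool.Agent.Lib.H88S.Ops

/-!
# H88S chunk LINEP: the polynomial `lineP G`

`lineP G = ∑_{k ≤ N} (ev0 (dg ^ k G) / k!) X ^ k`.

* `eval_derivative_lineP`: `coeff j = ev0 (dg ^ j G) / j!` for `j ≤ N`; for `j > N` both sides are
  `0` (`pow_eq_zero_of_pos pos_dg`).
* `lineP_shift`: `dg ^ k (E (s • dg) G) = ∑_j s ^ j / j! • dg ^ (k + j) G`, binomial formula.
* `lineP_heat`: `dg ^ j (E ((-η) • dg ^ 2) G) = ∑_k (-η) ^ k / k! • dg ^ (j + 2 k) G`; compare
  coefficients with `heat N η (lineP G)` using `eval_derivative_lineP`.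
* `rr_lineP_of_tendsto`: `cev (lineP G) z` is continuous in `G`; the inequality defining `RR`
  passes to the limit.
-/

open Finset Filter Topology Polynomial

namespace Pool.Agent.H88S

variable {N : ℕ}

theorem LINEP_ev0_smul (a : ℝ) (G : PP N) : ev0 (a • G) = a * ev0 G := rfl

theorem LINEP_ev0_sum {ι : Type*} (s : Finset ι) (f : ι → PP N) :
    ev0 (∑ i ∈ s, f i) = ∑ i ∈ s, ev0 (f i) := by
  unfold ev0
  rw [Finset.sum_apply]

theorem LINEP_dg_zero {k : ℕ} (hk : N + 1 ≤ k) (G : PP N) : (dg ^ k : Op N) G = 0 := by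
  rw [pow_eq_zero_of_pos pos_dg hk]
  rfl

theorem cev_lineP (G : PP N) (z : ℂ) :
    cev (lineP G) z =
      ∑ k ∈ range (N + 1), z ^ k / (k.factorial : ℂ) * ((ev0 ((dg ^ k : Op N) G) : ℝ) : ℂ) := by
  unfold cev lineP
  rw [map_sum]
  refine Finset.sum_congr rfl fun k _ => ?_
  simp only [map_mul, map_pow, aeval_C, aeval_X, Complex.coe_algebraMap, Complex.ofReal_div,
    Complex.ofReal_natCast]
  ring

theorem natDegree_lineP_le (G : PP N) : (lineP G).natDegree ≤ N := by
  unfold lineP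
  refine natDegree_sum_le_of_forall_le _ _ fun k hk => ?_
  refine (natDegree_C_mul_X_pow_le _ _).trans ?_
  have := Finset.mem_range.1 hk
  omega

theorem coeff_lineP (G : PP N) (j : ℕ) :
    (lineP G).coeff j = ev0 ((dg ^ j : Op N) G) / j.factorial := by
  by_cases hj : j ≤ N
  · unfold lineP
    rw [finsetSum_coeff]
    rw [Finset.sum_eq_single j]
    · simp
    · intro k _ hk
      rw [coeff_C_mul_X_pow, if_neg (Ne.symm hk)]
    · intro h
      exact absurd (Finset.mem_range.2 (by omega)) h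
  · rw [coeff_eq_zero_of_natDegree_lt ((natDegree_lineP_le G).trans_lt (by omega)),
      LINEP_dg_zero (by omega)]
    simp [ev0]

theorem eval_derivative_lineP (G : PP N) (j : ℕ) :
    (Polynomial.derivative^[j] (lineP G)).eval 0 = ev0 ((dg ^ j : Op N) G) := by
  rw [← coeff_zero_eq_eval_zero, coeff_iterate_derivative]
  have : (j.factorial : ℝ) ≠ 0 := by positivity
  simp [Nat.descFactorial_self, coeff_lineP]
  field_simp

theorem exists_of_lineP_ne_zero {G : PP N} (h : lineP G ≠ 0) :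
    ∃ m, ev0 ((dg ^ m : Op N) G) ≠ 0 := by
  by_contra hc
  push Not at hc
  apply h
  ext j
  rw [coeff_lineP, hc j]
  simp

theorem LINEP_tendsto_coef {G : ℕ → PP N} {G0 : PP N} (h : Tendsto G atTop (𝓝 G0)) (j : ℕ) :
    Tendsto (fun k => ev0 ((dg ^ j : Op N) (G k))) atTop (𝓝 (ev0 ((dg ^ j : Op N) G0))) :=
  (continuous_ev0.tendsto _).comp (((continuous_op (dg ^ j : Op N)).tendsto _).comp h)

theorem tendsto_cev_lineP {G : ℕ → PP N} {G0 : PP N} {z : ℕ → ℂ} {z0 : ℂ}
    (h : Tendsto G atTop (𝓝 G0)) (hz : Tendsto z atTop (𝓝 z0)) :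
    Tendsto (fun k => cev (lineP (G k)) (z k)) atTop (𝓝 (cev (lineP G0) z0)) := by
  simp only [cev_lineP]
  refine tendsto_finsetSum _ fun j _ => ?_
  exact ((hz.pow j).div_const _).mul
    ((Complex.continuous_ofReal.tendsto _).comp (LINEP_tendsto_coef h j))

theorem rr_lineP_of_tendsto {G : ℕ → PP N} {G0 : PP N} (h : Tendsto G atTop (𝓝 G0))
    (hG : ∀ k, RR N (lineP (G k))) : RR N (lineP G0) := by
  intro x y y' hy hyy
  have h1 := (tendsto_cev_lineP h (tendsto_const_nhds (x := ((x : ℂ) + y' * Complex.I)))).norm.const_mul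
    (y ^ N)
  have h2 := (tendsto_cev_lineP h (tendsto_const_nhds (x := ((x : ℂ) + y * Complex.I)))).norm.const_mul
    (y' ^ N)
  exact le_of_tendsto_of_tendsto' h1 h2 fun k => hG k x y y' hy hyy

theorem lineP_smul (a : ℝ) (G : PP N) : lineP (a • G) = Polynomial.C a * lineP G := by
  ext j
  rw [coeff_C_mul, coeff_lineP, coeff_lineP, map_smul, LINEP_ev0_smul]
  ring

theorem rr_lineP_smul {G : PP N} (a : ℝ) (h : RR N (lineP G)) : RR N (lineP (a • G)) := by
  intro x y y' hy hyy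
  have h1 := h x y y' hy hyy
  have h2 : ∀ z : ℂ, cev (lineP (a • G)) z = a * cev (lineP G) z := by
    intro z
    rw [lineP_smul]
    simp [cev]
  rw [h2, h2, norm_mul, norm_mul]
  have h3 := mul_le_mul_of_nonneg_left h1 (norm_nonneg ((a : ℝ) : ℂ))
  calc y ^ N * (‖(a : ℂ)‖ * ‖cev (lineP G) (x + y' * Complex.I)‖)
      = ‖(a : ℂ)‖ * (y ^ N * ‖cev (lineP G) (x + y' * Complex.I)‖) := by ring
    _ ≤ _ := h3
    _ = _ := by ring

theorem LINEP_eval (G : PP N) (t : ℝ) : (lineP G).eval t = ev0 (E (t • dg) G) := by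
  rw [E_smul_apply, LINEP_ev0_sum]
  unfold lineP
  rw [eval_finsetSum]
  refine Finset.sum_congr rfl fun k _ => ?_
  rw [LINEP_ev0_smul]
  simp
  ring

theorem lineP_shift (G : PP N) (s : ℝ) (z : ℂ) :
    cev (lineP (E (s • dg) G)) z = cev (lineP G) (z + s) := by
  have h : lineP (E (s • dg) G) = (lineP G).comp (X + C s) := by
    apply Polynomial.funext
    intro t
    rw [eval_comp]
    simp only [eval_add, eval_X, eval_C]
    rw [LINEP_eval, LINEP_eval, add_smul, E_add (pos_smul t pos_dg) (pos_smul s pos_dg)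
      (((Commute.refl (dg : Op N)).smul_left t).smul_right s)]
    rfl
  rw [h]
  simp [cev, aeval_comp]

theorem lineP_heat (G : PP N) (η : ℝ) :
    lineP (E ((-η) • (dg ^ 2 : Op N)) G) = heat N η (lineP G) := by
  have hco : ∀ (p q : Polynomial ℝ), (∀ j : ℕ, (Polynomial.derivative^[j] p).eval 0 =
      (Polynomial.derivative^[j] q).eval 0) → p = q := by
    intro p q h
    ext j
    have := h j
    rw [← coeff_zero_eq_eval_zero, ← coeff_zero_eq_eval_zero, coeff_iterate_derivative,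
      coeff_iterate_derivative] at this
    simp [Nat.descFactorial_self] at this
    rcases this with h1 | h1
    · exact h1
    · exact absurd h1 (Nat.factorial_ne_zero j)
  apply hco
  intro j
  rw [eval_derivative_lineP, E_smul_apply, map_sum, LINEP_ev0_sum]
  unfold heat
  rw [Polynomial.iterate_derivative_sum, eval_finsetSum]
  refine Finset.sum_congr rfl fun k _ => ?_
  rw [map_smul, LINEP_ev0_smul, Polynomial.iterate_derivative_C_mul, eval_mul, eval_C,
    ← Function.iterate_add_apply, eval_derivative_lineP]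
  congr 2
  rw [← pow_mul, pow_add]
  rfl

/-- If `iy_k` are roots of `lineP (G k)` with `y_k > 0`, `y_k → 0`, then in the limit `0` is a double
root.  (`lineP` has real coefficients `a_j`; `0 = a_0 + i y a_1 + (i y)² r` with `r` bounded; take
real and imaginary parts.) -/
theorem double_root {G : ℕ → PP N} {G0 : PP N} {y : ℕ → ℝ} (hG : Tendsto G atTop (𝓝 G0))
    (hy : ∀ k, 0 < y k) (hy0 : Tendsto y atTop (𝓝 0))
    (h : ∀ k, cev (lineP (G k)) (y k * Complex.I) = 0) :
    ev0 G0 = 0 ∧ ev0 (dg G0) = 0 := by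
  have hw : Tendsto (fun k => ((y k : ℝ) : ℂ) * Complex.I) atTop (𝓝 0) := by
    have := ((Complex.continuous_ofReal.tendsto 0).comp hy0).mul_const Complex.I
    simpa using this
  have h0 : ev0 G0 = 0 := by
    have h1 := tendsto_cev_lineP hG hw
    have h2 : (fun k => cev (lineP (G k)) (((y k : ℝ) : ℂ) * Complex.I)) = fun _ => 0 := by
      funext k
      exact h k
    rw [h2] at h1
    have h3 : cev (lineP G0) 0 = 0 := (tendsto_nhds_unique tendsto_const_nhds h1).symm
    rw [cev_lineP, Finset.sum_eq_single 0] at h3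
    · simpa using h3
    · intro k _ hk
      simp [hk]
    · intro hc
      simp at hc
  refine ⟨h0, ?_⟩
  -- expansion up to second order
  have hexp : ∀ (H : PP N) (w : ℂ), cev (lineP H) w =
      (∑ j ∈ range (N + 1), w ^ j / ((j + 2).factorial : ℂ) * ((ev0 ((dg ^ (j + 2) : Op N) H) : ℝ) : ℂ)) *
        w ^ 2 + w * ((ev0 (dg H) : ℝ) : ℂ) + ((ev0 H : ℝ) : ℂ) := by
    intro H w
    have e1 : cev (lineP H) w = ∑ k ∈ range (N + 1 + 2), w ^ k / (k.factorial : ℂ) *
        ((ev0 ((dg ^ k : Op N) H) : ℝ) : ℂ) := by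
      rw [cev_lineP, Finset.sum_range_succ _ (N + 1 + 1), Finset.sum_range_succ _ (N + 1),
        LINEP_dg_zero (k := N + 1) le_rfl, LINEP_dg_zero (k := N + 1 + 1) (by omega)]
      simp [ev0]
    rw [e1, Finset.sum_range_succ' _ (N + 1 + 1), Finset.sum_range_succ' _ (N + 1), Finset.sum_mul]
    have e2 : ∀ j ∈ range (N + 1), w ^ (j + 1 + 1) / ((j + 1 + 1).factorial : ℂ) *
        ((ev0 ((dg ^ (j + 1 + 1) : Op N) H) : ℝ) : ℂ) =
        w ^ j / ((j + 2).factorial : ℂ) * ((ev0 ((dg ^ (j + 2) : Op N) H) : ℝ) : ℂ) * w ^ 2 := by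
      intro j _
      rw [show j + 1 + 1 = j + 2 from rfl, pow_add w j 2]
      ring
    rw [Finset.sum_congr rfl e2]
    simp
  set r : ℕ → ℂ := fun k => ∑ j ∈ range (N + 1), (((y k : ℝ) : ℂ) * Complex.I) ^ j /
    ((j + 2).factorial : ℂ) * ((ev0 ((dg ^ (j + 2) : Op N) (G k)) : ℝ) : ℂ) with hr
  have hrt : ∃ r0 : ℂ, Tendsto r atTop (𝓝 r0) :=
    ⟨_, tendsto_finsetSum _ fun j _ => ((hw.pow j).div_const _).mul
      ((Complex.continuous_ofReal.tendsto _).comp (LINEP_tendsto_coef hG (j + 2)))⟩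
  obtain ⟨r0, hr0⟩ := hrt
  have hk : ∀ k, ev0 (dg (G k)) = y k * (r k).im := by
    intro k
    have h1 := h k
    rw [hexp] at h1
    have h2 := congrArg Complex.im h1
    have h3 : (r k * (((y k : ℝ) : ℂ) * Complex.I) ^ 2).im = -(y k ^ 2) * (r k).im := by
      have : (((y k : ℝ) : ℂ) * Complex.I) ^ 2 = ((-(y k ^ 2) : ℝ) : ℂ) := by
        rw [mul_pow, Complex.I_sq]
        push_cast
        ring
      rw [this, mul_comm, Complex.im_ofReal_mul]
    have h4 : ((((y k : ℝ) : ℂ) * Complex.I) * ((ev0 (dg (G k)) : ℝ) : ℂ)).im = y k * ev0 (dg (G k)) := by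
      simp
    rw [Complex.add_im, Complex.add_im] at h2
    change (r k * (((y k : ℝ) : ℂ) * Complex.I) ^ 2).im + _ + _ = _ at h2
    rw [h3, h4, Complex.ofReal_im, Complex.zero_im, add_zero] at h2
    have h5 : y k * (ev0 (dg (G k)) - y k * (r k).im) = 0 := by linarith
    rcases mul_eq_zero.1 h5 with h6 | h6
    · exact absurd h6 (hy k).ne'
    · linarith
  have hl1 : Tendsto (fun k => ev0 (dg (G k))) atTop (𝓝 (ev0 (dg G0))) := by
    have := LINEP_tendsto_coef hG 1
    simpa using this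
  have hl2 : Tendsto (fun k => y k * (r k).im) atTop (𝓝 (0 * r0.im)) :=
    hy0.mul ((Complex.continuous_im.tendsto _).comp hr0)
  rw [zero_mul] at hl2
  have hl3 : (fun k => ev0 (dg (G k))) = fun k => y k * (r k).im := funext hk
  rw [hl3] at hl1
  exact tendsto_nhds_unique hl1 hl2

end Pool.Agent.H88S
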