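import Pool.Agent.Lib.H88S.LineP
import Pool.Agent.Lib.H88S.RRPoly

/-!
# H88S chunk LOCAL: consequences of the Laguerre inequality at a multiple root

For `A ∈ U N` put `φ_j(s) = ev0 (dg ^ j (E (s • A) G)) = ∑_k s ^ k / k! * ev0 (dg ^ j (A ^ k G))`, a
polynomial in `s`.  `RR.laguerre` for `lineP (E (s • A) G)` with `eval_derivative_lineP` says
`φ_{m-2}(s) φ_m(s) ≤ φ_{m-1}(s)²` for all `s` for which `lineP (E (s • A) G)` is `RR`.
If `ev0 (dg ^ j G) = 0` for `j < m`: `φ_{m-2}(0) = φ_{m-1}(0) = 0`, `φ_m(0) = κ`.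

* `local_time`: divide by `s > 0` and let `s → 0`: `φ_{m-2}'(0) κ ≤ 0`,
  `φ_{m-2}'(0) = ev0 (A dg^{m-2} G)`.
* `local_space`: apply this to `A = dA Y` and `A = dA (-Y)`: `φ_{m-2}'(0) = 0` (as `κ ≠ 0`).  Divide
  by `s²`: `(1/2) φ_{m-2}''(0) κ ≤ φ_{m-1}'(0)²`, i.e. with
  `q(Y, Z) = ev0 (dA Y dA Z dg^{m-2} G)`, `κ = q(1, 1)`:
  `(1/2) κ q(Y, Y) ≤ q(1, Y)²`.  Apply this to `Y' = Y - (q(1, Y) / κ) 1`: `q(1, Y') = 0` so
  `κ q(Y', Y') ≤ 0`, and `q(Y', Y') = q(Y, Y) - q(1, Y)² / κ`.  Multiply by `κ²`... conclusion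
  `κ q(Y, Y) ≤ q(1, Y)²`.
-/

open Finset Filter Topology Polynomial

namespace Pool.Agent.H88S

variable {N : ℕ}

theorem LOCAL_split (F : Polynomial ℝ) (h0 : F.coeff 0 = 0) (s : ℝ) :
    F.eval s = s * F.divX.eval s := by
  have h1 := congrArg (Polynomial.eval s) (Polynomial.divX_mul_X_add F)
  rw [h0, map_zero, add_zero, Polynomial.eval_mul, Polynomial.eval_X] at h1
  rw [← h1, mul_comm]

theorem LOCAL_tendsto (F : Polynomial ℝ) (l : Filter ℝ) (hl : l ≤ 𝓝 0) :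
    Tendsto (fun s => F.eval s) l (𝓝 (F.coeff 0)) := by
  rw [Polynomial.coeff_zero_eq_eval_zero]
  exact (F.continuous.tendsto 0).mono_left hl

theorem LOCAL_poly1 {F0 F1 F2 : Polynomial ℝ} {ε : ℝ} (hε : 0 < ε)
    (h : ∀ s ∈ Set.Icc 0 ε, F0.eval s * F2.eval s ≤ (F1.eval s) ^ 2) (h0 : F0.coeff 0 = 0)
    (h1 : F1.coeff 0 = 0) : F0.coeff 1 * F2.coeff 0 ≤ 0 := by
  have hl : 𝓝[>] (0 : ℝ) ≤ 𝓝 0 := nhdsWithin_le_nhds
  have t1 : Tendsto (fun s => F0.divX.eval s * F2.eval s) (𝓝[>] 0)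
      (𝓝 (F0.coeff 1 * F2.coeff 0)) := by
    have := (LOCAL_tendsto F0.divX _ hl).mul (LOCAL_tendsto F2 _ hl)
    rwa [Polynomial.coeff_divX, zero_add] at this
  have t2 : Tendsto (fun s => s * (F1.divX.eval s) ^ 2) (𝓝[>] 0)
      (𝓝 (0 * (F1.coeff 1) ^ 2)) := by
    have h2 := (LOCAL_tendsto F1.divX _ hl).pow 2
    rw [Polynomial.coeff_divX, zero_add] at h2
    exact (tendsto_id.mono_left hl).mul h2
  rw [zero_mul] at t2
  refine le_of_tendsto_of_tendsto t1 t2 ?_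
  filter_upwards [Ioc_mem_nhdsGT hε] with s hs
  have h3 := h s ⟨hs.1.le, hs.2⟩
  rw [LOCAL_split F0 h0, LOCAL_split F1 h1] at h3
  have hs0 : 0 < s := hs.1
  refine le_of_mul_le_mul_left ?_ hs0
  calc s * (F0.divX.eval s * F2.eval s) = s * F0.divX.eval s * F2.eval s := by ring
    _ ≤ _ := h3
    _ = _ := by ring

theorem LOCAL_poly1' {F0 F1 F2 : Polynomial ℝ}
    (h : ∀ s, F0.eval s * F2.eval s ≤ (F1.eval s) ^ 2) (h0 : F0.coeff 0 = 0)
    (h1 : F1.coeff 0 = 0) : 0 ≤ F0.coeff 1 * F2.coeff 0 := by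
  have hl : 𝓝[<] (0 : ℝ) ≤ 𝓝 0 := nhdsWithin_le_nhds
  have t1 : Tendsto (fun s => F0.divX.eval s * F2.eval s) (𝓝[<] 0)
      (𝓝 (F0.coeff 1 * F2.coeff 0)) := by
    have := (LOCAL_tendsto F0.divX _ hl).mul (LOCAL_tendsto F2 _ hl)
    rwa [Polynomial.coeff_divX, zero_add] at this
  have t2 : Tendsto (fun s => s * (F1.divX.eval s) ^ 2) (𝓝[<] 0)
      (𝓝 (0 * (F1.coeff 1) ^ 2)) := by
    have h2 := (LOCAL_tendsto F1.divX _ hl).pow 2
    rw [Polynomial.coeff_divX, zero_add] at h2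
    exact (tendsto_id.mono_left hl).mul h2
  rw [zero_mul] at t2
  refine le_of_tendsto_of_tendsto t2 t1 ?_
  filter_upwards [self_mem_nhdsWithin] with s hs
  have h3 := h s
  rw [LOCAL_split F0 h0, LOCAL_split F1 h1] at h3
  have hs0 : 0 < -s := neg_pos.mpr hs
  refine le_of_mul_le_mul_left ?_ hs0
  calc -s * (s * (F1.divX.eval s) ^ 2) = - (s * F1.divX.eval s) ^ 2 := by ring
    _ ≤ - (s * F0.divX.eval s * F2.eval s) := neg_le_neg h3
    _ = _ := by ring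

theorem LOCAL_poly2 {F0 F1 F2 : Polynomial ℝ}
    (h : ∀ s, F0.eval s * F2.eval s ≤ (F1.eval s) ^ 2) (h0 : F0.coeff 0 = 0)
    (h1 : F1.coeff 0 = 0) (hκ : F2.coeff 0 ≠ 0) :
    F0.coeff 2 * F2.coeff 0 ≤ (F1.coeff 1) ^ 2 := by
  have e1 := LOCAL_poly1 one_pos (fun s _ => h s) h0 h1
  have e2 := LOCAL_poly1' h h0 h1
  have e3 : F0.coeff 1 = 0 := by
    rcases mul_eq_zero.mp (le_antisymm e1 e2) with h2 | h2
    · exact h2
    · exact absurd h2 hκ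
  have hl : 𝓝[≠] (0 : ℝ) ≤ 𝓝 0 := nhdsWithin_le_nhds
  have t1 : Tendsto (fun s => F0.divX.divX.eval s * F2.eval s) (𝓝[≠] 0)
      (𝓝 (F0.coeff 2 * F2.coeff 0)) := by
    have := (LOCAL_tendsto F0.divX.divX _ hl).mul (LOCAL_tendsto F2 _ hl)
    rwa [Polynomial.coeff_divX, Polynomial.coeff_divX] at this
  have t2 : Tendsto (fun s => (F1.divX.eval s) ^ 2) (𝓝[≠] 0) (𝓝 ((F1.coeff 1) ^ 2)) := by
    have h2 := (LOCAL_tendsto F1.divX _ hl).pow 2
    rwa [Polynomial.coeff_divX, zero_add] at h2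
  refine le_of_tendsto_of_tendsto t1 t2 ?_
  filter_upwards [self_mem_nhdsWithin] with s hs
  have h3 := h s
  rw [LOCAL_split F0 h0, LOCAL_split F1 h1, LOCAL_split F0.divX (by
    rw [Polynomial.coeff_divX, zero_add]; exact e3)] at h3
  have hs0 : 0 < s ^ 2 := by
    have : s ≠ 0 := hs
    positivity
  refine le_of_mul_le_mul_left ?_ hs0
  calc s ^ 2 * (F0.divX.divX.eval s * F2.eval s) =
        s * (s * F0.divX.divX.eval s) * F2.eval s := by ring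
    _ ≤ _ := h3
    _ = _ := by ring

/-- The polynomial `s ↦ ev0 (dg ^ j (E (s • A) G))`. -/
noncomputable def LOCAL_F (A : Op N) (G : PP N) (j : ℕ) : Polynomial ℝ :=
  ∑ k ∈ range (N + 1), Polynomial.C (ev0 ((dg ^ j * A ^ k : Op N) G) / k.factorial) *
    Polynomial.X ^ k

theorem LOCAL_eval (A : Op N) (G : PP N) (j : ℕ) (s : ℝ) :
    (LOCAL_F A G j).eval s = ev0 ((dg ^ j : Op N) (E (s • A) G)) := by
  rw [E_smul_apply, map_sum]
  unfold LOCAL_F ev0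
  rw [Polynomial.eval_finsetSum, Finset.sum_apply]
  refine Finset.sum_congr rfl fun k _ => ?_
  rw [Polynomial.eval_mul, Polynomial.eval_C, Polynomial.eval_pow, Polynomial.eval_X, map_smul,
    Pi.smul_apply, smul_eq_mul, Module.End.mul_apply]
  ring

theorem LOCAL_coeff (A : Op N) (G : PP N) (j : ℕ) {k : ℕ} (hk : k ≤ N) :
    (LOCAL_F A G j).coeff k = ev0 ((dg ^ j * A ^ k : Op N) G) / k.factorial := by
  unfold LOCAL_F
  rw [Polynomial.finsetSum_coeff]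
  simp only [Polynomial.coeff_C_mul_X_pow]
  rw [Finset.sum_ite_eq, if_pos (Finset.mem_range.mpr (by omega))]

theorem LOCAL_laguerre {A : Op N} {G : PP N} {s : ℝ} (h : RR N (lineP (E (s • A) G))) {m : ℕ}
    (hm : 2 ≤ m) : (LOCAL_F A G (m - 2)).eval s * (LOCAL_F A G m).eval s ≤
      ((LOCAL_F A G (m - 1)).eval s) ^ 2 := by
  have h1 := h.laguerre (natDegree_lineP_le _) (m - 2)
  rw [eval_derivative_lineP, eval_derivative_lineP, eval_derivative_lineP,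
    show m - 2 + 2 = m by omega, show m - 2 + 1 = m - 1 by omega] at h1
  rw [LOCAL_eval, LOCAL_eval, LOCAL_eval]
  exact h1

theorem local_time {G : PP N} {A : Op N} (hA : A ∈ U N) {ε : ℝ} (hε : 0 < ε)
    (hRR : ∀ s ∈ Set.Icc (0 : ℝ) ε, RR N (lineP (E (s • A) G))) {m : ℕ} (hm : 2 ≤ m)
    (h0 : ∀ j < m, ev0 ((dg ^ j : Op N) G) = 0) :
    ev0 ((dg ^ m : Op N) G) * ev0 ((A * dg ^ (m - 2) : Op N) G) ≤ 0 := by
  rcases Nat.lt_or_ge N m with hN | hN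
  · rw [pow_eq_zero_of_pos pos_dg (by omega : N + 1 ≤ m)]
    have : ev0 ((0 : Op N) G) = 0 := rfl
    rw [this, zero_mul]
  have h1 := LOCAL_poly1 hε (fun s hs => LOCAL_laguerre (hRR s hs) hm) (by
      rw [LOCAL_coeff _ _ _ (by omega), pow_zero, mul_one, h0 (m - 2) (by omega), zero_div]) (by
      rw [LOCAL_coeff _ _ _ (by omega), pow_zero, mul_one, h0 (m - 1) (by omega), zero_div])
  rw [LOCAL_coeff _ _ _ (by omega), LOCAL_coeff _ _ _ (by omega), pow_one, pow_zero, mul_one,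
    Nat.factorial_one, Nat.factorial_zero, Nat.cast_one, div_one, div_one,
    (U_comm (pow_mem dg_mem (m - 2)) hA).eq] at h1
  linarith

theorem LOCAL_half {G : PP N} (hRR : ∀ Y : Mat N, Y.IsSymm → RR N (lineP (E (dA Y) G)))
    {m : ℕ} (hm : 2 ≤ m) (h0 : ∀ j < m, ev0 ((dg ^ j : Op N) G) = 0)
    (hκ : ev0 ((dg ^ m : Op N) G) ≠ 0) (Y : Mat N) (hY : Y.IsSymm) :
    ev0 ((dg ^ m : Op N) G) * ev0 ((dA Y * dA Y * dg ^ (m - 2) : Op N) G) ≤
      2 * (ev0 ((dA Y * dg ^ (m - 1) : Op N) G)) ^ 2 := by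
  have hN : m ≤ N := by
    by_contra hcon
    apply hκ
    rw [pow_eq_zero_of_pos pos_dg (by omega : N + 1 ≤ m)]
    rfl
  have h2 : ∀ s : ℝ, RR N (lineP (E (s • dA Y) G)) := by
    intro s
    rw [← dA_smul]
    exact hRR _ (hY.smul s)
  have h1 := LOCAL_poly2 (fun s => LOCAL_laguerre (h2 s) hm) (by
      rw [LOCAL_coeff _ _ _ (by omega), pow_zero, mul_one, h0 (m - 2) (by omega), zero_div]) (by
      rw [LOCAL_coeff _ _ _ (by omega), pow_zero, mul_one, h0 (m - 1) (by omega), zero_div]) (by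
      rw [LOCAL_coeff _ _ _ (by omega), pow_zero, mul_one, Nat.factorial_zero, Nat.cast_one,
        div_one]
      exact hκ)
  rw [LOCAL_coeff _ _ _ (by omega), LOCAL_coeff _ _ _ (by omega), LOCAL_coeff _ _ _ (by omega),
    pow_one, pow_zero, mul_one, Nat.factorial_one, Nat.factorial_zero, Nat.cast_one, div_one,
    div_one, (U_comm (pow_mem dg_mem (m - 1)) (dA_mem Y)).eq,
    (U_comm (pow_mem dg_mem (m - 2)) (pow_mem (dA_mem Y) 2)).eq, sq (dA Y), Nat.factorial_two] at h1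
  push_cast at h1
  linarith

theorem local_space {G : PP N} (hRR : ∀ Y : Mat N, Y.IsSymm → RR N (lineP (E (dA Y) G)))
    {m : ℕ} (hm : 2 ≤ m) (h0 : ∀ j < m, ev0 ((dg ^ j : Op N) G) = 0)
    (hκ : ev0 ((dg ^ m : Op N) G) ≠ 0) (Y : Mat N) (hY : Y.IsSymm) :
    ev0 ((dg ^ m : Op N) G) * ev0 ((dA Y * dA Y * dg ^ (m - 2) : Op N) G) ≤
      (ev0 ((dA Y * dg ^ (m - 1) : Op N) G)) ^ 2 := by
  set κ := ev0 ((dg ^ m : Op N) G) with hκd
  set q1 := ev0 ((dA Y * dg ^ (m - 1) : Op N) G) with hq1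
  set q2 := ev0 ((dA Y * dA Y * dg ^ (m - 2) : Op N) G) with hq2
  set c : ℝ := q1 / κ with hc
  have hY' : (Y + (-c) • (1 : Mat N)).IsSymm := hY.add (Matrix.isSymm_one.smul _)
  have h1 := LOCAL_half hRR hm h0 hκ _ hY'
  have hdA : dA (Y + (-c) • (1 : Mat N)) = dA Y + (-c) • dg := by
    rw [dA_add, dA_smul, dA_one]
  have hev_add : ∀ A B : Op N, ev0 ((A + B) G) = ev0 (A G) + ev0 (B G) := fun A B => rfl
  have hev_smul : ∀ (t : ℝ) (A : Op N), ev0 ((t • A) G) = t * ev0 (A G) := fun t A => rfl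
  have hcomm : (dg : Op N) * dA Y = dA Y * dg := (U_comm dg_mem (dA_mem Y)).eq
  have e1 : (dg : Op N) * dg ^ (m - 1) = dg ^ m := by
    rw [← pow_succ', show m - 1 + 1 = m by omega]
  have e2 : (dg : Op N) * dg * dg ^ (m - 2) = dg ^ m := by
    rw [mul_assoc, ← pow_succ', ← pow_succ', show m - 2 + 1 + 1 = m by omega]
  have e3 : dA Y * dg * dg ^ (m - 2) = dA Y * dg ^ (m - 1) := by
    rw [mul_assoc, ← pow_succ', show m - 2 + 1 = m - 1 by omega]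
  have h2 : ev0 (((dA Y + (-c) • dg) * dg ^ (m - 1) : Op N) G) = q1 - c * κ := by
    rw [add_mul, smul_mul_assoc, e1, hev_add, hev_smul]
    ring
  have h3 : ev0 (((dA Y + (-c) • dg) * (dA Y + (-c) • dg) * dg ^ (m - 2) : Op N) G) =
      q2 - 2 * c * q1 + c ^ 2 * κ := by
    have h4 : ((dA Y + (-c) • dg) * (dA Y + (-c) • dg) * dg ^ (m - 2) : Op N) =
        dA Y * dA Y * dg ^ (m - 2) + ((-c) • (dA Y * dg ^ (m - 1)) +
          ((-c) • (dA Y * dg ^ (m - 1)) + ((-c) * (-c)) • dg ^ m)) := by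
      rw [add_mul, mul_add, mul_add, add_mul, add_mul, add_mul, smul_mul_assoc, smul_mul_smul_comm,
        mul_smul_comm, smul_mul_assoc, smul_mul_assoc, smul_mul_assoc, hcomm, e2, e3, add_assoc]
    rw [h4, hev_add, hev_add, hev_add, hev_smul, hev_smul]
    ring
  rw [hdA, h2, h3] at h1
  have hcκ : c * κ = q1 := by
    rw [hc, div_mul_cancel₀ _ hκ]
  have h5 : κ * (q2 - 2 * c * q1 + c ^ 2 * κ) = κ * q2 - q1 ^ 2 := by
    have : c ^ 2 * κ = c * q1 := by rw [sq, mul_assoc, hcκ]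
    rw [this]
    have h6 : κ * (q2 - 2 * c * q1 + c * q1) = κ * q2 - (c * κ) * q1 := by ring
    rw [h6, hcκ]
    ring
  rw [h5, hcκ, sub_self] at h1
  linarith

end Pool.Agent.H88S
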