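import Pool.Agent.Lib.H88S.Shift
import Pool.Agent.Lib.H88S.LineP
import Pool.Agent.Lib.H88S.Heat

/-!
# H88S chunk START: the initial polynomial

* `rr_detRow`: `cev (lineP (detRow X)) z = det (X + z 1)` (`cev_lineP`, `detRow_shift` with `Y = 1`
  and `c = none0`, `dA_one`).  A root `z` is `- λ` with `λ` an eigenvalue of the real symmetric
  (Hermitian) matrix `X`, so it is real: there is a complex `v ≠ 0` with `X v = - z v`, and
  `v* X v` is real (or `Matrix.IsHermitian` eigenvalue lemmas / charpoly).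
  Then `RealRooted.rr` with `natDegree_lineP_le`.
* `start`: the operators commute, `E (dA X) detP = detRow X` (`E_dA_detP`), then `lineP_heat` and
  `rr_heat`.
-/

open Finset Filter Topology Polynomial

namespace Pool.Agent.H88S

variable {N : ℕ}

theorem START_real {X : Mat N} (hX : X.IsSymm) {z : ℂ}
    (hz : (X.map Complex.ofReal + z • (1 : Mat N).map Complex.ofReal).det = 0) : z.im = 0 := by
  obtain ⟨v, hv0, hv⟩ := Matrix.exists_mulVec_eq_zero_iff.mpr hz
  have hH : (X.map Complex.ofReal).IsHermitian := by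
    ext i j
    simp only [Matrix.conjTranspose_apply, Matrix.map_apply]
    rw [Complex.star_def, Complex.conj_ofReal, hX.apply]
  have h1 := hH.im_star_dotProduct_mulVec_self v
  have h2 : (1 : Mat N).map Complex.ofReal = (1 : Matrix (Fin N) (Fin N) ℂ) :=
    Matrix.map_one _ Complex.ofReal_zero Complex.ofReal_one
  rw [h2, Matrix.add_mulVec, Matrix.smul_mulVec, Matrix.one_mulVec] at hv
  have h3 : (X.map Complex.ofReal).mulVec v = - (z • v) := eq_neg_of_add_eq_zero_left hv
  rw [h3, dotProduct_neg, dotProduct_smul] at h1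
  have h4 : dotProduct (star v) v = ((∑ i, ‖v i‖ ^ 2 : ℝ) : ℂ) := by
    unfold dotProduct
    push_cast
    refine Finset.sum_congr rfl fun i _ => ?_
    rw [Pi.star_apply, Complex.star_def, mul_comm, Complex.mul_conj, Complex.normSq_eq_norm_sq]
    push_cast
    rfl
  have h5 : 0 < ∑ i, ‖v i‖ ^ 2 := by
    obtain ⟨i, hi⟩ := Function.ne_iff.mp hv0
    refine lt_of_lt_of_le (b := ‖v i‖ ^ 2) (by
      have : 0 < ‖v i‖ := norm_pos_iff.mpr hi
      positivity) ?_
    exact Finset.single_le_sum (f := fun i => ‖v i‖ ^ 2) (fun _ _ => by positivity)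
      (Finset.mem_univ i)
  rw [h4] at h1
  have h6 : z.im * (∑ i, ‖v i‖ ^ 2) = 0 := by
    have h7 : (-(z • ((∑ i, ‖v i‖ ^ 2 : ℝ) : ℂ))).im = - (z.im * ∑ i, ‖v i‖ ^ 2) := by
      rw [smul_eq_mul, Complex.neg_im, Complex.mul_im, Complex.ofReal_im, Complex.ofReal_re,
        mul_zero, zero_add]
    have h8 : (-(z • ((∑ i, ‖v i‖ ^ 2 : ℝ) : ℂ))).im = 0 := h1
    rw [h7] at h8
    linarith
  rcases mul_eq_zero.mp h6 with h | h
  · exact h
  · exact absurd h h5.ne'

theorem rr_detRow {X : Mat N} (hX : X.IsSymm) : RR N (lineP (detRow X)) := by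
  refine RealRooted.rr (fun z hz => ?_) (natDegree_lineP_le _)
  have h1 := detRow_shift X 1 z none0
  rw [dA_one] at h1
  rw [cev_lineP] at hz
  unfold ev0 at hz
  rw [h1] at hz
  exact START_real hX hz

theorem start {X : Mat N} (hX : X.IsSymm) {η : ℝ} (hη : 0 ≤ η) :
    RR N (lineP (E (dA X) (E ((-η) • (dg ^ 2 : Op N)) detP))) := by
  have h1 : Commute (E (dA X)) (E ((-η) • (dg ^ 2 : Op N))) :=
    U_comm (E_mem (dA_mem X)) (E_mem (Subalgebra.smul_mem _ (pow_mem dg_mem 2) _))
  have h2 : E (dA X) (E ((-η) • (dg ^ 2 : Op N)) detP) =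
      E ((-η) • (dg ^ 2 : Op N)) (detRow X) := by
    rw [← E_dA_detP]
    exact LinearMap.congr_fun h1 detP
  rw [h2, lineP_heat]
  exact rr_heat (rr_detRow hX) (natDegree_lineP_le _) hη

end Pool.Agent.H88S
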