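import Pool.Agent.Lib.H88S.Limit1
import Pool.Agent.Lib.H88S.Limit2
import Pool.Agent.Lib.H88S.Local
import Pool.Agent.Lib.H88S.Psd
import Pool.Agent.Lib.H88S.Decomp
import Pool.Agent.Lib.H88S.Ident
import Pool.Agent.Lib.H88S.Start

/-!
# H88S: the continuity argument (assembly)
-/

open Finset Filter Topology Polynomial

namespace Pool.Agent.H88S

open Pool.Agent.H69Hopf

variable {N : ℕ}

/-- The array of second derivatives. -/
noncomputable def hess (G : PP N) : Arr N := fun i j k l => ev0 (dd i k (dd j l G))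

theorem ev0_add (G H : PP N) : ev0 (G + H) = ev0 G + ev0 H := rfl

theorem ev0_neg (G : PP N) : ev0 (-G) = - ev0 G := rfl

theorem ev0_smul (s : ℝ) (G : PP N) : ev0 (s • G) = s * ev0 G := rfl

theorem ev0_sum {ι : Type*} (s : Finset ι) (f : ι → PP N) :
    ev0 (∑ i ∈ s, f i) = ∑ i ∈ s, ev0 (f i) := by
  unfold ev0
  rw [Finset.sum_apply]

theorem dA_apply (A : Mat N) (G : PP N) : dA A G = ∑ i, ∑ j, A i j • dd i j G := by
  unfold dA
  simp only [LinearMap.sum_apply, LinearMap.smul_apply]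

theorem dR_apply (R : Arr N) (G : PP N) :
    dR R G = ∑ i, ∑ j, ∑ k, ∑ l, R i j k l • dd i k (dd j l G) := by
  unfold dR
  simp only [LinearMap.sum_apply, LinearMap.smul_apply, Module.End.mul_apply]

theorem act_hess (G : PP N) (Y Z : Mat N) : act (hess G) Y Z = ev0 (dA Y (dA Z G)) := by
  unfold act hess
  rw [dA_apply, ev0_sum]
  refine sum_congr rfl fun i _ => ?_
  rw [ev0_sum]
  rw [sum_comm]
  refine sum_congr rfl fun k _ => ?_
  rw [dA_apply, ev0_smul, map_sum, ev0_sum, mul_sum]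
  refine sum_congr rfl fun j _ => ?_
  rw [map_sum, ev0_sum, mul_sum]
  refine sum_congr rfl fun l _ => ?_
  rw [map_smul, ev0_smul]
  ring

theorem sum_hess (R : Arr N) (G : PP N) :
    ∑ i, ∑ j, ∑ k, ∑ l, R i j k l * hess G i j k l = ev0 (dR R G) := by
  rw [dR_apply]
  simp only [ev0_sum, ev0_smul]
  rfl

theorem hess_anti {G : PP N} (hG : Anti G) (i j k l : Fin N) :
    hess G i j k l = - hess G i j l k := by
  unfold hess
  rw [hG i j k l, ev0_neg]

theorem hess_symm (G : PP N) (i j k l : Fin N) : hess G i j k l = hess G j i l k := by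
  unfold hess
  rw [← Module.End.mul_apply, ← Module.End.mul_apply]
  exact congrArg ev0 (LinearMap.congr_fun (dd_comm i k j l) G)

/-- The curvature condition: the contraction of `R` with a form of Lorentz type is nonnegative. -/
theorem contract_nonneg {R Q : Arr N} (hR : IsAlgCurv R) (hH : SphereNonneg R)
    (hQ1 : ∀ i j k l, Q i j k l = - Q i j l k) (hQ2 : ∀ i j k l, Q i j k l = Q j i l k)
    (hκ : 0 < act Q 1 1)
    (hL : ∀ Y : Mat N, Y.IsSymm → act Q 1 1 * act Q Y Y ≤ act Q 1 Y ^ 2) :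
    0 ≤ ∑ i, ∑ j, ∑ k, ∑ l, R i j k l * Q i j k l := by
  obtain ⟨p, S, B, hS, hB, hSa, hQ⟩ := exists_decomp hQ2 hκ hL
  have hid := contraction_identity hR hQ1 hQ2 hS hB hQ
  have hsymm : ∀ x : Fin N → ℝ, (Matrix.vecMulVec x x).IsSymm := fun x => by
    ext i j
    simp [Matrix.vecMulVec_apply, mul_comm]
  have hSm : SphereMap S B := by
    refine ⟨hS, fun x => ?_, hB, fun x => ?_⟩
    · rw [← ip_vecMulVec, hSa _ (hsymm x)]
      exact div_nonneg (psd_of_lorentz hQ1 hQ2 hκ hL x) (Real.sqrt_nonneg _)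
    · have h1 := hQ _ _ (hsymm x) (hsymm x)
      rw [act_vecMulVec_self hQ1] at h1
      simp only [ip_vecMulVec] at h1
      have h2 : ∑ k, bilin (B k) x x ^ 2 = ∑ k, bilin (B k) x x * bilin (B k) x x :=
        sum_congr rfl fun k _ => sq _
      rw [h2]
      linarith [sq (bilin S x x)]
  have h3 := hH p S B hSm
  linarith

theorem act_neg (R : Arr N) (A B : Mat N) : act (-R) A B = - act R A B := by
  unfold act
  simp only [Pi.neg_apply, neg_mul, sum_neg_distrib]

/-- The pointwise contradiction. -/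
theorem contradiction {R : Arr N} (hR : IsAlgCurv R) (hH : SphereNonneg R) {δ : ℝ} (hδ : 0 < δ)
    {G : PP N} (hA : Anti G) (hG : Good G) {m : ℕ} (hm : 2 ≤ m)
    (h0 : ∀ j < m, ev0 ((dg ^ j : Op N) G) = 0) (hκ : ev0 ((dg ^ m : Op N) G) ≠ 0)
    (h : ev0 ((dg ^ m : Op N) G) *
      ev0 (((dR R + δ • (dg ^ 2 : Op N)) * dg ^ (m - 2) : Op N) G) ≤ 0) : False := by
  set G' : PP N := (dg ^ (m - 2) : Op N) G with hG'
  have hA' : Anti G' := Anti.apply (pow_mem dg_mem _) hA
  have hm2 : m - 2 + 2 = m := by omega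
  have hpow : ∀ Y : Mat N, act (hess G') 1 Y = ev0 ((dA Y * dg ^ (m - 1) : Op N) G) := by
    intro Y
    rw [act_hess, dA_one]
    have h1 : (dg : Op N) (dA Y G') = (dA Y * dg ^ (m - 1) : Op N) G := by
      have h2 : (dg : Op N) * dA Y * dg ^ (m - 2) = dA Y * dg ^ (m - 1) := by
        rw [(U_comm dg_mem (dA_mem Y)).eq, mul_assoc, ← pow_succ']
        congr 2
        omega
      rw [← h2]
      rfl
    rw [h1]
  have hpow2 : ∀ Y : Mat N, act (hess G') Y Y =
      ev0 ((dA Y * dA Y * dg ^ (m - 2) : Op N) G) := by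
    intro Y
    rw [act_hess]
    rfl
  have hk : act (hess G') 1 1 = ev0 ((dg ^ m : Op N) G) := by
    rw [hpow, dA_one, ← pow_succ']
    congr 3
    omega
  have hdR : ev0 (((dR R + δ • (dg ^ 2 : Op N)) * dg ^ (m - 2) : Op N) G) =
      ev0 (dR R G') + δ * ev0 ((dg ^ m : Op N) G) := by
    have h1 : ((dR R + δ • (dg ^ 2 : Op N)) * dg ^ (m - 2) : Op N) G =
        dR R G' + δ • (dg ^ m : Op N) G := by
      have h2 : ((dR R + δ • (dg ^ 2 : Op N)) * dg ^ (m - 2) : Op N) =
          dR R * dg ^ (m - 2) + δ • dg ^ m := by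
        rw [add_mul, smul_mul_assoc, ← pow_add]
        congr 3
        omega
      rw [h2]
      rfl
    rw [h1, ev0_add, ev0_smul]
  have hL : ∀ Y : Mat N, Y.IsSymm →
      act (hess G') 1 1 * act (hess G') Y Y ≤ act (hess G') 1 Y ^ 2 := by
    intro Y hY
    rw [hk, hpow2, hpow]
    exact local_space hG hm h0 hκ Y hY
  have hρ : 0 ≤ ev0 ((dg ^ m : Op N) G) * ev0 (dR R G') := by
    rcases lt_or_gt_of_ne hκ with hneg | hpos
    · have h1 := contract_nonneg (Q := - hess G') hR hH
        (fun i j k l => by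
          simp only [Pi.neg_apply]
          rw [hess_anti hA' i j k l])
        (fun i j k l => by
          simp only [Pi.neg_apply]
          rw [hess_symm G' i j k l])
        (by rw [act_neg, hk]; linarith)
        (fun Y hY => by
          simp only [act_neg]
          have := hL Y hY
          nlinarith)
      have h2 : ∑ i, ∑ j, ∑ k, ∑ l, R i j k l * (- hess G') i j k l = - ev0 (dR R G') := by
        rw [← sum_hess]
        simp only [Pi.neg_apply, mul_neg, sum_neg_distrib]
      rw [h2] at h1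
      nlinarith
    · have h1 := contract_nonneg (Q := hess G') hR hH (fun i j k l => hess_anti hA' i j k l)
        (fun i j k l => hess_symm G' i j k l) (by rw [hk]; exact hpos) hL
      rw [sum_hess] at h1
      exact mul_nonneg hpos.le h1
  rw [hdR] at h
  have : 0 < δ * (ev0 ((dg ^ m : Op N) G)) ^ 2 := by positivity
  nlinarith

theorem good_start {η : ℝ} (hη : 0 ≤ η) : Good (E ((-η) • (dg ^ 2 : Op N)) detP) :=
  fun _ hX => start hX hη

/-- Every time has a right neighbourhood of good times. -/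
theorem good_right {R : Arr N} (hR : IsAlgCurv R) (hH : SphereNonneg R) {δ η : ℝ} (hδ : 0 < δ)
    (hη : 0 < η) {x : ℝ} (hx0 : 0 ≤ x) (hx1 : x < 1)
    (hgood : ∀ t ∈ Set.Icc 0 x, Good (path R δ η t)) :
    ∃ ε > 0, ∀ t, x < t → t < x + ε → t ≤ 1 → Good (path R δ η t) := by
  by_contra hcon
  push Not at hcon
  obtain ⟨G, X, a, t, hX, ha, hxt, ht, hlim, hne, h0, h1⟩ := limit_extraction R δ η hx0 hx1
    (hgood x ⟨hx0, le_rfl⟩) (fun ε hε => by
      obtain ⟨t, h1, h2, h3, h4⟩ := hcon ε hε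
      exact ⟨t, h1, h2, h3, h4⟩)
  obtain ⟨hA, hG, hpos, hzero⟩ := limit_rr R δ η hx0 hgood (fun η' hη' => good_start hη') hX ht hlim
  obtain ⟨m0, hm0⟩ := exists_of_lineP_ne_zero hne
  classical
  let m := Nat.find (p := fun m => ev0 ((dg ^ m : Op N) G) ≠ 0) ⟨m0, hm0⟩
  have hκ : ev0 ((dg ^ m : Op N) G) ≠ 0 :=
    Nat.find_spec (p := fun m => ev0 ((dg ^ m : Op N) G) ≠ 0) ⟨m0, hm0⟩
  have hlt : ∀ j < m, ev0 ((dg ^ j : Op N) G) = 0 := fun j hj => by
    by_contra h
    exact Nat.find_min (p := fun m => ev0 ((dg ^ m : Op N) G) ≠ 0) ⟨m0, hm0⟩ hj h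
  have hm : 2 ≤ m := by
    by_contra hlt2
    have : m = 0 ∨ m = 1 := by omega
    rcases this with h | h
    · rw [h] at hκ
      exact hκ (by simpa using h0)
    · rw [h] at hκ
      exact hκ (by simpa using h1)
  rcases hx0.lt_or_eq with hx | hx
  · have hAm : (dR R + δ • (dg ^ 2 : Op N)) ∈ U N :=
      add_mem (dR_mem R) (Subalgebra.smul_mem _ (pow_mem dg_mem 2) _)
    exact contradiction hR hH hδ hA hG hm hlt hκ (local_time hAm hx (hpos hx) hm hlt)
  · have h2 := local_time (pow_mem dg_mem 2) hη (hzero hx.symm) hm hlt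
    rw [← pow_add] at h2
    have h3 : 2 + (m - 2) = m := by omega
    rw [h3] at h2
    have : 0 < ev0 ((dg ^ m : Op N) G) * ev0 ((dg ^ m : Op N) G) := mul_self_pos.2 hκ
    linarith

/-- The set of good elements is closed. -/
theorem good_of_tendsto {G : ℕ → PP N} {G0 : PP N} (h : Tendsto G atTop (𝓝 G0))
    (hG : ∀ k, Good (G k)) : Good G0 := fun X hX =>
  rr_lineP_of_tendsto ((continuous_op (E (dA X))).continuousAt.tendsto.comp h)
    (fun k => hG k X hX)

theorem good_path {R : Arr N} (hR : IsAlgCurv R) (hH : SphereNonneg R) {δ η : ℝ} (hδ : 0 < δ)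
    (hη : 0 < η) : ∀ t ∈ Set.Icc (0 : ℝ) 1, Good (path R δ η t) := by
  -- the supremum of the good initial intervals
  by_contra hcon
  push Not at hcon
  obtain ⟨b, ⟨hb0, hb1⟩, hb⟩ := hcon
  let s : Set ℝ := {t | 0 ≤ t ∧ ¬ Good (path R δ η t)}
  have hsb : BddBelow s := ⟨0, fun t ht => ht.1⟩
  have hsn : s.Nonempty := ⟨b, hb0, hb⟩
  set x := sInf s with hx
  have hx0 : 0 ≤ x := le_csInf hsn fun t ht => ht.1
  have hxb : x ≤ b := csInf_le hsb ⟨hb0, hb⟩
  have hlt : ∀ t, 0 ≤ t → t < x → Good (path R δ η t) := fun t ht htx => by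
    by_contra h
    exact absurd (csInf_le hsb (show t ∈ s from ⟨ht, h⟩)) (not_le.2 htx)
  have h00 : Good (path R δ η 0) := by
    rw [path_zero]
    exact good_start hη.le
  have hxg : Good (path R δ η x) := by
    rcases hx0.lt_or_eq with hxp | hxp
    · have hlim : Tendsto (fun k : ℕ => x - x / (k + 1)) atTop (𝓝 x) := by
        have h1 : Tendsto (fun k : ℕ => x / ((k : ℝ) + 1)) atTop (𝓝 0) := by
          have := tendsto_const_div_atTop_nhds_zero_nat x
          exact (tendsto_add_atTop_iff_nat 1).2 this |>.congr fun k => by push_cast; rfl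
        simpa using tendsto_const_nhds.sub h1
      refine good_of_tendsto (((continuous_path R δ η).tendsto x).comp hlim) fun k => ?_
      have hk : (0 : ℝ) < k + 1 := by positivity
      refine hlt _ ?_ ?_
      · rw [sub_nonneg]
        exact div_le_self hxp.le (by linarith)
      · have : 0 < x / (k + 1) := by positivity
        linarith
    · rw [← hxp]
      exact h00
  have hxlt : x < 1 := by
    rcases (hxb.trans hb1).lt_or_eq with h | h
    · exact h
    · exfalso
      have : b = x := le_antisymm (by rw [h]; exact hb1) hxb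
      rw [this] at hb
      exact hb hxg
  obtain ⟨ε, hε, hgd⟩ := good_right hR hH hδ hη hx0 hxlt (fun t ht => by
    rcases ht.2.lt_or_eq with h | h
    · exact hlt t ht.1 h
    · rw [h]; exact hxg)
  -- a bad time in `(x, x + min ε (1 - x))`
  have hxs : x ∉ s := fun h => h.2 hxg
  obtain ⟨t, hts, htlt⟩ := exists_lt_of_csInf_lt hsn
    (show sInf s < x + min ε (1 - x) by
      have : 0 < min ε (1 - x) := lt_min hε (by linarith)
      rw [← hx]
      linarith)
  have hxt : x < t := lt_of_le_of_ne (csInf_le hsb hts) fun h => hxs (h ▸ hts)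
  refine hts.2 (hgd t hxt ?_ ?_)
  · have := min_le_left ε (1 - x)
    linarith
  · have := min_le_right ε (1 - x)
    linarith

end Pool.Agent.H88S
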