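import Pool.Agent.Lib.H88S.Defs

/-!
# H88S chunk OPS: the commutative algebra of partial derivatives

Definitions in `Defs.lean`.  `PP N = (Fin N → Option (Fin N)) → ℝ`, `Op N = Module.End ℝ (PP N)`,
`(dd i j G) c = if c i = none then G (update c i (some j)) else 0`.
-/

open Finset Filter Topology

namespace Pool.Agent.H88S

open Pool.Agent.H69Hopf

variable {N : ℕ}

theorem dd_comm (i j k l : Fin N) : Commute (dd i j : Op N) (dd k l) := by
  refine LinearMap.ext fun G => funext fun c => ?_
  simp only [Module.End.mul_apply, dd_apply]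
  by_cases hik : i = k
  · subst hik
    simp
  · have hki : k ≠ i := fun h => hik h.symm
    by_cases h1 : c i = none <;> by_cases h2 : c k = none <;>
      simp [h1, h2, Function.update_of_ne hik, Function.update_of_ne hki]
    rw [Function.update_comm hik]

theorem U_comm {A B : Op N} (hA : A ∈ U N) (hB : B ∈ U N) : Commute A B := by
  have h1 : ∀ k l : Fin N, Commute (dd k l : Op N) A := fun k l =>
    Algebra.commute_of_mem_adjoin_of_forall_mem_commute hA (by
      rintro _ ⟨p, rfl⟩
      exact dd_comm k l p.1 p.2)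
  exact Algebra.commute_of_mem_adjoin_of_forall_mem_commute hB (by
      rintro _ ⟨p, rfl⟩
      exact (h1 p.1 p.2).symm)

theorem dd_mem (i j : Fin N) : (dd i j : Op N) ∈ U N :=
  Algebra.subset_adjoin ⟨(i, j), rfl⟩

theorem dA_mem (A : Mat N) : dA A ∈ U N :=
  sum_mem fun i _ => sum_mem fun j _ => Subalgebra.smul_mem _ (dd_mem i j) _

theorem dg_mem : (dg : Op N) ∈ U N := sum_mem fun i _ => dd_mem i i

theorem dR_mem (R : Arr N) : dR R ∈ U N :=
  sum_mem fun i _ => sum_mem fun j _ => sum_mem fun k _ => sum_mem fun l _ =>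
    Subalgebra.smul_mem _ (mul_mem (dd_mem i k) (dd_mem j l)) _

theorem E_mem {A : Op N} (hA : A ∈ U N) : E A ∈ U N :=
  sum_mem fun k _ => Subalgebra.smul_mem _ (pow_mem hA k) _

theorem dA_one : dA (1 : Mat N) = dg := by
  unfold dA dg
  refine sum_congr rfl fun i _ => ?_
  rw [sum_eq_single i]
  · simp
  · intro j _ hj
    rw [Matrix.one_apply_ne (Ne.symm hj), zero_smul]
  · simp

theorem dA_add (A B : Mat N) : dA (A + B) = dA A + dA B := by
  unfold dA
  simp only [Matrix.add_apply, add_smul, sum_add_distrib]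

theorem dA_smul (s : ℝ) (A : Mat N) : dA (s • A) = s • dA A := by
  unfold dA
  simp only [Matrix.smul_apply, smul_eq_mul, mul_smul, smul_sum]

theorem dR_add (R Q : Arr N) : dR (R + Q) = dR R + dR Q := by
  unfold dR
  simp only [Pi.add_apply, add_smul, sum_add_distrib]

theorem dR_smul (s : ℝ) (R : Arr N) : dR (s • R) = s • dR R := by
  unfold dR
  simp only [Pi.smul_apply, smul_eq_mul, mul_smul, smul_sum]

private theorem wt_update (c : Idx N) {i : Fin N} (h : c i = none) (j : Fin N) :
    wt (Function.update c i (some j)) = wt c + 1 := by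
  unfold wt
  have h1 : (univ.filter fun k => Function.update c i (some j) k ≠ none) =
      insert i (univ.filter fun k => c k ≠ none) := by
    ext k
    by_cases hk : k = i
    · subst hk
      simp
    · simp [hk]
  rw [h1, card_insert_of_notMem]
  simp [h]

theorem pos_dd (i j : Fin N) : Pos (dd i j : Op N) := by
  intro r G hG c hc
  rw [dd_apply]
  by_cases h : c i = none
  · rw [if_pos h]
    exact hG _ (by rw [wt_update c h]; exact hc)
  · rw [if_neg h]

theorem pos_zero : Pos (0 : Op N) := fun _ _ _ _ _ => rfl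

theorem pos_add {A B : Op N} (hA : Pos A) (hB : Pos B) : Pos (A + B) := by
  intro r G hG c hc
  rw [LinearMap.add_apply, Pi.add_apply, hA r G hG c hc, hB r G hG c hc, add_zero]

theorem pos_smul {A : Op N} (s : ℝ) (hA : Pos A) : Pos (s • A) := by
  intro r G hG c hc
  rw [LinearMap.smul_apply, Pi.smul_apply, hA r G hG c hc, smul_zero]

theorem pos_mul {A B : Op N} (hA : Pos A) (hB : Pos B) : Pos (A * B) := by
  intro r G hG c hc
  rw [Module.End.mul_apply]
  exact hA r _ (fun c' hc' => hB r G hG c' (by omega)) c hc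

private theorem pos_sum {ι : Type*} (s : Finset ι) (f : ι → Op N) (h : ∀ i ∈ s, Pos (f i)) :
    Pos (∑ i ∈ s, f i) := by
  classical
  induction s using Finset.induction_on with
  | empty => simpa using pos_zero
  | insert a s ha ih =>
    rw [sum_insert ha]
    exact pos_add (h a (mem_insert_self _ _)) (ih fun i hi => h i (mem_insert_of_mem hi))

theorem pos_dA (A : Mat N) : Pos (dA A) :=
  pos_sum _ _ fun i _ => pos_sum _ _ fun j _ => pos_smul _ (pos_dd i j)

theorem pos_dg : Pos (dg : Op N) := pos_sum _ _ fun i _ => pos_dd i i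

theorem pos_dg_sq : Pos (dg ^ 2 : Op N) := by
  rw [sq]
  exact pos_mul pos_dg pos_dg

theorem pos_dR (R : Arr N) : Pos (dR R) :=
  pos_sum _ _ fun i _ => pos_sum _ _ fun j _ => pos_sum _ _ fun k _ => pos_sum _ _ fun l _ =>
    pos_smul _ (pos_mul (pos_dd i k) (pos_dd j l))

theorem wt_le (c : Idx N) : wt c ≤ N := by
  unfold wt
  refine (card_le_univ _).trans ?_
  simp

theorem pow_eq_zero_of_pos {A : Op N} (hA : Pos A) {k : ℕ} (hk : N + 1 ≤ k) : A ^ k = 0 := by
  have h : ∀ k : ℕ, ∀ G : PP N, ∀ c, N + 1 ≤ wt c + k → (A ^ k) G c = 0 := by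
    intro k
    induction k with
    | zero =>
      intro G c hc
      have := wt_le c
      omega
    | succ k ih =>
      intro G c hc
      rw [pow_succ', Module.End.mul_apply]
      exact hA (N + 1 - k) _ (fun c' hc' => ih G c' (by omega)) c (by omega)
  refine LinearMap.ext fun G => funext fun c => ?_
  exact h k G c (by omega)

theorem E_zero : E (0 : Op N) = 1 := by
  unfold E
  rw [sum_eq_single 0]
  · simp
  · intro k _ hk
    rw [zero_pow hk, smul_zero]
  · simp

private theorem E_eq_exp {A : Op N} (hA : Pos A) : E A = IsNilpotent.exp A := by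
  rw [IsNilpotent.exp_eq_sum (pow_eq_zero_of_pos hA (le_refl (N + 1)))]
  unfold E
  refine sum_congr rfl fun k _ => ?_
  rw [← Rat.cast_smul_eq_qsmul ℝ]
  congr 1
  push_cast
  rfl

theorem E_add {A B : Op N} (hA : Pos A) (hB : Pos B) (h : Commute A B) :
    E (A + B) = E A * E B := by
  rw [E_eq_exp hA, E_eq_exp hB, E_eq_exp (pos_add hA hB)]
  exact IsNilpotent.exp_add_of_commute h ⟨N + 1, pow_eq_zero_of_pos hA le_rfl⟩
    ⟨N + 1, pow_eq_zero_of_pos hB le_rfl⟩

theorem E_apply (A : Op N) (G : PP N) :
    E A G = ∑ k ∈ range (N + 1), ((k.factorial : ℝ)⁻¹) • (A ^ k) G := by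
  unfold E
  rw [LinearMap.sum_apply]
  rfl

theorem E_smul_apply (s : ℝ) (A : Op N) (G : PP N) :
    E (s • A) G = ∑ k ∈ range (N + 1), (s ^ k / k.factorial) • (A ^ k) G := by
  rw [E_apply]
  refine sum_congr rfl fun k _ => ?_
  rw [smul_pow, LinearMap.smul_apply, smul_smul]
  congr 1
  field_simp

theorem E_single_none0 {A : Op N} (hA : Pos A) :
    E A (Pi.single none0 1) = Pi.single none0 1 := by
  have h1 : A (Pi.single none0 1) = 0 := by
    funext c
    refine hA 1 _ (fun c' hc' => ?_) c (by omega)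
    refine Pi.single_eq_of_ne ?_ _
    rintro rfl
    simp [wt, none0] at hc'
  rw [E_apply, sum_eq_single 0]
  · simp
  · intro k _ hk
    obtain ⟨m, rfl⟩ := Nat.exists_eq_succ_of_ne_zero hk
    rw [Nat.succ_eq_add_one, pow_succ, Module.End.mul_apply, h1, map_zero, smul_zero]
  · simp

theorem continuous_op (A : Op N) : Continuous A := LinearMap.continuous_of_finiteDimensional A

theorem continuous_ev0 : Continuous (ev0 : PP N → ℝ) := continuous_apply none0

theorem tendsto_E_smul {ι : Type*} {l : Filter ι} {A : Op N} {s : ι → ℝ} {s0 : ℝ}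
    {G : ι → PP N} {G0 : PP N} (hs : Tendsto s l (𝓝 s0)) (hG : Tendsto G l (𝓝 G0)) :
    Tendsto (fun k => E (s k • A) (G k)) l (𝓝 (E (s0 • A) G0)) := by
  simp only [E_smul_apply]
  refine tendsto_finsetSum _ fun k _ => ?_
  refine Tendsto.smul ((hs.pow k).div_const _) ?_
  exact ((continuous_op (A ^ k)).tendsto G0).comp hG

end Pool.Agent.H88S
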