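import Pool.Agent.Lib.H88S.Anti
import Pool.Agent.Lib.H88S.LineP
import Pool.Agent.Lib.H88S.Shift

/-!
# H88S chunk PATH: elementary facts on the path

`path R δ η t = E ((-t) • (dR R + δ • dg ^ 2)) (E ((-η) • dg ^ 2) detP)`.

* `path_sub`: `path (t - s) = E (s • A) (path t)`, `A = dR R + δ • dg ^ 2`: `E_add` with
  `(-(t - s)) • A = s • A + (-t) • A`.
* `path_bound`: `E (dA X) (path R δ η t) = V (detRow X)` with
  `V = E ((-t) • A) * E ((-η) • dg ^ 2) ∈ U N`; `V (Pi.single none0 1) = Pi.single none0 1`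
  (`E_single_none0`), and the entries `V (Pi.single c 1) c'` are continuous functions of
  `t ∈ [0, 1]`, so bounded (`E_smul_apply` gives an explicit bound).
-/

open Finset Filter Topology Polynomial

namespace Pool.Agent.H88S

open Pool.Agent.H69Hopf

variable {N : ℕ}

/-- The operator in the exponent. -/
noncomputable def PATH_A (R : Arr N) (δ : ℝ) : Op N := dR R + δ • (dg ^ 2 : Op N)

theorem PATH_A_mem (R : Arr N) (δ : ℝ) : PATH_A R δ ∈ U N :=
  add_mem (dR_mem R) (Subalgebra.smul_mem _ (pow_mem dg_mem 2) _)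

theorem PATH_A_pos (R : Arr N) (δ : ℝ) : Pos (PATH_A R δ) :=
  pos_add (pos_dR R) (pos_smul _ pos_dg_sq)

theorem path_zero (R : Arr N) (δ η : ℝ) : path R δ η 0 = E ((-η) • (dg ^ 2 : Op N)) detP := by
  unfold path
  rw [neg_zero, zero_smul, E_zero, Module.End.one_apply]

theorem path_sub (R : Arr N) (δ η t s : ℝ) :
    path R δ η (t - s) = E (s • (dR R + δ • (dg ^ 2 : Op N))) (path R δ η t) := by
  have h1 := E_add (pos_smul s (PATH_A_pos R δ)) (pos_smul (-t) (PATH_A_pos R δ))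
    (U_comm (Subalgebra.smul_mem _ (PATH_A_mem R δ) s)
      (Subalgebra.smul_mem _ (PATH_A_mem R δ) (-t)))
  rw [← add_smul, show s + -t = -(t - s) by ring] at h1
  have h2 := LinearMap.congr_fun h1 (E ((-η) • (dg ^ 2 : Op N)) detP)
  exact h2

theorem continuous_path (R : Arr N) (δ η : ℝ) : Continuous (path R δ η) := by
  rw [continuous_iff_continuousAt]
  intro t
  exact tendsto_E_smul (A := PATH_A R δ) (s := fun t : ℝ => -t) (s0 := -t) (l := 𝓝 t)
    (continuous_neg.tendsto t) tendsto_const_nhds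

theorem anti_path (R : Arr N) (δ η t : ℝ) : Anti (path R δ η t) :=
  Anti.apply (E_mem (Subalgebra.smul_mem _ (PATH_A_mem R δ) _))
    (Anti.apply (E_mem (Subalgebra.smul_mem _ (pow_mem dg_mem 2) _)) (anti_detRow 0))

/-- `E (dA X) (E (dA Y) G) = E (dA (X + Y)) G`. -/
theorem E_dA_add (X Y : Mat N) (G : PP N) : E (dA X) (E (dA Y) G) = E (dA (X + Y)) G := by
  rw [dA_add, E_add (pos_dA X) (pos_dA Y) (U_comm (dA_mem X) (dA_mem Y)), Module.End.mul_apply]

theorem path_V (R : Arr N) (δ η : ℝ) : ∃ K : ℝ, ∀ t ∈ Set.Icc (0 : ℝ) 1, ∃ V : Op N, V ∈ U N ∧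
    ev0 (V (Pi.single none0 1)) = 1 ∧ (∀ c c' : Idx N, |V (Pi.single c 1) c'| ≤ K) ∧
    ∀ X : Mat N, E (dA X) (path R δ η t) = V (detRow X) := by
  set V : ℝ → Op N := fun t => E ((-t) • PATH_A R δ) * E ((-η) • (dg ^ 2 : Op N)) with hV
  have hVU : ∀ t, V t ∈ U N := fun t =>
    mul_mem (E_mem (Subalgebra.smul_mem _ (PATH_A_mem R δ) _))
      (E_mem (Subalgebra.smul_mem _ (pow_mem dg_mem 2) _))
  have hcont : ∀ c c' : Idx N, Continuous fun t => V t (Pi.single c 1) c' := by
    intro c c'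
    have h1 : Continuous fun t : ℝ =>
        E ((-t) • PATH_A R δ) (E ((-η) • (dg ^ 2 : Op N)) (Pi.single c 1)) := by
      rw [continuous_iff_continuousAt]
      intro t
      exact tendsto_E_smul (A := PATH_A R δ) (s := fun t : ℝ => -t) (s0 := -t) (l := 𝓝 t)
        (continuous_neg.tendsto t) tendsto_const_nhds
    exact (continuous_apply c').comp h1
  have hbd : ∀ p : Idx N × Idx N, ∃ K : ℝ, ∀ t ∈ Set.Icc (0 : ℝ) 1,
      ‖V t (Pi.single p.1 1) p.2‖ ≤ K := fun p =>
    isCompact_Icc.exists_bound_of_continuousOn (hcont p.1 p.2).continuousOn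
  choose K hK using hbd
  refine ⟨∑ p, |K p|, fun t ht => ⟨V t, hVU t, ?_, fun c c' => ?_, fun X => ?_⟩⟩
  · rw [hV]
    simp only [Module.End.mul_apply]
    rw [E_single_none0 (pos_smul _ pos_dg_sq), E_single_none0 (pos_smul _ (PATH_A_pos R δ))]
    unfold ev0
    rw [Pi.single_eq_same]
  · have h1 := hK (c, c') t ht
    rw [Real.norm_eq_abs] at h1
    have h2 : |K (c, c')| ≤ ∑ p, |K p| :=
      Finset.single_le_sum (f := fun p => |K p|) (fun _ _ => abs_nonneg _) (Finset.mem_univ (c, c'))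
    exact h1.trans ((le_abs_self _).trans h2)
  · have h1 : path R δ η t = V t detP := rfl
    rw [h1, ← E_dA_detP X, ← Module.End.mul_apply, ← Module.End.mul_apply,
      (U_comm (E_mem (dA_mem X)) (hVU t)).eq]

end Pool.Agent.H88S
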